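import Pool.Agent.PSY.Core

open Finset

set_option autoImplicit false

namespace Pool.Agent.PSY

open scoped Classical

lemma sum_ch_eq {V : Type} [Fintype V] (F : RF V) (S : Finset V) :
    ∑ u ∈ S, ch F u = (univ.filter fun v => ∃ u ∈ S, F.par v = some u).card := by
  have h1 : (univ.filter fun v => ∃ u ∈ S, F.par v = some u) =
      S.biUnion fun u => univ.filter fun v => F.par v = some u := by
    ext v
    simp
  rw [h1, card_biUnion]
  · rfl
  · intro a _ b _ hab
    rw [Function.onFun, disjoint_left]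
    intro v hv hv'
    simp only [mem_filter, mem_univ, true_and] at hv hv'
    rw [hv] at hv'
    exact hab (Option.some.inj hv')

lemma sum_ch_le {V : Type} [Fintype V] (F : RF V) (S : Finset V) :
    ∑ u ∈ S, ch F u ≤ Fintype.card V := by
  rw [sum_ch_eq]
  exact card_le_univ _

lemma exists_dep {V : Type} (F : RF V) :
    ∃ dep : V → ℕ, ∀ v u, F.par v = some u → dep v = dep u + 1 := by
  obtain ⟨p, hp⟩ := exists_rec (β := ℕ) F
    (fun v p => match F.par v with
      | none => 0
      | some u => p u + 1) (by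
    intro v p p' h
    cases hv : F.par v with
    | none => rfl
    | some u => exact congrArg (· + 1) (h u (F.lt v u hv)))
  refine ⟨p, fun v u h => ?_⟩
  rw [hp v, h]

/-- the degree scales -/
def Dsc (m : ℕ) : ℕ → ℕ
  | 0 => 1
  | j + 1 => m * (Dsc m j + 2)

lemma Dsc_lt {m : ℕ} (hm : 1 ≤ m) (j : ℕ) : Dsc m j < Dsc m (j + 1) := by
  rw [Dsc]
  nlinarith

lemma Dsc_mono {m : ℕ} (hm : 1 ≤ m) : StrictMono (Dsc m) := strictMono_nat_of_lt_succ (Dsc_lt hm)

lemma exists_scale {V : Type} [Fintype V] (F : RF V) (m : ℕ) (hm : 1 ≤ m) :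
    ∃ j < m, m * ∑ v ∈ univ.filter (fun v => Dsc m j < ch F v ∧ ch F v ≤ Dsc m (j + 1)), ch F v ≤
      Fintype.card V := by
  have h1 : ∑ j ∈ range m, (m * ∑ v ∈ univ.filter (fun v => Dsc m j < ch F v ∧
      ch F v ≤ Dsc m (j + 1)), ch F v) ≤ ∑ _j ∈ range m, Fintype.card V := by
    rw [← mul_sum, sum_const, card_range, smul_eq_mul]
    apply Nat.mul_le_mul_left
    refine le_trans ?_ (sum_ch_le F univ)
    simp only [sum_filter]
    rw [sum_comm]
    apply sum_le_sum
    intro v _
    rw [← sum_filter, sum_const, smul_eq_mul]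
    have h2 : ((range m).filter fun j => Dsc m j < ch F v ∧ ch F v ≤ Dsc m (j + 1)).card ≤ 1 := by
      rw [card_le_one]
      intro a ha b hb
      simp only [mem_filter] at ha hb
      by_contra hab
      rcases lt_or_gt_of_ne hab with h | h
      · have := (Dsc_mono hm).monotone (show a + 1 ≤ b from h)
        omega
      · have := (Dsc_mono hm).monotone (show b + 1 ≤ a from h)
        omega
    calc _ ≤ 1 * ch F v := Nat.mul_le_mul_right _ h2
      _ = ch F v := one_mul _
  obtain ⟨j, hj, h2⟩ := exists_le_of_sum_le ⟨0, mem_range.mpr (by omega)⟩ h1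
  exact ⟨j, mem_range.mp hj, h2⟩

lemma exists_residue {V : Type} [Fintype V] (F : RF V) (dep : V → ℕ) (m : ℕ) (hm : 1 ≤ m) :
    ∃ r < m, m * ∑ v ∈ univ.filter (fun v => dep v % m = r), (1 + ch F v) ≤
      2 * Fintype.card V := by
  have h1 : ∑ r ∈ range m, (m * ∑ v ∈ univ.filter (fun v => dep v % m = r), (1 + ch F v)) ≤
      ∑ _r ∈ range m, 2 * Fintype.card V := by
    rw [← mul_sum, sum_const, card_range, smul_eq_mul]
    apply Nat.mul_le_mul_left
    have h3 : ∑ v : V, (1 + ch F v) ≤ 2 * Fintype.card V := by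
      rw [sum_add_distrib, sum_const, smul_eq_mul, mul_one, card_univ]
      have := sum_ch_le F univ
      omega
    refine le_trans ?_ h3
    simp only [sum_filter]
    rw [sum_comm]
    apply sum_le_sum
    intro v _
    rw [sum_ite_eq]
    split_ifs <;> omega
  obtain ⟨r, hr, h2⟩ := exists_le_of_sum_le ⟨0, mem_range.mpr (by omega)⟩ h1
  exact ⟨r, mem_range.mp hr, h2⟩

lemma card_le_classes {V : Type} [Fintype V] {k : ℕ} (f : V → Fin k)
    (hf : ∀ c, (univ.filter fun v => f v = c).card ≤ k) : Fintype.card V ≤ k ^ 2 := by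
  have h1 : (univ : Finset V).card = ∑ c : Fin k, (univ.filter fun v => f v = c).card :=
    card_eq_sum_card_fiberwise (fun v _ => mem_univ (f v))
  rw [← card_univ, h1]
  calc ∑ c : Fin k, (univ.filter fun v => f v = c).card ≤ ∑ _c : Fin k, k :=
        sum_le_sum fun c _ => hf c
    _ = k ^ 2 := by simp [sq]

/-- counting the edges that are not typed -/
lemma untyped_card {V : Type} [Fintype V] (F : RF V) (dep : V → ℕ) (m D1 D2 r : ℕ)
    (_hD : D1 < D2) (A H : V → Prop) (hH : ∀ v, H v ↔ D2 < ch F v)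
    (hA : ∀ v, A v ↔ ch F v ≤ D1 ∧ dep v % m ≠ r ∧ ∀ h, F.par h = some v → ¬ H h) :
    (univ.filter fun w => ∃ u, F.par w = some u ∧ (¬ A w ∨ (¬ A u ∧ ¬ H u))).card ≤
      (D1 + 2) * (univ.filter fun v => H v).card +
      2 * ∑ v ∈ univ.filter (fun v => D1 < ch F v ∧ ch F v ≤ D2), ch F v +
      ∑ v ∈ univ.filter (fun v => dep v % m = r), (1 + ch F v) := by
  set Hs : Finset V := univ.filter fun v => H v with hHs
  set Ms : Finset V := univ.filter (fun v => D1 < ch F v ∧ ch F v ≤ D2) with hMs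
  set Rs : Finset V := univ.filter (fun v => dep v % m = r) with hRs
  set Ps : Finset V := univ.filter (fun v => ∃ h, F.par h = some v ∧ H h) with hPs
  have hPcard : Ps.card ≤ Hs.card := by
    have h1 : Ps ⊆ Hs.image (fun h => (F.par h).getD h) := by
      intro v hv
      simp only [hPs, mem_filter, mem_univ, true_and] at hv
      obtain ⟨h, h1, h2⟩ := hv
      rw [mem_image]
      refine ⟨h, by simp [hHs, h2], ?_⟩
      simp [h1]
    exact (card_le_card h1).trans card_image_le
  have hMcard : Ms.card ≤ ∑ v ∈ Ms, ch F v := by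
    rw [card_eq_sum_ones]
    apply sum_le_sum
    intro v hv
    simp only [hMs, mem_filter, mem_univ, true_and] at hv
    omega
  have hsub : (univ.filter fun w => ∃ u, F.par w = some u ∧ (¬ A w ∨ (¬ A u ∧ ¬ H u))) ⊆
      (Hs ∪ Ms ∪ Rs ∪ Ps) ∪ (univ.filter fun w => ∃ u ∈ Ms ∪ Rs, F.par w = some u) ∪
        (univ.filter fun w => ∃ u ∈ Ps.filter (fun v => ch F v ≤ D1), F.par w = some u) := by
    intro w hw
    simp only [mem_filter, mem_univ, true_and] at hw
    obtain ⟨u, hu, h1 | ⟨h1, h2⟩⟩ := hw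
    · apply mem_union_left
      apply mem_union_left
      rw [hA] at h1
      simp only [hHs, hMs, hRs, hPs, mem_union, mem_filter, mem_univ, true_and]
      by_contra hcon
      push Not at hcon
      obtain ⟨⟨⟨h3, h4⟩, h5⟩, h6⟩ := hcon
      rw [hH] at h3
      apply h1
      refine ⟨?_, h5, fun h hh => h6 h hh⟩
      by_contra h7
      have := h4 (by omega)
      omega
    · rw [hA] at h1
      rw [hH] at h2
      by_cases h3 : ch F u ≤ D1
      · by_cases h4 : dep u % m = r
        · apply mem_union_left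
          apply mem_union_right
          simp only [mem_filter, mem_univ, true_and]
          exact ⟨u, by simp [hRs, h4], hu⟩
        · apply mem_union_right
          simp only [mem_filter, mem_univ, true_and]
          refine ⟨u, ?_, hu⟩
          simp only [hPs, mem_filter, mem_univ, true_and]
          refine ⟨?_, h3⟩
          by_contra h5
          push Not at h5
          exact h1 ⟨h3, h4, h5⟩
      · apply mem_union_left
        apply mem_union_right
        simp only [mem_filter, mem_univ, true_and]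
        refine ⟨u, ?_, hu⟩
        apply mem_union_left
        simp only [hMs, mem_filter, mem_univ, true_and]
        omega
  have h1 : (univ.filter fun w => ∃ u ∈ Ms ∪ Rs, F.par w = some u).card ≤
      ∑ v ∈ Ms, ch F v + ∑ v ∈ Rs, ch F v := by
    rw [← sum_ch_eq]
    have := sum_union_inter (s₁ := Ms) (s₂ := Rs) (f := fun v => ch F v)
    omega
  have h2 : (univ.filter fun w => ∃ u ∈ Ps.filter (fun v => ch F v ≤ D1),
      F.par w = some u).card ≤ D1 * Hs.card := by
    rw [← sum_ch_eq]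
    calc ∑ u ∈ Ps.filter (fun v => ch F v ≤ D1), ch F u
        ≤ ∑ _u ∈ Ps.filter (fun v => ch F v ≤ D1), D1 :=
          sum_le_sum fun u hu => (mem_filter.mp hu).2
      _ = (Ps.filter (fun v => ch F v ≤ D1)).card * D1 := by rw [sum_const, smul_eq_mul]
      _ ≤ Ps.card * D1 := Nat.mul_le_mul_right _ (card_filter_le _ _)
      _ ≤ Hs.card * D1 := Nat.mul_le_mul_right _ hPcard
      _ = D1 * Hs.card := mul_comm _ _
  have h3 : (Hs ∪ Ms ∪ Rs ∪ Ps).card ≤ Hs.card + Ms.card + Rs.card + Ps.card := by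
    have e1 := card_union_le (Hs ∪ Ms ∪ Rs) Ps
    have e2 := card_union_le (Hs ∪ Ms) Rs
    have e3 := card_union_le Hs Ms
    omega
  have h4 : ∑ v ∈ Rs, (1 + ch F v) = Rs.card + ∑ v ∈ Rs, ch F v := by
    rw [sum_add_distrib, sum_const, smul_eq_mul, mul_one]
  have h5 := card_le_card hsub
  have e1 := card_union_le ((Hs ∪ Ms ∪ Rs ∪ Ps) ∪
    (univ.filter fun w => ∃ u ∈ Ms ∪ Rs, F.par w = some u))
    (univ.filter fun w => ∃ u ∈ Ps.filter (fun v => ch F v ≤ D1), F.par w = some u)
  have e2 := card_union_le (Hs ∪ Ms ∪ Rs ∪ Ps)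
    (univ.filter fun w => ∃ u ∈ Ms ∪ Rs, F.par w = some u)
  rw [h4]
  have e3 : (D1 + 2) * Hs.card = D1 * Hs.card + 2 * Hs.card := by ring
  rw [e3]
  omega

theorem almost_proper (δ : ℝ) (hδ : 0 < δ) : ∃ k0 : ℕ, ∀ k : ℕ, k0 ≤ k →
    ∀ (V : Type) [Fintype V] (F : RF V) (f : V → Fin k),
    (∀ c, (univ.filter fun v => f v = c).card ≤ k) →
    ∃ g : V → Option (Fin k), Proper F g ∧
      ((univ.filter fun p : Fin k × Fin k => p.1 < p.2 ∧ Seen F (fun v => some (f v)) p.1 p.2 ∧
        ¬ Seen F g p.1 p.2).card : ℝ) ≤ δ * (k : ℝ) ^ 2 := by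
  set m : ℕ := ⌈16 / δ⌉₊ + 1 with hmdef
  have hm : 1 ≤ m := by omega
  have hmδ : 16 / δ ≤ (m : ℝ) := by
    rw [hmdef]
    push_cast
    have := Nat.le_ceil (16 / δ)
    linarith
  choose k0 hk0 using fun j : Fin m => core (Dsc m j) m (δ / 2) (by positivity)
  refine ⟨∑ j, k0 j, ?_⟩
  intro k hk V _ F f hf
  obtain ⟨dep, hdep⟩ := exists_dep F
  obtain ⟨j, hj, hscale⟩ := exists_scale F m hm
  obtain ⟨r, hr, hres⟩ := exists_residue F dep m hm
  obtain ⟨H, hH⟩ : ∃ H : V → Prop, ∀ v, H v ↔ Dsc m (j + 1) < ch F v := ⟨_, fun v => Iff.rfl⟩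
  obtain ⟨A, hA⟩ : ∃ A : V → Prop, ∀ v, A v ↔ ch F v ≤ Dsc m j ∧ dep v % m ≠ r ∧
    ∀ h, F.par h = some v → ¬ H h := ⟨_, fun v => Iff.rfl⟩
  set lev : V → ℕ := fun v => (dep v + (m - 1 - r)) % m with hlev
  have hDlt := Dsc_lt hm j
  have hkj : k0 ⟨j, hj⟩ ≤ k :=
    (single_le_sum (f := k0) (fun i _ => Nat.zero_le _) (mem_univ _)).trans hk
  have hlevA : ∀ v, A v → lev v + 1 < m := by
    intro v hv
    have h1 : lev v < m := Nat.mod_lt _ (by omega)
    by_contra hcon
    have h2 : lev v = m - 1 := by omega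
    apply ((hA v).mp hv).2.1
    have h3 : (dep v + (m - 1 - r)) % m = m - 1 := h2
    have h4 : (dep v + (m - 1 - r)) ≡ r + (m - 1 - r) [MOD m] := by
      rw [Nat.ModEq, h3, show r + (m - 1 - r) = m - 1 by omega, Nat.mod_eq_of_lt (by omega)]
    have h5 := Nat.ModEq.add_right_cancel' _ h4
    rw [Nat.ModEq, Nat.mod_eq_of_lt hr] at h5
    exact h5
  obtain ⟨g, hg, hcount⟩ := hk0 ⟨j, hj⟩ k hkj V F f H A lev
    (by
      intro v hv hh
      have h1 : ch F v ≤ Dsc m j := ((hA v).mp hv).1
      have h2 : Dsc m (j + 1) < ch F v := (hH v).mp hh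
      omega)
    (fun v hv => ((hA v).mp hv).1)
    (fun v u hv hu hau => ((hA u).mp hau).2.2 v hu hv)
    (fun v hv => by
      have := hlevA v hv
      omega)
    (by
      intro v u hv hu hvu
      have h1 := hlevA u hu
      have h2 : lev v = (dep u + (m - 1 - r) + 1) % m := by
        simp only [hlev]
        rw [hdep v u hvu]
        congr 1
        omega
      rw [h2, Nat.add_mod, show (dep u + (m - 1 - r)) % m = lev u from rfl]
      have h3 : 1 % m = 1 := Nat.mod_eq_of_lt (by omega)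
      rw [h3, Nat.mod_eq_of_lt h1])
    hf
  refine ⟨g, hg, ?_⟩
  -- untyped pairs
  set W : Finset V := univ.filter fun w => ∃ u, F.par w = some u ∧ (¬ A w ∨ (¬ A u ∧ ¬ H u))
    with hW
  set T1 : Finset (Fin k × Fin k) := univ.filter fun p : Fin k × Fin k => p.1 < p.2 ∧
        (∃ v u, F.par v = some u ∧ A v ∧ (A u ∨ H u) ∧
          ((f v = p.1 ∧ f u = p.2) ∨ (f v = p.2 ∧ f u = p.1))) ∧
        ¬ Seen F g p.1 p.2 with hT1
  set φ : V → Fin k × Fin k := fun w =>
    (min (f w) (f ((F.par w).getD w)), max (f w) (f ((F.par w).getD w))) with hφ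
  have hsub : (univ.filter fun p : Fin k × Fin k => p.1 < p.2 ∧
      Seen F (fun v => some (f v)) p.1 p.2 ∧ ¬ Seen F g p.1 p.2) ⊆ T1 ∪ W.image φ := by
    intro p hp
    simp only [mem_filter, mem_univ, true_and] at hp
    obtain ⟨h1, ⟨v, u, hvu, h2⟩, h3⟩ := hp
    by_cases hty : A v ∧ (A u ∨ H u)
    · apply mem_union_left
      simp only [hT1, mem_filter, mem_univ, true_and]
      refine ⟨h1, ⟨v, u, hvu, hty.1, hty.2, ?_⟩, h3⟩
      simpa using h2
    · apply mem_union_right
      rw [mem_image]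
      refine ⟨v, ?_, ?_⟩
      · simp only [hW, mem_filter, mem_univ, true_and]
        refine ⟨u, hvu, ?_⟩
        by_cases hv : A v
        · right
          rw [← not_or]
          exact fun h => hty ⟨hv, h⟩
        · left
          exact hv
      · simp only [hφ, hvu, Option.getD_some]
        rcases h2 with ⟨h4, h5⟩ | ⟨h4, h5⟩
        · rw [Option.some.inj h4, Option.some.inj h5, min_eq_left h1.le, max_eq_right h1.le]
        · rw [Option.some.inj h4, Option.some.inj h5, min_eq_right h1.le, max_eq_left h1.le]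
  have hWcard := untyped_card F dep m (Dsc m j) (Dsc m (j + 1)) r hDlt A H hH hA
  have hHcard : (Dsc m (j + 1)) * (univ.filter fun v => H v).card ≤ Fintype.card V := by
    refine le_trans ?_ (sum_ch_le F (univ.filter fun v => H v))
    rw [mul_comm, ← smul_eq_mul, ← sum_const]
    apply sum_le_sum
    intro v hv
    simp only [mem_filter, mem_univ, true_and] at hv
    exact ((hH v).mp hv).le
  have hV := card_le_classes f hf
  have hWm : m * W.card ≤ 5 * k ^ 2 := by
    have e1 : m * ((Dsc m j + 2) * (univ.filter fun v => H v).card) =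
        (Dsc m (j + 1)) * (univ.filter fun v => H v).card := by
      have hD2 : Dsc m (j + 1) = m * (Dsc m j + 2) := rfl
      rw [hD2]
      ring
    have hWcard' : W.card ≤ (Dsc m j + 2) * (univ.filter fun v => H v).card +
      2 * ∑ v ∈ univ.filter (fun v => Dsc m j < ch F v ∧ ch F v ≤ Dsc m (j + 1)), ch F v +
      ∑ v ∈ univ.filter (fun v => dep v % m = r), (1 + ch F v) := by
      convert hWcard
    have e2 : m * W.card ≤ m * ((Dsc m j + 2) * (univ.filter fun v => H v).card +
      2 * ∑ v ∈ univ.filter (fun v => Dsc m j < ch F v ∧ ch F v ≤ Dsc m (j + 1)), ch F v +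
      ∑ v ∈ univ.filter (fun v => dep v % m = r), (1 + ch F v)) := Nat.mul_le_mul_left _ hWcard'
    rw [mul_add, mul_add, e1] at e2
    have e3 : m * (2 * ∑ v ∈ univ.filter (fun v => Dsc m j < ch F v ∧
        ch F v ≤ Dsc m (j + 1)), ch F v) = 2 * (m * ∑ v ∈ univ.filter (fun v =>
        Dsc m j < ch F v ∧ ch F v ≤ Dsc m (j + 1)), ch F v) := by ring
    rw [e3] at e2
    omega
  have hWreal : (W.card : ℝ) ≤ δ / 2 * (k : ℝ) ^ 2 := by
    have h1 : (m : ℝ) * W.card ≤ 5 * (k : ℝ) ^ 2 := by exact_mod_cast hWm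
    have h2 : (16 / δ) * (W.card : ℝ) ≤ 5 * (k : ℝ) ^ 2 :=
      (mul_le_mul_of_nonneg_right hmδ (Nat.cast_nonneg _)).trans h1
    have h3 : 16 * (W.card : ℝ) ≤ 5 * (k : ℝ) ^ 2 * δ := by
      rw [div_mul_eq_mul_div, div_le_iff₀ hδ] at h2
      exact h2
    have h4 : 0 ≤ (k : ℝ) ^ 2 * δ := by positivity
    nlinarith
  have hfin : ((univ.filter fun p : Fin k × Fin k => p.1 < p.2 ∧
      Seen F (fun v => some (f v)) p.1 p.2 ∧ ¬ Seen F g p.1 p.2).card : ℝ) ≤
      (T1.card : ℝ) + (W.card : ℝ) := by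
    have h1 := card_le_card hsub
    have h2 := card_union_le T1 (W.image φ)
    have h3 : (W.image φ).card ≤ W.card := card_image_le
    exact_mod_cast (h1.trans (h2.trans (Nat.add_le_add_left h3 _)))
  have hT : (T1.card : ℝ) ≤ δ / 2 * (k : ℝ) ^ 2 := by
    convert hcount
  linarith

end Pool.Agent.PSY
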