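import Pool.Agent.PSY.Defs

open Finset

set_option autoImplicit false

namespace Pool.Agent.PSY

open scoped Classical

theorem blk_card {V : Type} [Fintype V] {k : ℕ} {ρ : ℝ} {K0 : ℕ} {F : RF V}
    {g : V → Option (Fin k)} {C Z : Finset (Fin k)} {P : Fin k → Finset V} {Sel : Finset V}
    (h : RData ρ K0 F g C Z P Sel) (hρ : 0 < ρ) (i : Fin k) (hi : i ∈ C) :
    (univ.filter fun j => Blk F g P i j).card ≤ 2 * K0 := by
  have hk : 0 < k := i.pos
  have hP : 0 < (P i).card := by
    have h1 := h.big i hi
    have h2 : (0 : ℝ) < ((P i).card : ℝ) := lt_of_lt_of_le (by positivity) h1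
    exact_mod_cast h2
  set B := univ.filter fun j => Blk F g P i j with hB
  have h1 : B.card * (P i).card ≤
      ∑ j ∈ B, 2 * ((P i).filter fun p => ∃ u, F.par u = some p ∧ g u = some j).card := by
    rw [← smul_eq_mul, ← Finset.sum_const]
    exact Finset.sum_le_sum fun j hj => (mem_filter.1 hj).2
  have h2 : ∑ j ∈ B, ((P i).filter fun p => ∃ u, F.par u = some p ∧ g u = some j).card ≤
      K0 * (P i).card := by
    calc ∑ j ∈ B, ((P i).filter fun p => ∃ u, F.par u = some p ∧ g u = some j).card
        ≤ ∑ j, ((P i).filter fun p => ∃ u, F.par u = some p ∧ g u = some j).card :=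
          Finset.sum_le_sum_of_subset (filter_subset _ _)
      _ = ∑ p ∈ P i, (univ.filter fun j => ∃ u, F.par u = some p ∧ g u = some j).card := by
          simp_rw [Finset.card_filter]
          exact Finset.sum_comm
      _ ≤ ∑ p ∈ P i, K0 := by
          refine Finset.sum_le_sum fun p hp => ?_
          refine le_trans ?_ (h.chs i hi p hp)
          have hsub : (univ.filter fun j => ∃ u, F.par u = some p ∧ g u = some j) ⊆
              (univ.filter fun v => F.par v = some p).image fun u => (g u).getD i := by
            intro j hj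
            obtain ⟨u, hu, hgu⟩ := (mem_filter.1 hj).2
            refine mem_image.2 ⟨u, mem_filter.2 ⟨mem_univ _, hu⟩, ?_⟩
            rw [hgu]
            rfl
          exact (Finset.card_le_card hsub).trans Finset.card_image_le
      _ = K0 * (P i).card := by rw [Finset.sum_const, smul_eq_mul, mul_comm]
  rw [← Finset.mul_sum] at h1
  have h3 : B.card * (P i).card ≤ (2 * K0) * (P i).card := by
    calc B.card * (P i).card ≤ 2 * (K0 * (P i).card) := h1.trans (Nat.mul_le_mul_left _ h2)
      _ = (2 * K0) * (P i).card := by ring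
  exact Nat.le_of_mul_le_mul_right h3 hP

end Pool.Agent.PSY
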