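import Pool.Agent.PSY.Defs

open Finset

set_option autoImplicit false

namespace Pool.Agent.PSY

open scoped Classical

theorem greedy_choice {ι α : Type} [Fintype ι] (O : ι → Finset α) (R : ι → α → ι → α → Prop)
    (hR : ∀ i a j b, R i a j b → R j b i a) (c : ι → ι → ℕ)
    (hc : ∀ i j b, i ≠ j → b ∈ O j → ((O i).filter fun a => R i a j b).card ≤ c i j)
    (hs : ∀ i, ∑ j ∈ univ.erase i, c i j < (O i).card) :
    ∃ π : ι → α, (∀ i, π i ∈ O i) ∧ ∀ i j, i ≠ j → ¬ R i (π i) j (π j) := by
  have hne : ∀ i, (O i).Nonempty := fun i =>
    Finset.card_pos.1 (lt_of_le_of_lt (Nat.zero_le _) (hs i))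
  choose π0 hπ0 using hne
  have key : ∀ S : Finset ι, ∃ π : ι → α, (∀ i, π i ∈ O i) ∧
      ∀ i ∈ S, ∀ j ∈ S, i ≠ j → ¬ R i (π i) j (π j) := by
    intro S
    induction S using Finset.induction_on with
    | empty => exact ⟨π0, hπ0, by simp⟩
    | insert i S hi ih =>
      obtain ⟨π, h1, h2⟩ := ih
      have hlt : (S.biUnion fun j => (O i).filter fun a => R i a j (π j)).card < (O i).card := by
        calc (S.biUnion fun j => (O i).filter fun a => R i a j (π j)).card
            ≤ ∑ j ∈ S, ((O i).filter fun a => R i a j (π j)).card := Finset.card_biUnion_le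
          _ ≤ ∑ j ∈ S, c i j := by
              refine Finset.sum_le_sum fun j hj => hc i j (π j) ?_ (h1 j)
              rintro rfl
              exact hi hj
          _ ≤ ∑ j ∈ univ.erase i, c i j := by
              refine Finset.sum_le_sum_of_subset fun j hj => ?_
              rw [Finset.mem_erase]
              refine ⟨?_, Finset.mem_univ _⟩
              rintro rfl
              exact hi hj
          _ < _ := hs i
      obtain ⟨a, ha, ha'⟩ := Finset.exists_mem_notMem_of_card_lt_card hlt
      have hno : ∀ j ∈ S, ¬ R i a j (π j) := by
        intro j hj hR'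
        exact ha' (Finset.mem_biUnion.2 ⟨j, hj, Finset.mem_filter.2 ⟨ha, hR'⟩⟩)
      refine ⟨Function.update π i a, ?_, ?_⟩
      · intro j
        by_cases hj : j = i
        · subst hj
          rw [Function.update_self]
          exact ha
        · rw [Function.update_of_ne hj]
          exact h1 j
      · intro j hj l hl hjl
        rcases Finset.mem_insert.1 hj with rfl | hj'
        · rcases Finset.mem_insert.1 hl with rfl | hl'
          · exact absurd rfl hjl
          · rw [Function.update_self, Function.update_of_ne (Ne.symm hjl)]
            exact hno l hl'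
        · rcases Finset.mem_insert.1 hl with rfl | hl'
          · rw [Function.update_self, Function.update_of_ne hjl]
            intro h
            exact hno j hj' (hR _ _ _ _ h)
          · have hji : j ≠ i := by rintro rfl; exact hi hj'
            have hli : l ≠ i := by rintro rfl; exact hi hl'
            rw [Function.update_of_ne hji, Function.update_of_ne hli]
            exact h2 j hj' l hl' hjl
  obtain ⟨π, h1, h2⟩ := key univ
  exact ⟨π, h1, fun i j hij => h2 i (Finset.mem_univ _) j (Finset.mem_univ _) hij⟩

theorem inj_choice {ι α : Type} [Nonempty α] (T : Finset ι) (O : ι → Finset α)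
    (h : ∀ i ∈ T, T.card ≤ (O i).card) :
    ∃ ω : ι → α, (∀ i ∈ T, ω i ∈ O i) ∧ ∀ i ∈ T, ∀ j ∈ T, ω i = ω j → i = j := by
  have key : ∀ S : Finset ι, S ⊆ T → ∃ ω : ι → α, (∀ i ∈ S, ω i ∈ O i) ∧
      ∀ i ∈ S, ∀ j ∈ S, ω i = ω j → i = j := by
    intro S
    induction S using Finset.induction_on with
    | empty => exact fun _ => ⟨fun _ => Classical.arbitrary α, by simp, by simp⟩
    | insert i S hi ih =>
      intro hsub
      obtain ⟨ω, h1, h2⟩ := ih ((Finset.subset_insert i S).trans hsub)
      have hiT : i ∈ T := hsub (Finset.mem_insert_self i S)
      have hlt : (S.image ω).card < (O i).card := by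
        calc (S.image ω).card ≤ S.card := Finset.card_image_le
          _ < (insert i S).card := by rw [Finset.card_insert_of_notMem hi]; exact Nat.lt_succ_self _
          _ ≤ T.card := Finset.card_le_card hsub
          _ ≤ _ := h i hiT
      obtain ⟨a, ha, ha'⟩ := Finset.exists_mem_notMem_of_card_lt_card hlt
      have hne : ∀ j ∈ S, ω j ≠ a := by
        intro j hj hja
        exact ha' (Finset.mem_image.2 ⟨j, hj, hja⟩)
      refine ⟨Function.update ω i a, ?_, ?_⟩
      · intro j hj
        rcases Finset.mem_insert.1 hj with rfl | hj'
        · rw [Function.update_self]; exact ha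
        · have hji : j ≠ i := by rintro rfl; exact hi hj'
          rw [Function.update_of_ne hji]; exact h1 j hj'
      · intro j hj l hl
        rcases Finset.mem_insert.1 hj with rfl | hj'
        · rcases Finset.mem_insert.1 hl with rfl | hl'
          · exact fun _ => rfl
          · have hli : l ≠ j := by rintro rfl; exact hi hl'
            rw [Function.update_self, Function.update_of_ne hli]
            exact fun h => absurd h.symm (hne l hl')
        · have hji : j ≠ i := by rintro rfl; exact hi hj'
          rcases Finset.mem_insert.1 hl with rfl | hl'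
          · rw [Function.update_self, Function.update_of_ne hji]
            exact fun h => absurd h (hne j hj')
          · have hli : l ≠ i := by rintro rfl; exact hi hl'
            rw [Function.update_of_ne hji, Function.update_of_ne hli]
            exact h2 j hj' l hl'
  exact key T (Finset.Subset.refl T)

end Pool.Agent.PSY
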