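import Pool.Agent.PSY.Rec

open Finset

set_option autoImplicit false

namespace Pool.Agent.PSY

open scoped Classical

/-- An index of every vertex among the children of its parent. -/
lemma exists_ix {V : Type} [Fintype V] (F : RF V) :
    ∃ ix : V → ℕ, (∀ v u, F.par v = some u → ix v < ch F u) ∧
      ∀ v w u, F.par v = some u → F.par w = some u → ix v = ix w → v = w := by
  have h : ∀ u : V, ∃ g : V → ℕ, (∀ v, F.par v = some u → g v < ch F u) ∧
      ∀ v w, F.par v = some u → F.par w = some u → g v = g w → v = w := by
    intro u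
    let S : Finset V := univ.filter fun v => F.par v = some u
    refine ⟨fun v => if h : v ∈ S then (S.equivFin ⟨v, h⟩).val else 0, ?_, ?_⟩
    · intro v hv
      have hS : v ∈ S := by simp [S, hv]
      simp only [dif_pos hS]
      exact (S.equivFin ⟨v, hS⟩).isLt
    · intro v w hv hw hvw
      have hS : v ∈ S := by simp [S, hv]
      have hS' : w ∈ S := by simp [S, hw]
      simp only [dif_pos hS, dif_pos hS'] at hvw
      have := S.equivFin.injective (Fin.ext hvw)
      exact congrArg Subtype.val this
  choose g hg1 hg2 using h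
  refine ⟨fun v => match F.par v with
    | some u => g u v
    | none => 0, ?_, ?_⟩
  · intro v u hv
    simp only [hv]
    exact hg1 u v hv
  · intro v w u hv hw hvw
    simp only [hv, hw] at hvw
    exact hg2 u v w hv hw hvw

theorem exists_codes {V : Type} [Fintype V] (F : RF V) (L : V → Prop) (D q : ℕ) (lev : V → ℕ)
    (hL : ∀ v, L v → ∃ u, F.par v = some u ∧ ch F u ≤ D ∧ lev v = lev u + 1) :
    ∃ (top : V → V) (code : V → ℕ), Codes F L D top code ∧
      ∀ v, lev v < q → code v < (D + 1) ^ q := by
  rcases isEmpty_or_nonempty V with hV | hV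
  · refine ⟨fun v => v, fun _ => 0, ⟨fun v => (hV.false v).elim, fun v => (hV.false v).elim,
      fun v => (hV.false v).elim, fun v => (hV.false v).elim, fun v => (hV.false v).elim⟩,
      fun v => (hV.false v).elim⟩
  obtain ⟨ix, hix1, hix2⟩ := exists_ix F
  obtain ⟨p, hp⟩ := exists_rec (β := V × ℕ) F
    (fun v p => if L v then
      (match F.par v with
        | some u => ((p u).1, (p u).2 * (D + 1) + ix v + 1)
        | none => (v, 0)) else (v, 0)) (by
    intro v p p' h
    by_cases hv : L v
    · obtain ⟨u, hu, _⟩ := hL v hv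
      simp only [hv, if_true, hu, h u (F.lt v u hu)]
    · simp only [hv, if_false])
  have hnl : ∀ v, ¬ L v → p v = (v, 0) := by
    intro v hv
    rw [hp v]
    simp [hv]
  have hli : ∀ v u, L v → F.par v = some u →
      p v = ((p u).1, (p u).2 * (D + 1) + ix v + 1) := by
    intro v u hv hu
    rw [hp v]
    simp [hv, hu]
  have hcode : ∀ v u, L v → F.par v = some u → (p u).2 = ((p v).2 - 1) / (D + 1) := by
    intro v u hv hu
    obtain ⟨u', hu', hch, _⟩ := hL v hv
    have huu : u' = u := by
      rw [hu] at hu'
      exact (Option.some.inj hu').symm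
    subst huu
    have h1 := hix1 v u' hu'
    rw [hli v u' hv hu']
    simp only [Nat.add_sub_cancel]
    have h2 : ix v < D + 1 := by omega
    rw [Nat.mul_comm, Nat.mul_add_div (Nat.succ_pos D), Nat.div_eq_of_lt h2, add_zero]
  have hinj : ∀ n v w, F.rk v = n → (p v).1 = (p w).1 → (p v).2 = (p w).2 → v = w := by
    intro n
    induction n using Nat.strong_induction_on with
    | _ n ih =>
      intro v w hn h1 h2
      by_cases hv : L v
      · obtain ⟨u, hu, hch, _⟩ := hL v hv
        have hv' := hli v u hv hu
        by_cases hw : L w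
        · obtain ⟨u', hu', hch', _⟩ := hL w hw
          have hw' := hli w u' hw hu'
          have h3 : (p u).2 = (p u').2 := by
            rw [hcode v u hv hu, hcode w u' hw hu', h2]
          have h4 : (p u).1 = (p u').1 := by
            rw [hv', hw'] at h1
            exact h1
          have h5 : u = u' := ih (F.rk u) (by rw [← hn]; exact F.lt v u hu) u u' rfl h4 h3
          subst h5
          rw [hv', hw'] at h2
          simp only at h2
          exact hix2 v w u hu hu' (by omega)
        · rw [hv', hnl w hw] at h2
          simp at h2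
      · by_cases hw : L w
        · obtain ⟨u', hu', hch', _⟩ := hL w hw
          rw [hli w u' hw hu', hnl v hv] at h2
          simp at h2
        · rw [hnl v hv, hnl w hw] at h1
          exact h1
  have hrk : ∀ n v, F.rk v = n → F.rk (p v).1 ≤ F.rk v ∧ ¬ L (p v).1 ∧
      (p v).2 < (D + 1) ^ (lev v + 1) := by
    intro n
    induction n using Nat.strong_induction_on with
    | _ n ih =>
      intro v hn
      by_cases hv : L v
      · obtain ⟨u, hu, hch, hlev⟩ := hL v hv
        have hv' := hli v u hv hu
        have hlt := F.lt v u hu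
        obtain ⟨h1, h2, h3⟩ := ih (F.rk u) (by omega) u rfl
        have h4 := hix1 v u hu
        rw [hv']
        refine ⟨by simp only; omega, h2, ?_⟩
        simp only
        rw [hlev, pow_succ (D + 1) (lev u + 1)]
        have h5 : ((p u).2 + 1) * (D + 1) ≤ (D + 1) ^ (lev u + 1) * (D + 1) :=
          Nat.mul_le_mul_right _ h3
        nlinarith
      · rw [hnl v hv]
        exact ⟨le_refl _, hv, by positivity⟩
  refine ⟨fun v => (p v).1, fun v => (p v).2, ⟨?_, ?_, ?_, ?_, ?_⟩, ?_⟩
  · intro v hv
    simp [hnl v hv]
  · intro v u hv hu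
    refine ⟨?_, ?_, hcode v u hv hu⟩
    · simp [hli v u hv hu]
    · simp [hli v u hv hu]
  · intro v w h1 h2
    exact hinj _ v w rfl h1 h2
  · intro v
    exact (hrk _ v rfl).1
  · intro v
    exact (hrk _ v rfl).2.1
  · intro v hv
    exact lt_of_lt_of_le (hrk _ v rfl).2.2 (Nat.pow_le_pow_right (Nat.succ_pos D) (by omega))

end Pool.Agent.PSY
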