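import Pool.Agent.PSY.Core3

open Finset

set_option autoImplicit false

namespace Pool.Agent.PSY

open scoped Classical

theorem core (D q : ℕ) (δ : ℝ) (hδ : 0 < δ) : ∃ k0 : ℕ, ∀ k : ℕ, k0 ≤ k →
    ∀ (V : Type) [Fintype V] (F : RF V) (f : V → Fin k) (H A : V → Prop) (lev : V → ℕ),
    (∀ v, A v → ¬ H v) →
    (∀ v, A v → ch F v ≤ D) →
    (∀ v u, H v → F.par v = some u → ¬ A u) →
    (∀ v, A v → lev v < q) →
    (∀ v u, A v → A u → F.par v = some u → lev v = lev u + 1) →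
    (∀ c, (univ.filter fun v => f v = c).card ≤ k) →
    ∃ g : V → Option (Fin k), Proper F g ∧
      ((univ.filter fun p : Fin k × Fin k => p.1 < p.2 ∧
        (∃ v u, F.par v = some u ∧ A v ∧ (A u ∨ H u) ∧
          ((f v = p.1 ∧ f u = p.2) ∨ (f v = p.2 ∧ f u = p.1))) ∧
        ¬ Seen F g p.1 p.2).card : ℝ) ≤ δ * (k : ℝ) ^ 2 := by
  set N : ℕ := (D + 1) ^ q with hN
  have hNpos : 0 < N := Nat.pow_pos (Nat.succ_pos D)
  set M : ℕ := 2 ^ N with hM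
  have hMpos : 0 < M := Nat.pow_pos (by norm_num)
  have hNR : (0 : ℝ) < N := by exact_mod_cast hNpos
  have hMR : (0 : ℝ) < M := by exact_mod_cast hMpos
  -- parameters
  obtain ⟨K1, hK1⟩ := exists_nat_gt (4 * (D : ℝ) / δ)
  have hK1pos : (0 : ℝ) < K1 := lt_of_le_of_lt (by positivity) hK1
  set δ' : ℝ := δ / (4 * N * M) with hδ'
  have hδ'pos : 0 < δ' := by positivity
  obtain ⟨B, hB⟩ := exists_nat_gt (1 / δ')
  set Q : ℕ := (B + 1) ^ M with hQ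
  obtain ⟨k0, hk0⟩ := exists_nat_gt (2 * ((N : ℝ) * (M * K1 + Q + M)) / δ)
  refine ⟨k0 + 1, ?_⟩
  intro k hk V _ F f H A lev h1 h2 h3 h4 h5 h6
  have hkpos : 0 < k := by omega
  have hkR : (0 : ℝ) < k := by exact_mod_cast hkpos
  set d : ℕ := ⌊δ' * k⌋₊ + 1 with hd
  have hd1 : δ' * k < d := by
    rw [hd]
    push_cast
    exact Nat.lt_floor_add_one _
  have hd2 : (d : ℝ) ≤ δ' * k + 1 := by
    rw [hd]
    push_cast
    have := Nat.floor_le (show 0 ≤ δ' * k by positivity)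
    linarith
  obtain ⟨g, hg1, vi, hvi, hg2⟩ := core_comb D q d (K1 * k) (Nat.succ_pos _) F f H A lev
    h1 h2 h3 h4 h5 h6
  refine ⟨g, hg1, ?_⟩
  have hkd : k / d + 1 ≤ B + 1 := by
    refine Nat.succ_le_succ ?_
    have e1 : ((k / d : ℕ) : ℝ) ≤ (k : ℝ) / d := Nat.cast_div_le
    have e2 : (k : ℝ) / d < 1 / δ' := by
      rw [div_lt_div_iff₀ (by exact_mod_cast Nat.succ_pos _) hδ'pos]
      linarith
    have e3 : ((k / d : ℕ) : ℝ) < B := lt_of_le_of_lt e1 (e2.trans hB)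
    exact (by exact_mod_cast e3.le)
  have hQ' : (k / d + 1) ^ M ≤ Q := Nat.pow_le_pow_left hkd M
  have hvi' : (vi : ℝ) * K1 ≤ (k : ℝ) ^ 2 := by
    have e1 : (vi : ℝ) * (K1 * k) ≤ (k : ℝ) ^ 2 * k := by exact_mod_cast hvi
    have e2 : ((vi : ℝ) * K1) * k ≤ (k : ℝ) ^ 2 * k := by linarith
    exact le_of_mul_le_mul_right e2 hkR
  have hDvi : (D : ℝ) * vi ≤ δ / 4 * (k : ℝ) ^ 2 := by
    have e1 : (D : ℝ) ≤ δ / 4 * K1 := by
      rw [div_lt_iff₀ hδ] at hK1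
      linarith
    have e2 : (D : ℝ) * vi ≤ δ / 4 * K1 * vi :=
      mul_le_mul_of_nonneg_right e1 (Nat.cast_nonneg _)
    have e3 : δ / 4 * ((vi : ℝ) * K1) ≤ δ / 4 * (k : ℝ) ^ 2 :=
      mul_le_mul_of_nonneg_left hvi' (by positivity)
    nlinarith
  have hmain : (((D + 1) ^ q * (2 ^ ((D + 1) ^ q) * (K1 * k) +
      ((k / d + 1) ^ (2 ^ ((D + 1) ^ q)) * k +
        k * (2 ^ ((D + 1) ^ q) * d))) + D * vi : ℕ) : ℝ) ≤ δ * (k : ℝ) ^ 2 := by
    have e0 : ((D + 1) ^ q * (2 ^ ((D + 1) ^ q) * (K1 * k) +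
      ((k / d + 1) ^ (2 ^ ((D + 1) ^ q)) * k +
        k * (2 ^ ((D + 1) ^ q) * d))) + D * vi : ℕ) ≤
        N * (M * (K1 * k) + (Q * k + k * (M * d))) + D * vi := by
      refine Nat.add_le_add_right (Nat.mul_le_mul_left _ (Nat.add_le_add_left
        (Nat.add_le_add_right (Nat.mul_le_mul_right _ hQ') _) _)) _
    have e1 : (((D + 1) ^ q * (2 ^ ((D + 1) ^ q) * (K1 * k) +
      ((k / d + 1) ^ (2 ^ ((D + 1) ^ q)) * k +
        k * (2 ^ ((D + 1) ^ q) * d))) + D * vi : ℕ) : ℝ) ≤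
        ((N * (M * (K1 * k) + (Q * k + k * (M * d))) + D * vi : ℕ) : ℝ) := by
      exact_mod_cast e0
    refine e1.trans ?_
    push_cast
    have e2 : (N : ℝ) * (k * (M * d)) ≤ δ / 4 * (k : ℝ) ^ 2 + N * M * k := by
      have e3 : (N : ℝ) * (k * (M * d)) ≤ N * (k * (M * (δ' * k + 1))) := by gcongr
      have e4 : (N : ℝ) * (k * (M * (δ' * k + 1))) = N * M * δ' * (k : ℝ) ^ 2 + N * M * k := by
        ring
      have e5 : (N : ℝ) * M * δ' = δ / 4 := by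
        rw [hδ']
        field_simp
      rw [e4, e5] at e3
      exact e3
    have e6 : (N : ℝ) * (M * K1 + Q + M) * k ≤ δ / 2 * (k : ℝ) ^ 2 := by
      have e7 : 2 * ((N : ℝ) * (M * K1 + Q + M)) / δ < k :=
        hk0.trans_le (by exact_mod_cast (by omega : k0 ≤ k))
      rw [div_lt_iff₀ hδ] at e7
      have e8 : 2 * ((N : ℝ) * (M * K1 + Q + M)) * k ≤ k * δ * k :=
        mul_le_mul_of_nonneg_right e7.le hkR.le
      nlinarith
    nlinarith
  refine le_trans ?_ hmain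
  exact_mod_cast hg2

end Pool.Agent.PSY
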