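import Pool.Agent.PSY.Defs

/-!
# The transplanted colouring
-/

open Finset

set_option autoImplicit false

namespace Pool.Agent.PSY

open scoped Classical

variable {V : Type} {k : ℕ}

/-- The colours before the violating tops are uncoloured. -/
noncomputable def g1 (f : V → Fin k) (H A : V → Prop) (γ : V → Option (Fin k))
    (src : V → Option V) (v : V) : Option (Fin k) :=
  if H v then γ v else if A v then (src v).map f else none

/-- The violating tops. -/
def Viol (F : RF V) (f : V → Fin k) (H A L At : V → Prop) (γ : V → Option (Fin k))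
    (src : V → Option V) (v : V) : Prop :=
  A v ∧ ¬ L v ∧ ¬ At v ∧ ∃ u c, F.par v = some u ∧ g1 f H A γ src u = some c ∧
    g1 f H A γ src v = some c

/-- The final colouring. -/
noncomputable def g2 (F : RF V) (f : V → Fin k) (H A L At : V → Prop) (γ : V → Option (Fin k))
    (src : V → Option V) (v : V) : Option (Fin k) :=
  if Viol F f H A L At γ src v then none else g1 f H A γ src v

lemma g1_H {f : V → Fin k} {H A : V → Prop} {γ : V → Option (Fin k)} {src : V → Option V} {v : V}
    (hv : H v) : g1 f H A γ src v = γ v := by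
  unfold g1
  rw [if_pos hv]

lemma g1_A {f : V → Fin k} {H A : V → Prop} {γ : V → Option (Fin k)} {src : V → Option V} {v : V}
    (hv : ¬ H v) (hA : A v) : g1 f H A γ src v = (src v).map f := by
  unfold g1
  rw [if_neg hv, if_pos hA]

lemma g1_some {f : V → Fin k} {H A : V → Prop} {γ : V → Option (Fin k)} {src : V → Option V}
    {v : V} {a : Fin k} (h : g1 f H A γ src v = some a) (hv : ¬ H v) :
    A v ∧ ∃ v', src v = some v' ∧ f v' = a := by
  unfold g1 at h
  rw [if_neg hv] at h
  by_cases hA : A v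
  · rw [if_pos hA] at h
    refine ⟨hA, ?_⟩
    rcases hs : src v with _ | v'
    · rw [hs] at h
      simp at h
    · rw [hs] at h
      refine ⟨v', rfl, ?_⟩
      simpa using h
  · rw [if_neg hA] at h
    simp at h

theorem proper_g2 (F : RF V) (f : V → Fin k) (H A L At : V → Prop) (γ : V → Option (Fin k))
    (src : V → Option V)
    (hH : ∀ v u, H v → F.par v = some u → ¬ A u)
    (hAH : ∀ v, A v → ¬ H v)
    (hL : ∀ v, L v ↔ A v ∧ ∃ u, F.par v = some u ∧ A u ∧ f v ≠ f u)
    (hub : ∀ v u a, H v → H u → F.par v = some u → γ v = some a → γ u ≠ some a)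
    (hc : ∀ v u v' u', L v → F.par v = some u → src v = some v' → src u = some u' →
      L v' ∧ F.par v' = some u')
    (hAt : ∀ v, At v → ∃ u, F.par v = some u ∧ H u ∧
      ∀ a v', γ u = some a → src v = some v' → f v' ≠ a) :
    Proper F (g2 F f H A L At γ src) := by
  intro v u a hpar hv hu
  unfold g2 at hv hu
  by_cases hvv : Viol F f H A L At γ src v
  · rw [if_pos hvv] at hv
    simp at hv
  rw [if_neg hvv] at hv
  by_cases hvu : Viol F f H A L At γ src u
  · rw [if_pos hvu] at hu
    simp at hu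
  rw [if_neg hvu] at hu
  by_cases h1 : H v
  · have h2 := hH v u h1 hpar
    have h3 : H u := by
      by_contra h3
      exact h2 (g1_some hu h3).1
    rw [g1_H h1] at hv
    rw [g1_H h3] at hu
    exact hub v u a h1 h3 hpar hv hu
  · obtain ⟨hA, v', hv', hfv'⟩ := g1_some hv h1
    by_cases hLv : L v
    · obtain ⟨_, u0, hu0, hAu0, hne⟩ := (hL v).1 hLv
      have hu0' : u0 = u := Option.some.inj (hu0.symm.trans hpar)
      subst hu0'
      obtain ⟨_, u', hu', hfu'⟩ := g1_some hu (hAH _ hAu0)
      obtain ⟨h5, h6⟩ := hc v u0 v' u' hLv hpar hv' hu'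
      obtain ⟨_, u2, hu2, _, hne2⟩ := (hL v').1 h5
      have h7 : u2 = u' := Option.some.inj (hu2.symm.trans h6)
      subst h7
      exact hne2 (hfv'.trans hfu'.symm)
    · by_cases hAv : At v
      · obtain ⟨u0, hu0, hHu, hne⟩ := hAt v hAv
        have hu0' : u0 = u := Option.some.inj (hu0.symm.trans hpar)
        subst hu0'
        rw [g1_H hHu] at hu
        exact hne a v' hu hv' hfv'
      · exact hvv ⟨hA, hLv, hAv, u, a, hpar, hu, hv⟩

theorem lost_cases (F : RF V) (f : V → Fin k) (H A L At : V → Prop) (γ : V → Option (Fin k))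
    (src τ : V → Option V) (D : ℕ) (top : V → V) (code : V → ℕ)
    (hcod : Codes F L D top code)
    (hAH : ∀ v, A v → ¬ H v)
    (hL : ∀ v, L v ↔ A v ∧ ∃ u, F.par v = some u ∧ A u ∧ f v ≠ f u)
    (hb : ∀ v t', τ (top v) = some t' → ∃ v', src v = some v' ∧ top v' = t' ∧ code v' = code v)
    (hc : ∀ v u v' u', L v → F.par v = some u → src v = some v' → src u = some u' →
      L v' ∧ F.par v' = some u')
    (hd : ∀ t w, top t = t → τ t = some (top w) →
        ∃ v, top v = t ∧ code v = code w ∧ src v = some w)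
    (hAtA : ∀ v, At v → A v)
    (hAt2 : ∀ w u t, At w → F.par w = some u → top t = t → τ t = some w →
      At t ∧ ∃ h', F.par t = some h' ∧ H h' ∧ γ h' = some (f u))
    (w u : V) (hpar : F.par w = some u) (hAw : A w) (hne : f w ≠ f u) (hwL : ¬ L w → At w) :
    Seen F (g2 F f H A L At γ src) (f w) (f u) ∨ (∀ t, top t = t → τ t ≠ some (top w)) ∨
      (L w ∧ F.par w = some (top w) ∧
        ∃ t, Viol F f H A L At γ src t ∧ τ t = some (top w)) := by
  by_cases hex : ∀ t, top t = t → τ t ≠ some (top w)
  · exact Or.inr (Or.inl hex)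
  push Not at hex
  obtain ⟨t, htt, ht⟩ := hex
  by_cases hLw : L w
  · obtain ⟨v, hv1, hv2, hv3⟩ := hd t w htt ht
    have hcw : code w ≠ 0 := (hcod.li w u hLw hpar).2.1
    have hLv : L v := by
      by_contra hLv
      exact hcw (by rw [← hv2]; exact (hcod.nl v hLv).2)
    obtain ⟨hAv, x, hx, hAx, hvx⟩ := (hL v).1 hLv
    have htx : top v = top x := (hcod.li v x hLv hx).1
    have hτx : τ (top x) = some (top w) := by rw [← htx, hv1]; exact ht
    obtain ⟨u', hu'1, hu'2, hu'3⟩ := hb x (top w) hτx
    obtain ⟨_, hpw⟩ := hc v x w u' hLv hx hv3 hu'1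
    have huu : u' = u := Option.some.inj (hpw.symm.trans hpar)
    subst huu
    have e1 : g1 f H A γ src v = some (f w) := by
      rw [g1_A (hAH v hAv) hAv, hv3]
      rfl
    have e2 : g1 f H A γ src x = some (f u') := by
      rw [g1_A (hAH x hAx) hAx, hu'1]
      rfl
    have nv : ¬ Viol F f H A L At γ src v := fun h => h.2.1 hLv
    by_cases nx : Viol F f H A L At γ src x
    · right; right
      have hxL : ¬ L x := nx.2.1
      have hxt : x = t := by rw [← (hcod.nl x hxL).1, ← htx, hv1]
      subst hxt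
      have hu'0 : code u' = 0 := by rw [hu'3]; exact (hcod.nl x hxL).2
      have htn := hcod.nl (top w) (hcod.topnl w)
      have hu't : u' = top w := hcod.inj u' (top w) (by rw [hu'2, htn.1]) (by rw [hu'0, htn.2])
      exact ⟨hLw, by rw [hpar, ← hu't], x, nx, ht⟩
    · left
      refine ⟨v, x, hx, Or.inl ⟨?_, ?_⟩⟩
      · unfold g2
        rw [if_neg nv, e1]
      · unfold g2
        rw [if_neg nx, e2]
  · have hAtw := hwL hLw
    have htw := (hcod.nl w hLw)
    rw [htw.1] at ht
    obtain ⟨hAtt, h', hh1, hh2, hh3⟩ := hAt2 w u t hAtw hpar htt ht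
    left
    refine ⟨t, h', hh1, Or.inl ⟨?_, ?_⟩⟩
    · unfold g2
      rw [if_neg (fun h => h.2.2.1 hAtt)]
      have hAt := hAtA t hAtt
      obtain ⟨v', hv1, hv2, hv3⟩ := hb t w (by rw [htt]; exact ht)
      have htL : ¬ L t := by
        have := hcod.topnl t
        rwa [htt] at this
      have hv'w : v' = w := hcod.inj v' w (by rw [hv2, htw.1])
        (by rw [hv3, htw.2, (hcod.nl t htL).2])
      subst hv'w
      rw [g1_A (hAH t hAt) hAt, hv1]
      rfl
    · unfold g2
      rw [if_neg (fun h => hAH h' h.1 hh2), g1_H hh2, hh3]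

end Pool.Agent.PSY
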