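import Pool.Agent.PSY.Core1

/-!
# Counting the lost pairs
-/

open Finset

set_option autoImplicit false

namespace Pool.Agent.PSY

open scoped Classical

variable {V : Type} [Fintype V] {k : ℕ}

theorem lost_card (F : RF V) (f : V → Fin k) (H A L At Sel : V → Prop) (γ : V → Option (Fin k))
    (src τ : V → Option V) (D N : ℕ) (top : V → V) (code : V → ℕ)
    (hcod : Codes F L D top code)
    (hAH : ∀ v, A v → ¬ H v)
    (hL : ∀ v, L v ↔ A v ∧ ∃ u, F.par v = some u ∧ A u ∧ f v ≠ f u)
    (hb : ∀ v t', τ (top v) = some t' → ∃ v', src v = some v' ∧ top v' = t' ∧ code v' = code v)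
    (hc : ∀ v u v' u', L v → F.par v = some u → src v = some v' → src u = some u' →
      L v' ∧ F.par v' = some u')
    (hd : ∀ t w, top t = t → τ t = some (top w) →
        ∃ v, top v = t ∧ code v = code w ∧ src v = some w)
    (hAtA : ∀ v, At v → A v)
    (hAt2 : ∀ w u t, At w → F.par w = some u → top t = t → τ t = some w →
      At t ∧ ∃ h', F.par t = some h' ∧ H h' ∧ γ h' = some (f u))
    (hN : ∀ v, code v < N)
    (hD : ∀ v, A v → ch F v ≤ D)
    (hAtop : ∀ v, A v → A (top v))
    (hsel : ∀ i j : Fin k, i < j →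
      (∃ v u, F.par v = some u ∧ A v ∧ (A u ∨ H u) ∧
          ((f v = i ∧ f u = j) ∨ (f v = j ∧ f u = i))) →
      ∃ v u, Sel v ∧ F.par v = some u ∧ A v ∧ (A u ∨ H u) ∧
          ((f v = i ∧ f u = j) ∨ (f v = j ∧ f u = i)))
    (hSelAt : ∀ w u, Sel w → A w → F.par w = some u → H u → f w ≠ f u → At w) :
    (univ.filter fun p : Fin k × Fin k => p.1 < p.2 ∧
        (∃ v u, F.par v = some u ∧ A v ∧ (A u ∨ H u) ∧
          ((f v = p.1 ∧ f u = p.2) ∨ (f v = p.2 ∧ f u = p.1))) ∧
        ¬ Seen F (g2 F f H A L At γ src) p.1 p.2).card ≤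
      N * (univ.filter fun t => A t ∧ ¬ L t ∧ ∀ t0, top t0 = t0 → τ t0 ≠ some t).card +
        D * (univ.filter fun t => Viol F f H A L At γ src t).card := by
  set X := (univ.filter fun p : Fin k × Fin k => p.1 < p.2 ∧
        (∃ v u, F.par v = some u ∧ A v ∧ (A u ∨ H u) ∧
          ((f v = p.1 ∧ f u = p.2) ∨ (f v = p.2 ∧ f u = p.1))) ∧
        ¬ Seen F (g2 F f H A L At γ src) p.1 p.2) with hX
  set W1 : Finset V := univ.filter fun w => A w ∧ ∀ t, top t = t → τ t ≠ some (top w) with hW1
  set W2 : Finset V := univ.filter fun w => L w ∧ F.par w = some (top w) ∧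
        ∃ t, Viol F f H A L At γ src t ∧ τ t = some (top w) with hW2
  -- choose the representatives
  have hch : ∀ p : Fin k × Fin k, p ∈ X → ∃ w u, F.par w = some u ∧
      ((f w = p.1 ∧ f u = p.2) ∨ (f w = p.2 ∧ f u = p.1)) ∧ w ∈ W1 ∪ W2 := by
    intro p hp
    rw [hX, mem_filter] at hp
    obtain ⟨_, hlt, hty, hns⟩ := hp
    obtain ⟨w, u, hS, hpar, hAw, hAH', hcol⟩ := hsel p.1 p.2 hlt hty
    refine ⟨w, u, hpar, hcol, ?_⟩
    have hne : f w ≠ f u := by
      rcases hcol with ⟨h1, h2⟩ | ⟨h1, h2⟩
      · rw [h1, h2]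
        exact hlt.ne
      · rw [h1, h2]
        exact hlt.ne'
    have hwL : ¬ L w → At w := by
      intro hLw
      rcases hAH' with hAu | hHu
      · exact absurd ((hL w).2 ⟨hAw, u, hpar, hAu, hne⟩) hLw
      · exact hSelAt w u hS hAw hpar hHu hne
    rcases lost_cases F f H A L At γ src τ D top code hcod hAH hL hb hc hd hAtA hAt2 w u hpar
      hAw hne hwL with h | h | h
    · exfalso
      apply hns
      rcases hcol with ⟨h1, h2⟩ | ⟨h1, h2⟩
      · rw [← h1, ← h2]
        exact h
      · rw [← h1, ← h2]
        exact h.symm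
    · rw [mem_union]
      left
      rw [hW1, mem_filter]
      exact ⟨mem_univ _, hAw, h⟩
    · rw [mem_union]
      right
      rw [hW2, mem_filter]
      exact ⟨mem_univ _, h⟩
  have hX1 : X.card ≤ (W1 ∪ W2).card := by
    choose ω ω' h1 h2 h3 using hch
    rw [← card_attach]
    refine card_le_card_of_injOn (fun p => ω p.1 p.2) ?_ ?_
    · intro p _
      exact h3 p.1 p.2
    · rintro ⟨p, hp⟩ _ ⟨q, hq⟩ _ hpq
      have hpq' : ω p hp = ω q hq := hpq
      have e1 := h1 p hp
      have e2 := h2 p hp
      have e3 := h1 q hq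
      have e4 := h2 q hq
      rw [hpq'] at e1 e2
      have hu : ω' p hp = ω' q hq := Option.some.inj (e1.symm.trans e3)
      rw [hu] at e2
      have hp1 := ((mem_filter.1 (hX ▸ hp)).2).1
      have hq1 := ((mem_filter.1 (hX ▸ hq)).2).1
      refine Subtype.ext ?_
      rcases e2 with ⟨a1, a2⟩ | ⟨a1, a2⟩ <;> rcases e4 with ⟨b1, b2⟩ | ⟨b1, b2⟩
      · exact Prod.ext (a1.symm.trans b1) (a2.symm.trans b2)
      · rw [← a1, ← a2] at hp1
        rw [← b1, ← b2] at hq1
        exact absurd (hp1.trans hq1) (lt_irrefl _)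
      · rw [← a1, ← a2] at hp1
        rw [← b1, ← b2] at hq1
        exact absurd (hp1.trans hq1) (lt_irrefl _)
      · exact Prod.ext (a2.symm.trans b2) (a1.symm.trans b1)
  have hW1c : W1.card ≤ N * (univ.filter fun t => A t ∧ ¬ L t ∧
      ∀ t0, top t0 = t0 → τ t0 ≠ some t).card := by
    refine card_le_mul_card_image_of_maps_to (f := top) ?_ N ?_
    · intro w hw
      rw [hW1, mem_filter] at hw
      rw [mem_filter]
      exact ⟨mem_univ _, hAtop w hw.2.1, hcod.topnl w, hw.2.2⟩
    · intro b _
      have h1 : ((W1.filter fun a => top a = b).image code) ⊆ range N := by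
        intro c hc'
        rw [mem_image] at hc'
        obtain ⟨a, _, rfl⟩ := hc'
        exact mem_range.2 (hN a)
      have h2 : ((W1.filter fun a => top a = b).image code).card =
          (W1.filter fun a => top a = b).card := by
        refine card_image_of_injOn ?_
        intro a ha a' ha' haa
        have ha := (mem_filter.1 (mem_coe.1 ha)).2
        have ha' := (mem_filter.1 (mem_coe.1 ha')).2
        exact hcod.inj a a' (ha.trans ha'.symm) haa
      rw [← h2]
      exact (card_le_card h1).trans (by rw [card_range])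
  have hW2c : W2.card ≤ D * (univ.filter fun t => Viol F f H A L At γ src t).card := by
    set S : V → Finset V := fun t => univ.filter fun w => ∃ t', τ t = some t' ∧ A t' ∧
      F.par w = some t' with hS
    have h1 : W2 ⊆ (univ.filter fun t => Viol F f H A L At γ src t).biUnion S := by
      intro w hw
      rw [hW2, mem_filter] at hw
      obtain ⟨_, hLw, hpw, t, htv, hτt⟩ := hw
      rw [mem_biUnion]
      refine ⟨t, mem_filter.2 ⟨mem_univ _, htv⟩, ?_⟩
      rw [hS, mem_filter]
      exact ⟨mem_univ _, top w, hτt, hAtop w ((hL w).1 hLw).1, hpw⟩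
    have h2 : ∀ t ∈ (univ.filter fun t => Viol F f H A L At γ src t), (S t).card ≤ D := by
      intro t _
      rcases hτ : τ t with _ | t'
      · have : S t = ∅ := by
          rw [hS]
          refine filter_eq_empty_iff.2 ?_
          rintro w _ ⟨t', ht', _⟩
          rw [hτ] at ht'
          simp at ht'
        rw [this, card_empty]
        exact Nat.zero_le _
      · by_cases hA : A t'
        · have : S t ⊆ univ.filter fun w => F.par w = some t' := by
            intro w hw
            rw [hS, mem_filter] at hw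
            obtain ⟨_, t'', h3, _, h4⟩ := hw
            rw [hτ] at h3
            obtain rfl := Option.some.inj h3
            exact mem_filter.2 ⟨mem_univ _, h4⟩
          exact (card_le_card this).trans (hD t' hA)
        · have : S t = ∅ := by
            rw [hS]
            refine filter_eq_empty_iff.2 ?_
            rintro w _ ⟨t'', h3, h4, _⟩
            rw [hτ] at h3
            obtain rfl := Option.some.inj h3
            exact hA h4
          rw [this, card_empty]
          exact Nat.zero_le _
    have h3 := card_biUnion_le_card_mul _ S D h2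
    have h4 := card_le_card h1
    rw [mul_comm]
    exact h4.trans h3
  exact hX1.trans ((card_union_le _ _).trans (Nat.add_le_add hW1c hW2c))

end Pool.Agent.PSY
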