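import Pool.Agent.PSY.Defs

open Finset

set_option autoImplicit false

namespace Pool.Agent.PSY

open scoped Classical

theorem exists_rec {V β : Type} [Nonempty β] (F : RF V) (Φ : V → (V → β) → β)
    (hΦ : ∀ v p p', (∀ u, F.rk u < F.rk v → p u = p' u) → Φ v p = Φ v p') :
    ∃ p : V → β, ∀ v, p v = Φ v p := by
  obtain ⟨b0⟩ := ‹Nonempty β›
  let P : ℕ → V → β := fun n => Nat.rec (fun _ => b0) (fun _ f v => Φ v f) n
  have hP : ∀ n v, P (n + 1) v = Φ v (P n) := fun n v => rfl
  have stab : ∀ n v, F.rk v < n → P (n + 1) v = P n v := by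
    intro n
    induction n with
    | zero => intro v hv; omega
    | succ n ih =>
      intro v hv
      rw [hP (n + 1) v, hP n v]
      apply hΦ
      intro u hu
      exact ih u (by omega)
  have stab2 : ∀ m n v, F.rk v < n → P (n + m) v = P n v := by
    intro m
    induction m with
    | zero => intro n v _; rfl
    | succ m ih =>
      intro n v hv
      have := stab (n + m) v (by omega)
      rw [← ih n v hv, ← this]
      rfl
  refine ⟨fun v => P (F.rk v + 1) v, fun v => ?_⟩
  show P (F.rk v + 1) v = _
  rw [hP]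
  apply hΦ
  intro u hu
  have := stab2 (F.rk v - (F.rk u + 1)) (F.rk u + 1) u (by omega)
  rw [← this]
  congr 1
  omega

end Pool.Agent.PSY
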