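import Pool.Agent.PSY.Defs

open Finset

set_option autoImplicit false

namespace Pool.Agent.PSY

open scoped Classical

theorem exists_kappa {k : ℕ} {β : Type} [Fintype β] (vec : Fin k → β) :
    ∃ κ : Fin k → Option (Fin k), (∀ i j, κ i = some j → i ≠ j ∧ vec i = vec j) ∧
      (∀ i i' j, κ i = some j → κ i' = some j → i = i') ∧
      (univ.filter fun i => κ i = none).card ≤ Fintype.card β ∧
      (univ.filter fun j => ∀ i, κ i ≠ some j).card ≤ Fintype.card β := by
  set Nx : Fin k → Finset (Fin k) := fun i => univ.filter fun j => i < j ∧ vec i = vec j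
    with hNx
  have memNx : ∀ i j, j ∈ Nx i ↔ i < j ∧ vec i = vec j := by
    intro i j
    simp [hNx]
  set κ : Fin k → Option (Fin k) := fun i =>
    if h : (Nx i).Nonempty then some ((Nx i).min' h) else none with hκ
  have hsome : ∀ i j, κ i = some j → i < j ∧ vec i = vec j ∧ ∀ j' ∈ Nx i, j ≤ j' := by
    intro i j h
    simp only [hκ] at h
    split_ifs at h with h1
    rw [Option.some.injEq] at h
    have h2 := (memNx _ _).1 ((Nx i).min'_mem h1)
    rw [h] at h2
    refine ⟨h2.1, h2.2, fun j' hj' => ?_⟩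
    rw [← h]
    exact (Nx i).min'_le j' hj'
  have hinj : ∀ i i' j, κ i = some j → κ i' = some j → ¬ i < i' := by
    intro i i' j h h' hlt
    have h1 := hsome i j h
    have h2 := hsome i' j h'
    have h3 := h1.2.2 i' ((memNx _ _).2 ⟨hlt, h1.2.1.trans h2.2.1.symm⟩)
    exact absurd h2.1 (not_lt.2 h3)
  refine ⟨κ, fun i j h => ⟨(hsome i j h).1.ne, (hsome i j h).2.1⟩, fun i i' j h h' => ?_, ?_, ?_⟩
  · rcases lt_trichotomy i i' with h1 | h1 | h1
    · exact absurd h1 (hinj i i' j h h')
    · exact h1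
    · exact absurd h1 (hinj i' i j h' h)
  · refine card_le_card_of_injOn vec (fun _ _ => mem_univ _) ?_
    have key : ∀ i i', κ i = none → i < i' → vec i ≠ vec i' := by
      intro i i' h hlt hv
      have h1 : (Nx i).Nonempty := ⟨i', (memNx _ _).2 ⟨hlt, hv⟩⟩
      simp only [hκ] at h
      rw [dif_pos h1] at h
      cases h
    intro i hi i' hi' hv
    have hi1 := (mem_filter.1 (mem_coe.1 hi)).2
    have hi2 := (mem_filter.1 (mem_coe.1 hi')).2
    rcases lt_trichotomy i i' with h1 | h1 | h1
    · exact absurd hv (key i i' hi1 h1)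
    · exact h1
    · exact absurd hv.symm (key i' i hi2 h1)
  · refine card_le_card_of_injOn vec (fun _ _ => mem_univ _) ?_
    -- a vertex with a smaller element in its fibre is hit
    have key : ∀ j j', (∀ i, κ i ≠ some j') → j < j' → vec j ≠ vec j' := by
      intro j j' h hlt hv
      set B : Finset (Fin k) := univ.filter fun i => i < j' ∧ vec i = vec j' with hB
      have hBn : B.Nonempty := ⟨j, by simp [hB, hlt, hv]⟩
      set i := B.max' hBn with hi
      have hiB : i < j' ∧ vec i = vec j' := by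
        have := B.max'_mem hBn
        rw [← hi, hB, mem_filter] at this
        exact this.2
      have h1 : (Nx i).Nonempty := ⟨j', (memNx _ _).2 hiB⟩
      apply h i
      simp only [hκ]
      rw [dif_pos h1]
      congr 1
      apply le_antisymm
      · exact (Nx i).min'_le j' ((memNx _ _).2 hiB)
      · by_contra hcon
        rw [not_le] at hcon
        have h2 := (memNx _ _).1 ((Nx i).min'_mem h1)
        have h3 : (Nx i).min' h1 ∈ B := by
          rw [hB, mem_filter]
          exact ⟨mem_univ _, hcon, h2.2.symm.trans hiB.2⟩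
        have h4 := B.le_max' _ h3
        rw [← hi] at h4
        exact absurd h2.1 (not_lt.2 h4)
    intro i hi i' hi' hv
    have hi1 := (mem_filter.1 (mem_coe.1 hi)).2
    have hi2 := (mem_filter.1 (mem_coe.1 hi')).2
    rcases lt_trichotomy i i' with h1 | h1 | h1
    · exact absurd hv (key i i' hi2 h1)
    · exact h1
    · exact absurd hv.symm (key i' i hi1 h1)

theorem exists_matching {α : Type} (S T : Finset α) :
    ∃ φ : α → Option α, (∀ x y, φ x = some y → x ∈ S ∧ y ∈ T) ∧
      (T.filter fun y => ∀ x, φ x ≠ some y).card ≤ T.card - S.card := by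
  obtain ⟨S', hS', hSc⟩ := exists_subset_card_eq (s := S) (n := min S.card T.card)
    (min_le_left _ _)
  obtain ⟨T', hT', hTc⟩ := exists_subset_card_eq (s := T) (n := min S.card T.card)
    (min_le_right _ _)
  have e : S' ≃ T' := Finset.equivOfCardEq (by rw [hSc, hTc])
  refine ⟨fun x => if h : x ∈ S' then some (e ⟨x, h⟩ : α) else none, ?_, ?_⟩
  · intro x y h
    simp only at h
    split_ifs at h with h1
    rw [Option.some.injEq] at h
    rw [← h]
    exact ⟨hS' h1, hT' (e ⟨x, h1⟩).2⟩
  · have h1 : (T.filter fun y => ∀ x, (if h : x ∈ S' then some (e ⟨x, h⟩ : α) else none) ≠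
        some y) ⊆ T \ T' := by
      intro y hy
      rw [mem_filter] at hy
      rw [mem_sdiff]
      refine ⟨hy.1, fun hyT => hy.2 (e.symm ⟨y, hyT⟩ : α) ?_⟩
      rw [dif_pos (e.symm ⟨y, hyT⟩).2]
      simp
    refine (card_le_card h1).trans ?_
    rw [card_sdiff_of_subset hT', hTc]
    omega

theorem shift_avg {α ι : Type} (S : Finset α) (hS : S.Nonempty) (E : Finset ι) (t : ι → α)
    (ht : ∀ e ∈ E, t e ∈ S) (Bad : ι → α → Prop) (b : ℕ)
    (hb : ∀ e ∈ E, (S.filter fun x => Bad e x).card ≤ b) :
    ∃ σ : α → α, (∀ x ∈ S, σ x ∈ S) ∧ (∀ y ∈ S, ∃ x ∈ S, σ x = y) ∧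
      (E.filter fun e => Bad e (σ (t e))).card * S.card ≤ E.card * b := by
  have hn : 0 < S.card := hS.card_pos
  obtain ⟨n, hn'⟩ : ∃ n, S.card = n + 1 := ⟨S.card - 1, by omega⟩
  have e : S ≃ Fin (n + 1) := S.equivFin.trans (finCongr hn')
  set σ : Fin (n + 1) → α → α := fun s x =>
    if h : x ∈ S then (e.symm (e ⟨x, h⟩ + s) : α) else x with hσ
  have hσS : ∀ s x, ∀ h : x ∈ S, σ s x = (e.symm (e ⟨x, h⟩ + s) : α) := by
    intro s x h
    simp only [hσ]
    rw [dif_pos h]
  -- counting
  have hsum : ∑ s : Fin (n + 1), (E.filter fun i => Bad i (σ s (t i))).card ≤ E.card * b := by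
    have h1 : ∀ s : Fin (n + 1), (E.filter fun i => Bad i (σ s (t i))).card =
        ∑ i ∈ E, if Bad i (σ s (t i)) then 1 else 0 := fun s => by rw [card_filter]
    simp_rw [h1]
    rw [sum_comm]
    calc ∑ i ∈ E, ∑ s : Fin (n + 1), (if Bad i (σ s (t i)) then 1 else 0)
        ≤ ∑ i ∈ E, b := sum_le_sum fun i hi => ?_
      _ = E.card * b := by rw [sum_const, smul_eq_mul]
    rw [← card_filter]
    refine le_trans ?_ (hb i hi)
    refine card_le_card_of_injOn (fun s => σ s (t i)) ?_ ?_
    · intro s hs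
      have hs2 := (mem_filter.1 (mem_coe.1 hs)).2
      rw [mem_coe, mem_filter]
      refine ⟨?_, hs2⟩
      simp only
      rw [hσS s _ (ht i hi)]
      exact (e.symm _).2
    · intro s _ s' _ hss
      simp only at hss
      rw [hσS s _ (ht i hi), hσS s' _ (ht i hi)] at hss
      have h2 := e.symm.injective (Subtype.ext hss)
      exact add_left_cancel h2
  -- a good shift
  obtain ⟨s, hs⟩ : ∃ s : Fin (n + 1),
      (E.filter fun i => Bad i (σ s (t i))).card * S.card ≤ E.card * b := by
    by_contra hcon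
    push Not at hcon
    have h1 : ∑ _s : Fin (n + 1), (E.card * b + 1) ≤
        ∑ s : Fin (n + 1), (E.filter fun i => Bad i (σ s (t i))).card * S.card :=
      sum_le_sum fun s _ => hcon s
    rw [← sum_mul, sum_const, card_univ, Fintype.card_fin, smul_eq_mul, hn'] at h1
    have h2 := Nat.mul_le_mul_right (n + 1) hsum
    nlinarith
  refine ⟨σ s, fun x hx => ?_, fun y hy => ?_, hs⟩
  · rw [hσS s x hx]
    exact (e.symm _).2
  · refine ⟨(e.symm (e ⟨y, hy⟩ - s) : α), (e.symm _).2, ?_⟩
    rw [hσS s _ (e.symm _).2]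
    simp

end Pool.Agent.PSY
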