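import Pool.Agent.PSY.Defs

open Finset

set_option autoImplicit false

namespace Pool.Agent.PSY

open scoped Classical

theorem transplant {V : Type} [Fintype V] {F : RF V} {L : V → Prop} {D : ℕ} {top : V → V}
    {code : V → ℕ} (h : Codes F L D top code) (hL : ∀ v, L v → ∃ u, F.par v = some u) (N : ℕ)
    (τ : V → Option V)
    (hτ : ∀ t t', τ t = some t' → ¬ L t' ∧ shape top code N t = shape top code N t')
    (hN : ∀ v, code v < N) :
    ∃ src : V → Option V,
      (∀ v, τ (top v) = none → src v = none) ∧
      (∀ v t', τ (top v) = some t' → ∃ v', src v = some v' ∧ top v' = t' ∧ code v' = code v) ∧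
      (∀ v u v' u', L v → F.par v = some u → src v = some v' → src u = some u' →
        L v' ∧ F.par v' = some u') ∧
      (∀ t w, top t = t → τ t = some (top w) →
        ∃ v, top v = t ∧ code v = code w ∧ src v = some w) := by
  -- equal shapes give vertices with equal codes
  have hshape : ∀ (t t' : V) (v : V), shape top code N t = shape top code N t' → top v = t →
      ∃ v', top v' = t' ∧ code v' = code v := by
    intro t t' v hs hv
    have h1 : (⟨code v, hN v⟩ : Fin N) ∈ shape top code N t := by
      unfold shape
      rw [mem_filter]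
      exact ⟨mem_univ _, v, hv, rfl⟩
    rw [hs] at h1
    unfold shape at h1
    rw [mem_filter] at h1
    exact h1.2
  set src : V → Option V := fun v =>
    if hv : ∃ v', τ (top v) = some (top v') ∧ code v' = code v then some hv.choose else none
    with hsrc
  have src_some : ∀ v v', src v = some v' → τ (top v) = some (top v') ∧ code v' = code v := by
    intro v v' hv
    simp only [hsrc] at hv
    split_ifs at hv with h1
    rw [Option.some.injEq] at hv
    rw [← hv]
    exact h1.choose_spec
  have hb : ∀ v t', τ (top v) = some t' →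
      ∃ v', src v = some v' ∧ top v' = t' ∧ code v' = code v := by
    intro v t' hv
    obtain ⟨v', h1, h2⟩ := hshape (top v) t' v (hτ _ _ hv).2 rfl
    have h3 : ∃ v', τ (top v) = some (top v') ∧ code v' = code v :=
      ⟨v', by rw [h1]; exact hv, h2⟩
    have h4 : src v = some h3.choose := by
      simp only [hsrc]
      rw [dif_pos h3]
    refine ⟨h3.choose, h4, ?_, h3.choose_spec.2⟩
    have h5 := hv.symm.trans h3.choose_spec.1
    rw [Option.some.injEq] at h5
    exact h5.symm
  refine ⟨src, ?_, hb, ?_, ?_⟩
  · intro v hv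
    simp only [hsrc]
    rw [dif_neg]
    rintro ⟨v', h1, -⟩
    rw [hv] at h1
    cases h1
  · intro v u v' u' hv hu hv' hu'
    obtain ⟨a1, a2, a3⟩ := h.li v u hv hu
    obtain ⟨b1, b2⟩ := src_some v v' hv'
    obtain ⟨c1, c2⟩ := src_some u u' hu'
    have hLv' : L v' := by
      by_contra hcon
      have := (h.nl v' hcon).2
      rw [b2] at this
      exact a2 this
    refine ⟨hLv', ?_⟩
    obtain ⟨w', hw'⟩ := hL v' hLv'
    obtain ⟨d1, -, d3⟩ := h.li v' w' hLv' hw'
    rw [← a1, b1, Option.some.injEq] at c1
    have : w' = u' := h.inj w' u' (by rw [← d1, c1]) (by rw [d3, b2, ← a3, c2])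
    rw [← this]
    exact hw'
  · intro t w ht hw
    obtain ⟨v, h1, h2⟩ := hshape (top w) t w (hτ _ _ hw).2.symm rfl
    refine ⟨v, h1, h2, ?_⟩
    obtain ⟨v', h3, h4, h5⟩ := hb v (top w) (by rw [h1]; exact hw)
    rw [h3]
    congr 1
    exact h.inj v' w h4 (by rw [h5, h2])

end Pool.Agent.PSY
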