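import Pool.Agent.PSY.Core2
import Pool.Agent.PSY.Rec
import Pool.Agent.PSY.Codes
import Pool.Agent.PSY.Transplant
import Pool.Agent.PSY.Small

/-!
# The combinatorial core
-/

open Finset

set_option autoImplicit false

namespace Pool.Agent.PSY

open scoped Classical

theorem exists_sel {V : Type} {k : ℕ} (F : RF V) (f : V → Fin k) (H A : V → Prop) :
    ∃ Sel : V → Prop,
      (∀ i j : Fin k, i < j →
      (∃ v u, F.par v = some u ∧ A v ∧ (A u ∨ H u) ∧
          ((f v = i ∧ f u = j) ∨ (f v = j ∧ f u = i))) →
      ∃ v u, Sel v ∧ F.par v = some u ∧ A v ∧ (A u ∨ H u) ∧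
          ((f v = i ∧ f u = j) ∨ (f v = j ∧ f u = i))) ∧
      ∀ v v' u u', Sel v → Sel v' → F.par v = some u → F.par v' = some u' → f v = f v' →
        f u = f u' → v = v' := by
  set Q : Fin k → Fin k → V → Prop := fun i j v => ∃ u, F.par v = some u ∧ A v ∧ (A u ∨ H u) ∧
          ((f v = i ∧ f u = j) ∨ (f v = j ∧ f u = i)) with hQ
  refine ⟨fun v => ∃ (i j : Fin k) (h : ∃ v, Q i j v), i < j ∧ v = h.choose, ?_, ?_⟩
  · intro i j hij hex
    have hex' : ∃ v, Q i j v := by
      obtain ⟨v, u, h⟩ := hex
      exact ⟨v, u, h⟩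
    obtain ⟨u, h⟩ := hex'.choose_spec
    exact ⟨hex'.choose, u, ⟨i, j, hex', hij, rfl⟩, h⟩
  · rintro v v' u u' ⟨i, j, h, hij, rfl⟩ ⟨i', j', h', hij', rfl⟩ hu hu' hf hg
    obtain ⟨x, hx1, _, _, hx2⟩ := h.choose_spec
    obtain ⟨y, hy1, _, _, hy2⟩ := h'.choose_spec
    have hxu : x = u := Option.some.inj (hx1.symm.trans hu)
    have hyu : y = u' := Option.some.inj (hy1.symm.trans hu')
    subst hxu
    subst hyu
    rw [← hf, ← hg] at hy2
    have hii : i = i' ∧ j = j' := by
      rcases hx2 with ⟨a1, a2⟩ | ⟨a1, a2⟩ <;> rcases hy2 with ⟨b1, b2⟩ | ⟨b1, b2⟩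
      · exact ⟨a1.symm.trans b1, a2.symm.trans b2⟩
      · exfalso
        have e1 : i = j' := a1.symm.trans b1
        have e2 : j = i' := a2.symm.trans b2
        have hlt : j < i := e1 ▸ e2 ▸ hij'
        exact absurd (hij.trans hlt) (lt_irrefl _)
      · exfalso
        have e1 : j = i' := a1.symm.trans b1
        have e2 : i = j' := a2.symm.trans b2
        have hlt : j < i := e1 ▸ e2 ▸ hij'
        exact absurd (hij.trans hlt) (lt_irrefl _)
      · exact ⟨a2.symm.trans b2, a1.symm.trans b1⟩
    obtain ⟨rfl, rfl⟩ := hii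
    rfl

theorem core_comb (D q d Tt : ℕ) (hd0 : 0 < d) {k : ℕ}
    {V : Type} [Fintype V] (F : RF V) (f : V → Fin k) (H A : V → Prop) (lev : V → ℕ)
    (hAH : ∀ v, A v → ¬ H v) (hD : ∀ v, A v → ch F v ≤ D)
    (hH : ∀ v u, H v → F.par v = some u → ¬ A u)
    (hlev : ∀ v, A v → lev v < q)
    (hlev1 : ∀ v u, A v → A u → F.par v = some u → lev v = lev u + 1)
    (hcol : ∀ c, (univ.filter fun v => f v = c).card ≤ k) :
    ∃ g : V → Option (Fin k), Proper F g ∧ ∃ vi : ℕ, vi * Tt ≤ k ^ 2 * k ∧
      (univ.filter fun p : Fin k × Fin k => p.1 < p.2 ∧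
        (∃ v u, F.par v = some u ∧ A v ∧ (A u ∨ H u) ∧
          ((f v = p.1 ∧ f u = p.2) ∨ (f v = p.2 ∧ f u = p.1))) ∧
        ¬ Seen F g p.1 p.2).card ≤
      (D + 1) ^ q * (2 ^ ((D + 1) ^ q) * Tt + ((k / d + 1) ^ (2 ^ ((D + 1) ^ q)) * k +
        k * (2 ^ ((D + 1) ^ q) * d))) + D * vi := by
  set N : ℕ := (D + 1) ^ q with hNdef
  have hNpos : 0 < N := Nat.pow_pos (Nat.succ_pos D)
  obtain ⟨Sel, hsel, hsel2⟩ := exists_sel F f H A
  set L : V → Prop := fun v => A v ∧ ∃ u, F.par v = some u ∧ A u ∧ f v ≠ f u with hLdef
  have hL : ∀ v, L v ↔ A v ∧ ∃ u, F.par v = some u ∧ A u ∧ f v ≠ f u := fun v => Iff.rfl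
  set At : V → Prop := fun v => A v ∧ Sel v ∧ ∃ u, F.par v = some u ∧ H u ∧ f v ≠ f u with hAtdef
  have hLex : ∀ v, L v → ∃ u, F.par v = some u := fun v hv => by
    obtain ⟨_, u, hu, _⟩ := hv
    exact ⟨u, hu⟩
  have hAtL : ∀ v, At v → ¬ L v := by
    rintro v ⟨_, _, u, hu, hHu, _⟩ ⟨_, u', hu', hAu', _⟩
    rw [hu] at hu'
    obtain rfl := Option.some.inj hu'
    exact hAH u hAu' hHu
  obtain ⟨top, code, hcod, hcb⟩ := exists_codes F L D q lev (by
    rintro v ⟨hA, u, hu, hAu, _⟩
    exact ⟨u, hu, hD u hAu, hlev1 v u hA hAu hu⟩)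
  have hN : ∀ v, code v < N := by
    intro v
    by_cases hLv : L v
    · exact hcb v (hlev v hLv.1)
    · rw [(hcod.nl v hLv).2]
      exact hNpos
  have htt : ∀ v, top (top v) = top v := fun v => (hcod.nl _ (hcod.topnl v)).1
  have htL : ∀ t, top t = t → ¬ L t := by
    intro t ht
    have := hcod.topnl t
    rwa [ht] at this
  have hAtop : ∀ v, A v → A (top v) := by
    intro v
    induction hn : F.rk v using Nat.strong_induction_on generalizing v with
    | _ n ih =>
      intro hA
      by_cases hLv : L v
      · obtain ⟨_, u, hu, hAu, _⟩ := id hLv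
        rw [(hcod.li v u hLv hu).1]
        exact ih _ (hn ▸ F.lt v u hu) u rfl hAu
      · rw [(hcod.nl v hLv).1]
        exact hA
  -- parities
  obtain ⟨P, hP⟩ := exists_rec (β := Bool) F (fun v p => if At v then false else
    match F.par v with
    | none => false
    | some u => if H u then true else if A u then !p (top u) else false) (by
      intro v p p' hpp
      by_cases hAtv : At v
      · simp only [if_pos hAtv]
      · simp only [if_neg hAtv]
        rcases hu : F.par v with _ | u
        · rfl
        · simp only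
          rw [hpp (top u) (lt_of_le_of_lt (hcod.rk u) (F.lt v u hu))])
  obtain ⟨hp, hhp⟩ := exists_rec (β := Bool) F (fun v p =>
    match F.par v with
    | none => false
    | some u => if H v ∧ H u then (if f v = f u then !p u else p u) else false) (by
      intro v p p' hpp
      rcases hu : F.par v with _ | u
      · rfl
      · simp only
        rw [hpp u (F.lt v u hu)])
  set sh : V → Finset (Fin N) := fun v => shape top code N v with hsh
  set BT : Fin k → Finset (Fin N) → Finset V := fun i a => univ.filter fun t =>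
    At t ∧ (∃ h, F.par t = some h ∧ hp h = true ∧ f h = i) ∧ sh t = a with hBT
  have hBTk : ∀ (i : Fin k) (S : Finset V), (∀ t ∈ S, At t ∧ ∃ h, F.par t = some h ∧ f h = i) →
      S.card ≤ k := by
    intro i S hS
    have h1 : S.card ≤ (univ : Finset (Fin k)).card := by
      refine card_le_card_of_injOn f (fun _ _ => mem_coe.2 (mem_univ _)) ?_
      intro t ht t' ht' hff
      obtain ⟨h1, h, h2, h3⟩ := hS t ht
      obtain ⟨h1', h', h2', h3'⟩ := hS t' ht'
      exact hsel2 t t' h h' h1.2.1 h1'.2.1 h2 h2' hff (h3.trans h3'.symm)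
    rwa [card_univ, Fintype.card_fin] at h1
  have hBTk' : ∀ i a, (BT i a).card ≤ k := fun i a => hBTk i _ (by
    intro t ht
    obtain ⟨_, h1, ⟨h, h2, _, h3⟩, _⟩ := mem_filter.1 ht
    exact ⟨h1, h, h2, h3⟩)
  set vec : Fin k → (Finset (Fin N) → Fin (k / d + 1)) := fun i a =>
    ⟨(BT i a).card / d, Nat.lt_succ_of_le (Nat.div_le_div_right (hBTk' i a))⟩ with hvec
  obtain ⟨κ, hκ1, hκ2, _, hκ3⟩ := exists_kappa vec
  set γ : V → Option (Fin k) := fun h => if hp h = true then κ (f h) else some (f h) with hγ
  have hφex : ∀ x : Fin k × Fin k × Finset (Fin N), ∃ φ : V → Option V,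
      (∀ x' y, φ x' = some y → x' ∈ BT x.1 x.2.2 ∧ y ∈ BT x.2.1 x.2.2) ∧
      ((BT x.2.1 x.2.2).filter fun y => ∀ x', φ x' ≠ some y).card ≤
        (BT x.2.1 x.2.2).card - (BT x.1 x.2.2).card := by
    intro x
    obtain ⟨φ, h1, h2⟩ := exists_matching (BT x.1 x.2.2) (BT x.2.1 x.2.2)
    refine ⟨φ, h1, ?_⟩
    convert h2
  choose φ hφ1 hφ2 using hφex
  set Gr : Finset (Fin N) → Finset V := fun a => univ.filter fun t =>
    A t ∧ ¬ L t ∧ ¬ At t ∧ P t = true ∧ sh t = a with hGr
  set τ0 : V → Option V := fun t => if At t then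
      (match F.par t with
       | none => none
       | some h => if hp h = true then
          (match κ (f h) with
           | none => none
           | some i => φ (f h, i, sh t) t) else some t)
      else if A t ∧ ¬ L t ∧ P t = false then some t else none with hτ0
  have hτ0c : ∀ t t', τ0 t = some t' →
      (At t ∧ (∃ h, F.par t = some h ∧ hp h = false) ∧ t' = t) ∨
      (At t ∧ (∃ h i, F.par t = some h ∧ hp h = true ∧ κ (f h) = some i ∧
        φ (f h, i, sh t) t = some t')) ∨
      (¬ At t ∧ A t ∧ ¬ L t ∧ P t = false ∧ t' = t) := by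
    intro t t' h
    simp only [hτ0] at h
    by_cases h1 : At t
    · rw [if_pos h1] at h
      rcases hu : F.par t with _ | u
      · rw [hu] at h
        simp at h
      · rw [hu] at h
        simp only at h
        by_cases h2 : hp u = true
        · rw [if_pos h2] at h
          rcases hk : κ (f u) with _ | i
          · rw [hk] at h
            simp at h
          · rw [hk] at h
            simp only at h
            exact Or.inr (Or.inl ⟨h1, u, i, rfl, h2, hk, h⟩)
        · rw [if_neg h2] at h
          exact Or.inl ⟨h1, ⟨u, rfl, by simpa using h2⟩, (Option.some.inj h).symm⟩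
    · rw [if_neg h1] at h
      by_cases h2 : A t ∧ ¬ L t ∧ P t = false
      · rw [if_pos h2] at h
        exact Or.inr (Or.inr ⟨h1, h2.1, h2.2.1, h2.2.2, (Option.some.inj h).symm⟩)
      · rw [if_neg h2] at h
        simp at h
  have hτ0s : ∀ t t', τ0 t = some t' → ¬ L t' ∧ shape top code N t = shape top code N t' := by
    intro t t' h
    rcases hτ0c t t' h with ⟨h1, _, rfl⟩ | ⟨_, h, i, _, _, _, h4⟩ | ⟨_, _, h3, _, rfl⟩
    · exact ⟨hAtL _ h1, rfl⟩
    · obtain ⟨_, h5⟩ := hφ1 _ _ _ h4
      obtain ⟨_, h6, _, h7⟩ := mem_filter.1 h5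
      exact ⟨hAtL _ h6, h7.symm⟩
    · exact ⟨h3, rfl⟩
  obtain ⟨src0, _, hb0, _, _⟩ := transplant hcod hLex N τ0 hτ0s hN
  set gb : V → Option (Fin k) := g1 f H A γ src0 with hgb
  set te : V → V := fun v => if P v = true then v else
    (match F.par v with
     | none => v
     | some u => top u) with hte
  set Bad : V → V → Prop := fun v x => (P v = true ∧ ∃ u, F.par v = some u ∧ gb u = some (f x)) ∨
    (P v = false ∧ ∃ u y, F.par v = some u ∧ top y = x ∧ code y = code u ∧ f y = f v) with hBad
  set E : Finset (Fin N) → Finset V := fun a => univ.filter fun v =>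
    A v ∧ ¬ L v ∧ ¬ At v ∧ te v ∈ Gr a with hE
  have hbad : ∀ a, ∀ e ∈ E a, ((Gr a).filter fun x => Bad e x).card ≤ k := by
    intro a e _
    rcases Bool.dichotomy (P e) with hPe | hPe
    · -- parity false
      by_cases hu : ∃ u, F.par e = some u
      · obtain ⟨u, hu⟩ := hu
        have h1 : ∀ x ∈ (Gr a).filter (fun x => Bad e x), ∃ y, top y = x ∧ code y = code u ∧
            f y = f e := by
          intro x hx
          rcases (mem_filter.1 hx).2 with ⟨h, _⟩ | ⟨_, u', y, hu', h2, h3, h4⟩
          · rw [hPe] at h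
            simp at h
          · rw [hu] at hu'
            obtain rfl := Option.some.inj hu'
            exact ⟨y, h2, h3, h4⟩
        have h1' : ∀ x : V, ∃ y, x ∈ (Gr a).filter (fun x => Bad e x) → top y = x ∧
            code y = code u ∧ f y = f e := by
          intro x
          by_cases hx : x ∈ (Gr a).filter (fun x => Bad e x)
          · obtain ⟨y, hy⟩ := h1 x hx
            exact ⟨y, fun _ => hy⟩
          · exact ⟨x, fun h => absurd h hx⟩
        choose y hy using h1'
        refine le_trans (card_le_card_of_injOn y ?_ ?_) (hcol (f e))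
        · intro x hx
          exact mem_coe.2 (mem_filter.2 ⟨mem_univ _, (hy x (mem_coe.1 hx)).2.2⟩)
        · intro x hx x' hx' hxx
          have e1 := (hy x (mem_coe.1 hx)).1
          have e2 := (hy x' (mem_coe.1 hx')).1
          have hxx' : y x = y x' := hxx
          rw [hxx'] at e1
          exact e1.symm.trans e2
      · have : (Gr a).filter (fun x => Bad e x) = ∅ := by
          refine filter_eq_empty_iff.2 ?_
          rintro x _ (⟨h, _⟩ | ⟨_, u', _, hu', _⟩)
          · rw [hPe] at h
            simp at h
          · exact hu ⟨u', hu'⟩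
        rw [this, card_empty]
        exact Nat.zero_le _
    · -- parity true
      by_cases hu : ∃ u c, F.par e = some u ∧ gb u = some c
      · obtain ⟨u, c, hu, hc⟩ := hu
        refine le_trans (card_le_card ?_) (hcol c)
        intro x hx
        rcases (mem_filter.1 hx).2 with ⟨_, u', hu', h2⟩ | ⟨h, _⟩
        · rw [hu] at hu'
          obtain rfl := Option.some.inj hu'
          rw [hc] at h2
          exact mem_filter.2 ⟨mem_univ _, (Option.some.inj h2).symm⟩
        · rw [hPe] at h
          simp at h
      · have : (Gr a).filter (fun x => Bad e x) = ∅ := by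
          refine filter_eq_empty_iff.2 ?_
          rintro x _ (⟨_, u', hu', h2⟩ | ⟨h, _⟩)
          · exact hu ⟨u', f x, hu', h2⟩
          · rw [hPe] at h
            simp at h
        rw [this, card_empty]
        exact Nat.zero_le _
  have hσex : ∀ a, ∃ σ : V → V, (Gr a).Nonempty → (∀ x ∈ Gr a, σ x ∈ Gr a) ∧
      (∀ y ∈ Gr a, ∃ x ∈ Gr a, σ x = y) ∧
      ((E a).filter fun e => Bad e (σ (te e))).card * (Gr a).card ≤ (E a).card * k := by
    intro a
    by_cases hne : (Gr a).Nonempty
    · obtain ⟨σ, h⟩ := shift_avg (Gr a) hne (E a) te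
        (fun e he => (mem_filter.1 he).2.2.2.2) Bad k (by
          intro e he
          convert hbad a e he)
      refine ⟨σ, fun _ => ⟨h.1, h.2.1, ?_⟩⟩
      convert h.2.2
    · exact ⟨id, fun h => absurd h hne⟩
  choose σ hσ using hσex
  set τ : V → Option V := fun t => if A t ∧ ¬ L t ∧ ¬ At t ∧ P t = true then
    (if Tt ≤ (Gr (sh t)).card then some (σ (sh t) t) else none) else τ0 t with hτ
  have hGrmem : ∀ t, A t → ¬ L t → ¬ At t → P t = true → t ∈ Gr (sh t) := fun t h1 h2 h3 h4 =>
    mem_filter.2 ⟨mem_univ _, h1, h2, h3, h4, rfl⟩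
  have hτP : ∀ t, A t ∧ ¬ L t ∧ ¬ At t ∧ P t = true → τ t =
      if Tt ≤ (Gr (sh t)).card then some (σ (sh t) t) else none := by
    intro t h
    simp only [hτ]
    rw [if_pos h]
  have hτN : ∀ t, ¬ (A t ∧ ¬ L t ∧ ¬ At t ∧ P t = true) → τ t = τ0 t := by
    intro t h
    simp only [hτ]
    rw [if_neg h]
  have hτs : ∀ t t', τ t = some t' → ¬ L t' ∧ shape top code N t = shape top code N t' := by
    intro t t' h
    by_cases h1 : A t ∧ ¬ L t ∧ ¬ At t ∧ P t = true
    · rw [hτP t h1] at h
      by_cases h2 : Tt ≤ (Gr (sh t)).card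
      · rw [if_pos h2] at h
        obtain rfl := Option.some.inj h
        have hm := hGrmem t h1.1 h1.2.1 h1.2.2.1 h1.2.2.2
        have h3 := (hσ (sh t) ⟨t, hm⟩).1 t hm
        obtain ⟨_, _, h4, _, _, h5⟩ := mem_filter.1 h3
        exact ⟨h4, h5.symm⟩
      · rw [if_neg h2] at h
        simp at h
    · rw [hτN t h1] at h
      exact hτ0s t t' h
  obtain ⟨src, hs1, hb, hc, hd⟩ := transplant hcod hLex N τ hτs hN
  -- classification of the values of τ
  have hτc : ∀ t t', τ t = some t' →
      (At t ∧ (∃ h, F.par t = some h ∧ hp h = false) ∧ t' = t) ∨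
      (At t ∧ (∃ h i, F.par t = some h ∧ hp h = true ∧ κ (f h) = some i ∧
        φ (f h, i, sh t) t = some t')) ∨
      (¬ At t ∧ A t ∧ ¬ L t ∧ P t = false ∧ t' = t) ∨
      (¬ At t ∧ A t ∧ ¬ L t ∧ P t = true ∧ Tt ≤ (Gr (sh t)).card ∧ t' = σ (sh t) t) := by
    intro t t' h
    by_cases h1 : A t ∧ ¬ L t ∧ ¬ At t ∧ P t = true
    · rw [hτP t h1] at h
      by_cases h2 : Tt ≤ (Gr (sh t)).card
      · rw [if_pos h2] at h
        exact Or.inr (Or.inr (Or.inr ⟨h1.2.2.1, h1.1, h1.2.1, h1.2.2.2, h2,
          (Option.some.inj h).symm⟩))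
      · rw [if_neg h2] at h
        simp at h
    · rw [hτN t h1] at h
      rcases hτ0c t t' h with h3 | h3 | h3
      · exact Or.inl h3
      · exact Or.inr (Or.inl h3)
      · exact Or.inr (Or.inr (Or.inl h3))
  -- the source of a top
  have hsrct : ∀ t t', top t = t → τ t = some t' → src t = some t' := by
    intro t t' ht h
    obtain ⟨v', h1, h2, h3⟩ := hb t t' (by rw [ht]; exact h)
    have h4 := (hτs t t' h).1
    have h5 : v' = t' := hcod.inj v' t' (by rw [h2, (hcod.nl t' h4).1])
      (by rw [h3, (hcod.nl t (htL t ht)).2, (hcod.nl t' h4).2])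
    rw [h1, h5]
  have hAttop : ∀ t, At t → top t = t := fun t ht => (hcod.nl t (hAtL t ht)).1
  have hub : ∀ v u a, H v → H u → F.par v = some u → γ v = some a → γ u ≠ some a := by
    intro v u a hHv hHu hpar h1 h2
    have h3 := hhp v
    rw [hpar] at h3
    simp only [hHv, hHu, and_self, if_true] at h3
    simp only [hγ] at h1 h2
    by_cases hff : f v = f u
    · rw [if_pos hff] at h3
      rcases Bool.dichotomy (hp u) with hpu | hpu
      · rw [hpu] at h3
        rw [if_pos (by rw [h3]; rfl)] at h1
        rw [if_neg (by rw [hpu]; simp)] at h2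
        have h4 := Option.some.inj h2
        rw [← h4, ← hff] at h1
        exact (hκ1 _ _ h1).1 rfl
      · rw [hpu] at h3
        rw [if_neg (by rw [h3]; simp)] at h1
        rw [if_pos hpu] at h2
        have h4 := Option.some.inj h1
        rw [← h4, hff] at h2
        exact (hκ1 _ _ h2).1 rfl
    · rw [if_neg hff] at h3
      rcases Bool.dichotomy (hp u) with hpu | hpu
      · rw [hpu] at h3
        rw [if_neg (by rw [h3]; simp)] at h1
        rw [if_neg (by rw [hpu]; simp)] at h2
        exact hff (Option.some.inj (h1.trans h2.symm))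
      · rw [hpu] at h3
        rw [if_pos h3] at h1
        rw [if_pos hpu] at h2
        exact hff (hκ2 _ _ _ h1 h2)
  have hAt1 : ∀ v, At v → ∃ u, F.par v = some u ∧ H u ∧
      ∀ a v', γ u = some a → src v = some v' → f v' ≠ a := by
    intro v hv
    obtain ⟨hAv, hSv, u, hu, hHu, hne⟩ := id hv
    refine ⟨u, hu, hHu, ?_⟩
    intro a v' h1 h2 h3
    have hτv : ∃ t', τ (top v) = some t' := by
      by_contra hno
      push Not at hno
      have : τ (top v) = none := by
        rcases h : τ (top v) with _ | x
        · rfl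
        · exact absurd h (hno x)
      rw [hs1 v this] at h2
      simp at h2
    obtain ⟨t', ht'⟩ := hτv
    rw [hAttop v hv] at ht'
    have h4 := hsrct v t' (hAttop v hv) ht'
    rw [h2] at h4
    obtain rfl := Option.some.inj h4
    simp only [hγ] at h1
    rcases hτc v v' ht' with ⟨_, ⟨h, hh1, hh2⟩, hh3⟩ | ⟨_, h, i, hh1, hh2, hh3, hh4⟩ | ⟨h5, _⟩ |
      ⟨h5, _⟩
    · rw [hu] at hh1
      obtain rfl := Option.some.inj hh1
      rw [if_neg (by rw [hh2]; simp)] at h1
      rw [hh3] at h3
      exact hne (h3.trans (Option.some.inj h1).symm)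
    · rw [hu] at hh1
      obtain rfl := Option.some.inj hh1
      rw [if_pos hh2, hh3] at h1
      obtain rfl := Option.some.inj h1
      obtain ⟨_, h6⟩ := hφ1 _ _ _ hh4
      obtain ⟨_, h7, ⟨h', h8, _, h9⟩, _⟩ := mem_filter.1 h6
      obtain ⟨_, _, u', hu', _, hne'⟩ := h7
      rw [hu'] at h8
      obtain rfl := Option.some.inj h8
      exact hne' (h3.trans h9.symm)
    · exact h5 hv
    · exact h5 hv
  have hAt2 : ∀ w u t, At w → F.par w = some u → top t = t → τ t = some w →
      At t ∧ ∃ h', F.par t = some h' ∧ H h' ∧ γ h' = some (f u) := by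
    intro w u t hw hu ht h
    have hHu : H u := by
      obtain ⟨_, _, u', hu', hHu', _⟩ := hw
      rw [hu] at hu'
      obtain rfl := Option.some.inj hu'
      exact hHu'
    rcases hτc t w h with ⟨h1, ⟨h', hh1, hh2⟩, hh3⟩ | ⟨h1, h', i, hh1, hh2, hh3, hh4⟩ |
      ⟨h5, _, _, _, h6⟩ | ⟨h5, h6, h7, h8, _, h9⟩
    · subst hh3
      refine ⟨h1, h', hh1, ?_, ?_⟩
      · rw [hu] at hh1
        obtain rfl := Option.some.inj hh1
        exact hHu
      · rw [hu] at hh1
        obtain rfl := Option.some.inj hh1
        simp only [hγ]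
        rw [if_neg (by rw [hh2]; simp)]
    · refine ⟨h1, h', hh1, ?_, ?_⟩
      · obtain ⟨_, _, u', hu', hHu', _⟩ := h1
        rw [hh1] at hu'
        obtain rfl := Option.some.inj hu'
        exact hHu'
      · obtain ⟨_, h6⟩ := hφ1 _ _ _ hh4
        obtain ⟨_, _, ⟨h'', h8, _, h9⟩, _⟩ := mem_filter.1 h6
        rw [hu] at h8
        obtain rfl := Option.some.inj h8
        simp only [hγ]
        rw [if_pos hh2, hh3, h9]
    · rw [h6] at hw
      exact absurd hw h5
    · have h10 := (hσ (sh t) ⟨t, hGrmem t h6 h7 h5 h8⟩).1 t (hGrmem t h6 h7 h5 h8)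
      rw [← h9] at h10
      exact absurd hw (mem_filter.1 h10).2.2.2.1
  refine ⟨g2 F f H A L At γ src, proper_g2 F f H A L At γ src hH hAH hL hub hc hAt1,
    (univ.filter fun t => Viol F f H A L At γ src t).card, ?_, ?_⟩
  · -- the violators
    have hVi : ∀ t, Viol F f H A L At γ src t → ∃ a, Tt ≤ (Gr a).card ∧ t ∈ E a ∧
        Bad t (σ a (te t)) := by
      rintro t ⟨hAt', hLt, hAtt, u, c, hu, hgu, hgt⟩
      have htop : top t = t := (hcod.nl t hLt).1
      have hPt := hP t
      rw [if_neg hAtt, hu] at hPt
      simp only at hPt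
      obtain ⟨_, t', hst, hft⟩ := g1_some hgt (hAH t hAt')
      have hτt : ∃ t'', τ t = some t'' := by
        by_contra hno
        push Not at hno
        have : τ (top t) = none := by
          rw [htop]
          rcases h : τ t with _ | x
          · rfl
          · exact absurd h (hno x)
        rw [hs1 t this] at hst
        simp at hst
      obtain ⟨t'', hτt⟩ := hτt
      have h1 := hsrct t t'' htop hτt
      rw [hst] at h1
      obtain rfl := Option.some.inj h1
      rcases Bool.dichotomy (P t) with hPf | hPf
      · -- parity false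
        rw [hPf] at hPt
        have hnH : ¬ H u := by
          intro h
          rw [if_pos h] at hPt
          simp at hPt
        rw [if_neg hnH] at hPt
        obtain ⟨hAu, u', hsu, hfu⟩ := g1_some hgu hnH
        rw [if_pos hAu] at hPt
        have hPu : P (top u) = true := by
          rcases Bool.dichotomy (P (top u)) with h | h
          · rw [h] at hPt
            simp at hPt
          · exact h
        have hAtu : ¬ At (top u) := by
          intro h
          have h2 := hP (top u)
          rw [if_pos h, hPu] at h2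
          simp at h2
        have hcond : A (top u) ∧ ¬ L (top u) ∧ ¬ At (top u) ∧ P (top u) = true :=
          ⟨hAtop u hAu, hcod.topnl u, hAtu, hPu⟩
        have hτu := hτP (top u) hcond
        have hbig : Tt ≤ (Gr (sh (top u))).card := by
          by_contra hlt
          rw [if_neg hlt] at hτu
          rw [hs1 u hτu] at hsu
          simp at hsu
        rw [if_pos hbig] at hτu
        obtain ⟨y, hy1, hy2, hy3⟩ := hb u _ hτu
        rw [hsu] at hy1
        obtain rfl := Option.some.inj hy1
        have hte : te t = top u := by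
          simp only [hte]
          rw [if_neg (by rw [hPf]; simp), hu]
        refine ⟨sh (top u), hbig, ?_, ?_⟩
        · refine mem_filter.2 ⟨mem_univ _, hAt', hLt, hAtt, ?_⟩
          rw [hte]
          exact hGrmem _ hcond.1 hcond.2.1 hcond.2.2.1 hcond.2.2.2
        · rw [hte]
          refine Or.inr ⟨hPf, u, u', hu, hy2, hy3, ?_⟩
          have h5 : τ t = τ0 t := hτN t (fun h => by
            rw [hPf] at h
            simp at h)
          have h6 : τ0 t = some t := by
            simp only [hτ0]
            rw [if_neg hAtt, if_pos ⟨hAt', hLt, hPf⟩]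
          rw [h5, h6] at hτt
          obtain rfl := Option.some.inj hτt
          exact hfu.trans hft.symm
      · -- parity true
        have hcond : A t ∧ ¬ L t ∧ ¬ At t ∧ P t = true := ⟨hAt', hLt, hAtt, hPf⟩
        have hτt' := hτP t hcond
        have hbig : Tt ≤ (Gr (sh t)).card := by
          by_contra hlt
          rw [if_neg hlt, hτt] at hτt'
          simp at hτt'
        rw [if_pos hbig, hτt] at hτt'
        have hσt := Option.some.inj hτt'
        have hte : te t = t := by
          simp only [hte]
          rw [if_pos hPf]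
        refine ⟨sh t, hbig, ?_, ?_⟩
        · refine mem_filter.2 ⟨mem_univ _, hAt', hLt, hAtt, ?_⟩
          rw [hte]
          exact hGrmem _ hcond.1 hcond.2.1 hcond.2.2.1 hcond.2.2.2
        · rw [hte, ← hσt]
          refine Or.inl ⟨hPf, u, hu, ?_⟩
          rw [hft]
          by_cases hHu : H u
          · rw [g1_H hHu] at hgu
            rw [hgb, g1_H hHu, hgu]
          · obtain ⟨hAu, u', hsu, hfu⟩ := g1_some hgu hHu
            rw [if_neg hHu, if_pos hAu, hPf] at hPt
            have hPu : P (top u) = false := by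
              rcases Bool.dichotomy (P (top u)) with h | h
              · exact h
              · rw [h] at hPt
                simp at hPt
            have hτu : τ (top u) = τ0 (top u) := hτN _ (fun h => by
              rw [hPu] at h
              simp at h)
            have hex : ∃ x, τ (top u) = some x := by
              by_contra hno
              push Not at hno
              have : τ (top u) = none := by
                rcases h : τ (top u) with _ | x
                · rfl
                · exact absurd h (hno x)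
              rw [hs1 u this] at hsu
              simp at hsu
            obtain ⟨x, hx⟩ := hex
            obtain ⟨y, hy1, hy2, hy3⟩ := hb u x hx
            obtain ⟨z, hz1, hz2, hz3⟩ := hb0 u x (by rw [← hτu]; exact hx)
            have hyz : y = z := hcod.inj y z (hy2.trans hz2.symm) (hy3.trans hz3.symm)
            rw [hsu] at hy1
            obtain rfl := Option.some.inj hy1
            subst hyz
            rw [hgb, g1_A hHu hAu, hz1]
            simp only [Option.map_some]
            rw [hfu]
    set B : Finset (Fin N) → Finset V := fun a => if Tt ≤ (Gr a).card then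
      (E a).filter (fun e => Bad e (σ a (te e))) else ∅ with hB
    have h1 : (univ.filter fun t => Viol F f H A L At γ src t) ⊆ univ.biUnion B := by
      intro t ht
      obtain ⟨a, h1, h2, h3⟩ := hVi t (mem_filter.1 ht).2
      rw [mem_biUnion]
      refine ⟨a, mem_univ _, ?_⟩
      simp only [hB]
      rw [if_pos h1]
      exact mem_filter.2 ⟨h2, h3⟩
    have h2 : ∀ a, (B a).card * Tt ≤ (E a).card * k := by
      intro a
      simp only [hB]
      by_cases hbig : Tt ≤ (Gr a).card
      · rw [if_pos hbig]
        by_cases hne : (Gr a).Nonempty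
        · have h3 := (hσ a hne).2.2
          refine (Nat.mul_le_mul_left _ hbig).trans ?_
          convert h3
        · have h3 : Tt = 0 := by
            rw [not_nonempty_iff_eq_empty] at hne
            rw [hne, card_empty] at hbig
            omega
          rw [h3, Nat.mul_zero]
          exact Nat.zero_le _
      · rw [if_neg hbig, card_empty, Nat.zero_mul]
        exact Nat.zero_le _
    have h3 : ∑ a, (E a).card ≤ Fintype.card V := by
      have h4 : (univ : Finset V).card = ∑ a, (univ.filter fun v => sh (te v) = a).card :=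
        card_eq_sum_card_fiberwise (fun _ _ => mem_coe.2 (mem_univ _))
      rw [← card_univ, h4]
      refine sum_le_sum fun a _ => card_le_card ?_
      intro v hv
      exact mem_filter.2 ⟨mem_univ _, (mem_filter.1 (mem_filter.1 hv).2.2.2.2).2.2.2.2.2⟩
    have h5 : Fintype.card V ≤ k * k := by
      have h4 : (univ : Finset V).card = ∑ c, (univ.filter fun v => f v = c).card :=
        card_eq_sum_card_fiberwise (fun _ _ => mem_coe.2 (mem_univ _))
      rw [← card_univ, h4]
      refine (sum_le_card_nsmul _ _ k fun c _ => hcol c).trans ?_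
      rw [card_univ, Fintype.card_fin, smul_eq_mul]
    calc (univ.filter fun t => Viol F f H A L At γ src t).card * Tt
        ≤ (∑ a, (B a).card) * Tt :=
          Nat.mul_le_mul_right _ ((card_le_card h1).trans card_biUnion_le)
      _ = ∑ a, (B a).card * Tt := by rw [sum_mul]
      _ ≤ ∑ a, (E a).card * k := sum_le_sum fun a _ => h2 a
      _ = (∑ a, (E a).card) * k := by rw [sum_mul]
      _ ≤ (k * k) * k := Nat.mul_le_mul_right _ (h3.trans h5)
      _ = k ^ 2 * k := by ring
  · have h1 := lost_card F f H A L At Sel γ src τ D N top code hcod hAH hL hb hc hd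
      (fun v hv => hv.1) hAt2 hN hD hAtop hsel
      (fun w u hS hAw hu hHu hne => ⟨hAw, hS, u, hu, hHu, hne⟩)
    refine h1.trans (Nat.add_le_add_right (Nat.mul_le_mul_left _ ?_) _)
    set S1 : Finset V := univ.biUnion (fun a => if Tt ≤ (Gr a).card then ∅ else Gr a) with hS1
    set S2 : Finset V := (univ.filter fun i => ∀ j, κ j ≠ some i).biUnion
      (fun i => univ.filter fun t => At t ∧ ∃ h, F.par t = some h ∧ f h = i) with hS2
    set S3 : Finset V := (univ : Finset (Fin k)).biUnion (fun i =>
      (univ : Finset (Finset (Fin N))).biUnion (fun a =>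
        (BT i a).filter fun y => ∃ j, κ j = some i ∧ ∀ x, φ (j, i, a) x ≠ some y)) with hS3
    have hcardF : (univ : Finset (Finset (Fin N))).card = 2 ^ N := by
      rw [card_univ, Fintype.card_finset, Fintype.card_fin]
    have c1 : S1.card ≤ 2 ^ N * Tt := by
      rw [← hcardF]
      refine card_biUnion_le_card_mul _ _ _ ?_
      intro a _
      by_cases hbig : Tt ≤ (Gr a).card
      · rw [if_pos hbig, card_empty]
        exact Nat.zero_le _
      · rw [if_neg hbig]
        exact (not_le.1 hbig).le
    have c2 : S2.card ≤ (k / d + 1) ^ (2 ^ N) * k := by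
      refine (card_biUnion_le_card_mul _ _ k ?_).trans (Nat.mul_le_mul_right _ ?_)
      · intro i _
        exact hBTk i _ (fun t ht => (mem_filter.1 ht).2)
      · refine le_trans ?_ (hκ3.trans (le_of_eq ?_))
        · refine le_of_eq ?_
          congr 1
        · rw [Fintype.card_fun, Fintype.card_fin, Fintype.card_finset, Fintype.card_fin]
    have c3 : S3.card ≤ k * (2 ^ N * d) := by
      have hk : (univ : Finset (Fin k)).card = k := by rw [card_univ, Fintype.card_fin]
      have h2 : S3.card ≤ (univ : Finset (Fin k)).card * (2 ^ N * d) := by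
        refine card_biUnion_le_card_mul _ _ _ ?_
        intro i _
        rw [← hcardF]
        refine card_biUnion_le_card_mul _ _ _ ?_
        intro a _
        by_cases hj : ∃ j, κ j = some i
        · obtain ⟨j, hj⟩ := hj
          have h3 := hφ2 (j, i, a)
          have h4 : ((BT i a).filter fun y => ∃ j, κ j = some i ∧ ∀ x, φ (j, i, a) x ≠ some y) ⊆
              ((BT i a).filter fun y => ∀ x, φ (j, i, a) x ≠ some y) := by
            intro y hy
            obtain ⟨hy1, j', hj', hy2⟩ := mem_filter.1 hy
            have hjj := hκ2 j j' i hj hj'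
            subst hjj
            exact mem_filter.2 ⟨hy1, hy2⟩
          refine (card_le_card h4).trans (le_trans (le_trans (le_of_eq ?_) h3) ?_)
          · congr 1
          · have h5 := (hκ1 j i hj).2
            have h6 := congrFun h5 a
            have h7 : (BT j a).card / d = (BT i a).card / d := congrArg Fin.val h6
            have h8 := Nat.div_add_mod (BT i a).card d
            have h9 := Nat.div_add_mod (BT j a).card d
            have h10 := Nat.mod_lt (BT i a).card hd0
            rw [h7] at h9
            simp only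
            omega
        · have : ((BT i a).filter fun y => ∃ j, κ j = some i ∧ ∀ x, φ (j, i, a) x ≠ some y) = ∅ :=
            filter_eq_empty_iff.2 (by
              rintro y _ ⟨j, h, _⟩
              exact hj ⟨j, h⟩)
          rw [this, card_empty]
          exact Nat.zero_le _
      rwa [hk] at h2
    have hsub : (univ.filter fun t => A t ∧ ¬ L t ∧ ∀ t0, top t0 = t0 → τ t0 ≠ some t) ⊆
        S1 ∪ (S2 ∪ S3) := by
      intro t ht
      obtain ⟨_, hAt', hLt, hno⟩ := mem_filter.1 ht
      have htop : top t = t := (hcod.nl t hLt).1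
      by_cases hAtt : At t
      · rw [mem_union]
        right
        obtain ⟨_, hSel, h, hh, hHh, hne⟩ := id hAtt
        rcases Bool.dichotomy (hp h) with hph | hph
        · exfalso
          apply hno t htop
          rw [hτN t (fun h' => h'.2.2.1 hAtt)]
          simp only [hτ0]
          rw [if_pos hAtt, hh]
          simp only
          rw [if_neg (by rw [hph]; simp)]
        · rw [mem_union]
          by_cases hk : ∃ j, κ j = some (f h)
          · obtain ⟨j, hj⟩ := hk
            right
            rw [hS3, mem_biUnion]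
            refine ⟨f h, mem_univ _, ?_⟩
            rw [mem_biUnion]
            refine ⟨sh t, mem_univ _, mem_filter.2 ⟨mem_filter.2 ⟨mem_univ _, hAtt,
              ⟨h, hh, hph, rfl⟩, rfl⟩, j, hj, ?_⟩⟩
            intro x hx
            obtain ⟨h5, h6⟩ := hφ1 _ _ _ hx
            obtain ⟨_, h7, ⟨h', h8, h9, h10⟩, h11⟩ := mem_filter.1 h5
            simp only at h10 h11
            apply hno x (hAttop x h7)
            rw [hτN x (fun h' => h'.2.2.1 h7)]
            simp only [hτ0]
            rw [if_pos h7, h8]
            simp only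
            rw [if_pos h9, h10, hj]
            simp only
            rw [h11]
            exact hx
          · left
            rw [hS2, mem_biUnion]
            refine ⟨f h, mem_filter.2 ⟨mem_univ _, fun j hj => hk ⟨j, hj⟩⟩,
              mem_filter.2 ⟨mem_univ _, hAtt, h, hh, rfl⟩⟩
      · rw [mem_union]
        left
        rcases Bool.dichotomy (P t) with hPt | hPt
        · exfalso
          apply hno t htop
          rw [hτN t (fun h => by rw [hPt] at h; simp at h)]
          simp only [hτ0]
          rw [if_neg hAtt, if_pos ⟨hAt', hLt, hPt⟩]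
        · have hm := hGrmem t hAt' hLt hAtt hPt
          rw [hS1, mem_biUnion]
          refine ⟨sh t, mem_univ _, ?_⟩
          by_cases hbig : Tt ≤ (Gr (sh t)).card
          · exfalso
            obtain ⟨x, hx, hxt⟩ := (hσ (sh t) ⟨t, hm⟩).2.1 t hm
            obtain ⟨_, x1, x2, x3, x4, x5⟩ := mem_filter.1 hx
            apply hno x (hcod.nl x x2).1
            rw [hτP x ⟨x1, x2, x3, x4⟩, x5, if_pos hbig, hxt]
          · rw [if_neg hbig]
            exact hm
    have h5 := card_union_le S2 S3
    have h6 := (card_le_card hsub).trans (card_union_le S1 (S2 ∪ S3))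
    have h7 := h6.trans (show S1.card + (S2 ∪ S3).card ≤ 2 ^ N * Tt +
      ((k / d + 1) ^ (2 ^ N) * k + k * (2 ^ N * d)) by omega)
    refine le_trans (le_of_eq (congrArg card ?_)) h7
    ext x
    simp only [mem_filter]

end Pool.Agent.PSY
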