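import Mathlib

/-!
# Rooted forests, partial colourings (asymptotic equality of the achromatic numbers of a forest)
-/

open Finset

set_option autoImplicit false

namespace Pool.Agent.PSY

open scoped Classical

/-- A rooted forest: every vertex has at most one parent and the rank drops towards the parent.
The edges are the pairs (vertex, parent). -/
structure RF (V : Type) where
  /-- the parent -/
  par : V → Option V
  /-- the rank -/
  rk : V → ℕ
  lt : ∀ v u, par v = some u → rk u < rk v

variable {V : Type}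

/-- The number of children. -/
noncomputable def ch [Fintype V] (F : RF V) (u : V) : ℕ :=
  (univ.filter fun v => F.par v = some u).card

/-- A partial colouring is proper. -/
def Proper {k : ℕ} (F : RF V) (g : V → Option (Fin k)) : Prop :=
  ∀ v u a, F.par v = some u → g v = some a → g u ≠ some a

/-- Some edge has the colours `i` and `j` at its ends. -/
def Seen {k : ℕ} (F : RF V) (g : V → Option (Fin k)) (i j : Fin k) : Prop :=
  ∃ v u, F.par v = some u ∧ ((g v = some i ∧ g u = some j) ∨ (g v = some j ∧ g u = some i))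

lemma Seen.symm {k : ℕ} {F : RF V} {g : V → Option (Fin k)} {i j : Fin k} (h : Seen F g i j) :
    Seen F g j i := by
  obtain ⟨v, u, h1, h2⟩ := h
  exact ⟨v, u, h1, h2.symm⟩

/-- The data of the repair step. `C` = kept colours, `Z` = dropped colours, `P i` = servers of
the colour `i`, `Sel` = selected edges (given by their lower ends). -/
structure RData [Fintype V] {k : ℕ} (ρ : ℝ) (K0 : ℕ) (F : RF V) (g : V → Option (Fin k))
    (C Z : Finset (Fin k)) (P : Fin k → Finset V) (Sel : Finset V) : Prop where
  proper : Proper F g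
  disj : Disjoint C Z
  par : ∀ i ∈ C, ∀ p ∈ P i, ∃ q, F.par p = some q ∧ g q = some i
  col : ∀ i ∈ C, ∀ p ∈ P i, ∃ z ∈ Z, g p = some z
  chs : ∀ i ∈ C, ∀ p ∈ P i, ch F p ≤ K0
  inj : ∀ i ∈ C, ∀ p ∈ P i, ∀ p' ∈ P i, g p = g p' → p = p'
  big : ∀ i ∈ C, ρ * k ≤ ((P i).card : ℝ)
  sel1 : ∀ i ∈ C, ∀ j ∈ C, i ≠ j → Seen F g i j →
    ∃ w ∈ Sel, ∃ u, F.par w = some u ∧ ((g w = some i ∧ g u = some j) ∨
      (g w = some j ∧ g u = some i))
  sel2 : ∀ w ∈ Sel, ∀ w' ∈ Sel, ∀ u u' a b, F.par w = some u → F.par w' = some u' →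
    ((g w = some a ∧ g u = some b) ∨ (g w = some b ∧ g u = some a)) →
    ((g w' = some a ∧ g u' = some b) ∨ (g w' = some b ∧ g u' = some a)) → w = w'
  selc : ∀ w ∈ Sel, ∃ a, g w = some a

/-- At least half of the servers of `i` have a child of colour `j`. -/
def Blk [Fintype V] {k : ℕ} (F : RF V) (g : V → Option (Fin k)) (P : Fin k → Finset V)
    (i j : Fin k) : Prop :=
  (P i).card ≤ 2 * ((P i).filter fun p => ∃ u, F.par u = some p ∧ g u = some j).card

/-- The missing pair `i < j` is in conflict. -/
def Conf [Fintype V] {k : ℕ} (F : RF V) (g : V → Option (Fin k)) (P : Fin k → Finset V)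
    (C : Finset (Fin k)) (i j : Fin k) : Prop :=
  i ∈ C ∧ j ∈ C ∧ i < j ∧ ¬ Seen F g i j ∧ Blk F g P i j ∧ Blk F g P j i

/-- `u` is a `j`-coloured child of the server `p`. -/
def UC {k : ℕ} (F : RF V) (g : V → Option (Fin k)) (p : V) (j : Fin k) (u : V) : Prop :=
  F.par u = some p ∧ g u = some j

/-- The choice made in the first phase of the repair. -/
structure Phase1 [Fintype V] {k : ℕ} (K2 : ℕ) (F : RF V) (g : V → Option (Fin k))
    (C : Finset (Fin k)) (P : Fin k → Finset V) (Sel : Finset V)
    (π : Fin k → Fin k → V) : Prop where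
  mem : ∀ i j, Conf F g P C i j → π i j ∈ P i
  inj : ∀ i j j', Conf F g P C i j → Conf F g P C i j' → π i j = π i j' → j = j'
  ok : ∀ i j, Conf F g P C i j → ∀ u w c, UC F g (π i j) j u → w ∈ Sel → F.par w = some u →
    g w = some c → c ∈ C → ¬ Blk F g P j c
  few : ∀ i j, Conf F g P C i j →
    (Sel.filter fun w => ∃ u, F.par w = some u ∧ UC F g (π i j) j u).card ≤ K2
  few' : ∀ i j, Conf F g P C i j →
    ((P j).filter fun w => ∃ u, F.par w = some u ∧ UC F g (π i j) j u).card ≤ K2
  sep : ∀ i j i' j', Conf F g P C i j → Conf F g P C i' j' →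
    ∀ u, F.par (π i j) = some u → ¬ UC F g (π i' j') j' u

/-- Top vertices and codes of the pieces; `L v` means that `v` is linked to its parent. -/
structure Codes (F : RF V) (L : V → Prop) (D : ℕ) (top : V → V) (code : V → ℕ) : Prop where
  nl : ∀ v, ¬ L v → top v = v ∧ code v = 0
  li : ∀ v u, L v → F.par v = some u →
    top v = top u ∧ code v ≠ 0 ∧ code u = (code v - 1) / (D + 1)
  inj : ∀ v w, top v = top w → code v = code w → v = w
  rk : ∀ v, F.rk (top v) ≤ F.rk v
  topnl : ∀ v, ¬ L (top v)

/-- The shape of the piece with top `t`: the set of its codes. -/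
noncomputable def shape [Fintype V] (top : V → V) (code : V → ℕ) (N : ℕ) (t : V) :
    Finset (Fin N) :=
  univ.filter fun c => ∃ v, top v = t ∧ code v = c

end Pool.Agent.PSY
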