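import Pool.Agent.PSY.Choice
import Pool.Agent.PSY.Blk

open Finset

set_option autoImplicit false

namespace Pool.Agent.PSY

open scoped Classical

section

variable {V : Type} [Fintype V] {k : ℕ} {ρ : ℝ} {K0 : ℕ} {F : RF V}
    {g : V → Option (Fin k)} {C Z : Finset (Fin k)} {P : Fin k → Finset V} {Sel : Finset V}

omit [Fintype V] in
theorem p1_sum_wt (S : Finset V) (j : Fin k) (hS : ∀ w ∈ S, ∃ a, g w = some a)
    (hinj : ∀ w ∈ S, ∀ w' ∈ S, ∀ u u', F.par w = some u → F.par w' = some u' → g u = some j →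
      g u' = some j → g w = g w' → w = w') (Q : Finset V) :
    ∑ p ∈ Q, (S.filter fun w => ∃ u, F.par w = some u ∧ UC F g p j u).card ≤ k := by
  rw [← Finset.card_biUnion]
  · have h1 : (Q.biUnion fun p => S.filter fun w => ∃ u, F.par w = some u ∧ UC F g p j u).card ≤
        (univ : Finset (Fin k)).card := by
      refine Finset.card_le_card_of_injOn (fun w => (g w).getD j) (fun _ _ => mem_coe.2 (mem_univ _)) ?_
      intro w hw w' hw' he
      obtain ⟨p, -, hw⟩ := mem_biUnion.1 (mem_coe.1 hw)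
      obtain ⟨p', -, hw'⟩ := mem_biUnion.1 (mem_coe.1 hw')
      obtain ⟨hwS, u, hu, huc⟩ := mem_filter.1 hw
      obtain ⟨hwS', u', hu', huc'⟩ := mem_filter.1 hw'
      obtain ⟨a, ha⟩ := hS w hwS
      obtain ⟨a', ha'⟩ := hS w' hwS'
      refine hinj w hwS w' hwS' u u' hu hu' huc.2 huc'.2 ?_
      simp only [ha, ha', Option.getD_some] at he ⊢
      rw [he]
    simpa using h1
  · intro p _ p' _ hne
    refine Finset.disjoint_left.2 fun w hw hw' => hne ?_
    obtain ⟨_, u, hu, huc⟩ := mem_filter.1 hw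
    obtain ⟨_, u', hu', huc'⟩ := mem_filter.1 hw'
    rw [hu, Option.some.injEq] at hu'
    subst hu'
    have h1 := huc.1
    rw [huc'.1, Option.some.injEq] at h1
    exact h1.symm

omit [Fintype V] in
theorem p1_card_heavy (S : Finset V) (j : Fin k) (hS : ∀ w ∈ S, ∃ a, g w = some a)
    (hinj : ∀ w ∈ S, ∀ w' ∈ S, ∀ u u', F.par w = some u → F.par w' = some u' → g u = some j →
      g u' = some j → g w = g w' → w = w') (Q : Finset V) (K2 : ℕ) :
    (K2 + 1) * (Q.filter fun p =>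
      ¬ (S.filter fun w => ∃ u, F.par w = some u ∧ UC F g p j u).card ≤ K2).card ≤ k := by
  refine le_trans ?_ (p1_sum_wt S j hS hinj Q)
  rw [mul_comm, ← smul_eq_mul, ← Finset.sum_const]
  refine le_trans (Finset.sum_le_sum fun p hp => ?_)
    (Finset.sum_le_sum_of_subset (Finset.filter_subset _ _))
  have := (mem_filter.1 hp).2
  omega

theorem p1_card_notok (h : RData ρ K0 F g C Z P Sel) (hρ : 0 < ρ) (j : Fin k) (hj : j ∈ C)
    (Q : Finset V) :
    (Q.filter fun p => ¬ ∀ u w c, UC F g p j u → w ∈ Sel → F.par w = some u →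
      g w = some c → c ∈ C → ¬ Blk F g P j c).card ≤ 2 * K0 := by
  have hsub : (Q.filter fun p => ¬ ∀ u w c, UC F g p j u → w ∈ Sel → F.par w = some u →
      g w = some c → c ∈ C → ¬ Blk F g P j c) ⊆
      (univ.filter fun c => Blk F g P j c).biUnion fun c => univ.filter fun p =>
        ∃ u w, UC F g p j u ∧ w ∈ Sel ∧ F.par w = some u ∧ g w = some c := by
    intro p hp
    have h1 := (mem_filter.1 hp).2
    push Not at h1
    obtain ⟨u, w, c, h2, h3, h4, h5, -, h7⟩ := h1
    exact mem_biUnion.2 ⟨c, mem_filter.2 ⟨mem_univ _, h7⟩, mem_filter.2 ⟨mem_univ _, u, w, h2, h3,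
      h4, h5⟩⟩
  refine (Finset.card_le_card hsub).trans ?_
  refine (Finset.card_biUnion_le_card_mul _ _ 1 fun c _ => ?_).trans ?_
  · refine Finset.card_le_one.2 fun p hp p' hp' => ?_
    obtain ⟨-, u, w, h1, h2, h3, h4⟩ := mem_filter.1 hp
    obtain ⟨-, u', w', h1', h2', h3', h4'⟩ := mem_filter.1 hp'
    have hw : w = w' := h.sel2 w h2 w' h2' u u' c j h3 h3' (Or.inl ⟨h4, h1.2⟩)
      (Or.inl ⟨h4', h1'.2⟩)
    subst hw
    rw [h3, Option.some.injEq] at h3'
    subst h3'
    have h5 := h1.1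
    rw [h1'.1, Option.some.injEq] at h5
    exact h5.symm
  · rw [mul_one]
    exact blk_card h hρ j hj

/-- the options of a task -/
noncomputable def p1Opt (K2 : ℕ) (F : RF V) (g : V → Option (Fin k)) (C : Finset (Fin k))
    (P : Fin k → Finset V) (Sel : Finset V) (i j : Fin k) : Finset V :=
  (P i).filter fun p => (∀ u w c, UC F g p j u → w ∈ Sel → F.par w = some u →
      g w = some c → c ∈ C → ¬ Blk F g P j c) ∧
    (Sel.filter fun w => ∃ u, F.par w = some u ∧ UC F g p j u).card ≤ K2 ∧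
    ((P j).filter fun w => ∃ u, F.par w = some u ∧ UC F g p j u).card ≤ K2

theorem p1_card_opt (h : RData ρ K0 F g C Z P Sel) (hρ : 0 < ρ) (K2 : ℕ) (i j : Fin k)
    (hj : j ∈ C) :
    (P i).card ≤ (p1Opt K2 F g C P Sel i j).card + 2 * K0 +
      ((P i).filter fun p =>
        ¬ (Sel.filter fun w => ∃ u, F.par w = some u ∧ UC F g p j u).card ≤ K2).card +
      ((P i).filter fun p =>
        ¬ ((P j).filter fun w => ∃ u, F.par w = some u ∧ UC F g p j u).card ≤ K2).card := by
  have h1 := p1_card_notok h hρ j hj (P i)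
  have hsub : P i ⊆ ((p1Opt K2 F g C P Sel i j ∪
      ((P i).filter fun p => ¬ ∀ u w c, UC F g p j u → w ∈ Sel → F.par w = some u →
        g w = some c → c ∈ C → ¬ Blk F g P j c)) ∪
      ((P i).filter fun p =>
        ¬ (Sel.filter fun w => ∃ u, F.par w = some u ∧ UC F g p j u).card ≤ K2)) ∪
      ((P i).filter fun p =>
        ¬ ((P j).filter fun w => ∃ u, F.par w = some u ∧ UC F g p j u).card ≤ K2) := by
    intro p hp
    by_cases c1 : ∀ u w c, UC F g p j u → w ∈ Sel → F.par w = some u →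
        g w = some c → c ∈ C → ¬ Blk F g P j c
    · by_cases c2 : (Sel.filter fun w => ∃ u, F.par w = some u ∧ UC F g p j u).card ≤ K2
      · by_cases c3 : ((P j).filter fun w => ∃ u, F.par w = some u ∧ UC F g p j u).card ≤ K2
        · exact mem_union_left _ (mem_union_left _ (mem_union_left _
            (mem_filter.2 ⟨hp, c1, c2, c3⟩)))
        · exact mem_union_right _ (mem_filter.2 ⟨hp, c3⟩)
      · exact mem_union_left _ (mem_union_right _ (mem_filter.2 ⟨hp, c2⟩))
    · exact mem_union_left _ (mem_union_left _ (mem_union_right _ (mem_filter.2 ⟨hp, c1⟩)))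
  have h2 := Finset.card_le_card hsub
  have h3 := Finset.card_union_le ((p1Opt K2 F g C P Sel i j ∪
      ((P i).filter fun p => ¬ ∀ u w c, UC F g p j u → w ∈ Sel → F.par w = some u →
        g w = some c → c ∈ C → ¬ Blk F g P j c)) ∪
      ((P i).filter fun p =>
        ¬ (Sel.filter fun w => ∃ u, F.par w = some u ∧ UC F g p j u).card ≤ K2))
      ((P i).filter fun p =>
        ¬ ((P j).filter fun w => ∃ u, F.par w = some u ∧ UC F g p j u).card ≤ K2)
  have h4 := Finset.card_union_le (p1Opt K2 F g C P Sel i j ∪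
      ((P i).filter fun p => ¬ ∀ u w c, UC F g p j u → w ∈ Sel → F.par w = some u →
        g w = some c → c ∈ C → ¬ Blk F g P j c))
      ((P i).filter fun p =>
        ¬ (Sel.filter fun w => ∃ u, F.par w = some u ∧ UC F g p j u).card ≤ K2)
  have h5 := Finset.card_union_le (p1Opt K2 F g C P Sel i j)
      ((P i).filter fun p => ¬ ∀ u w c, UC F g p j u → w ∈ Sel → F.par w = some u →
        g w = some c → c ∈ C → ¬ Blk F g P j c)
  omega

/-- incompatibility of two choices -/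
def p1Rel (F : RF V) (g : V → Option (Fin k)) (x : Fin k × Fin k) (p : V) (x' : Fin k × Fin k)
    (p' : V) : Prop :=
  (x.1 = x'.1 ∧ p = p') ∨ (∃ u, F.par p = some u ∧ UC F g p' x'.2 u) ∨
    (∃ u, F.par p' = some u ∧ UC F g p x.2 u)

omit [Fintype V] in
theorem p1Rel_symm (x : Fin k × Fin k) (p : V) (x' : Fin k × Fin k) (p' : V)
    (h : p1Rel F g x p x' p') : p1Rel F g x' p' x p := by
  rcases h with h | h | h
  · exact Or.inl ⟨h.1.symm, h.2.symm⟩
  · exact Or.inr (Or.inr h)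
  · exact Or.inr (Or.inl h)

theorem p1_count (h : RData ρ K0 F g C Z P Sel) (K2 : ℕ) (x x' : Fin k × Fin k) (hx : x.1 ∈ C)
    (hx' : x'.1 ∈ C) (p' : V) (hp' : p' ∈ p1Opt K2 F g C P Sel x'.1 x'.2) :
    ((p1Opt K2 F g C P Sel x.1 x.2).filter fun p => p1Rel F g x p x' p').card ≤
      (if x.1 = x'.1 then 1 else 0) + (if x'.2 = x.1 then K2 else 0) +
        (if x'.1 = x.2 then 1 else 0) := by
  obtain ⟨hp'P, -, -, hfew⟩ := mem_filter.1 hp'
  have hsub : ((p1Opt K2 F g C P Sel x.1 x.2).filter fun p => p1Rel F g x p x' p') ⊆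
      (((P x.1).filter fun p => x.1 = x'.1 ∧ p = p') ∪
        ((P x.1).filter fun p => ∃ u, F.par p = some u ∧ UC F g p' x'.2 u)) ∪
        ((P x.1).filter fun p => ∃ u, F.par p' = some u ∧ UC F g p x.2 u) := by
    intro p hp
    obtain ⟨h1, h2⟩ := mem_filter.1 hp
    have hpP : p ∈ P x.1 := (mem_filter.1 h1).1
    rcases h2 with h2 | h2 | h2
    · exact mem_union_left _ (mem_union_left _ (mem_filter.2 ⟨hpP, h2⟩))
    · exact mem_union_left _ (mem_union_right _ (mem_filter.2 ⟨hpP, h2⟩))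
    · exact mem_union_right _ (mem_filter.2 ⟨hpP, h2⟩)
  refine (Finset.card_le_card hsub).trans ((Finset.card_union_le _ _).trans ?_)
  refine Nat.add_le_add ((Finset.card_union_le _ _).trans (Nat.add_le_add ?_ ?_)) ?_
  · split_ifs with h1
    · refine Finset.card_le_one.2 fun a ha b hb => ?_
      rw [(mem_filter.1 ha).2.2, (mem_filter.1 hb).2.2]
    · rw [Nat.le_zero, Finset.card_eq_zero, Finset.filter_eq_empty_iff]
      exact fun a _ h2 => h1 h2.1
  · split_ifs with h1
    · rw [← h1]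
      exact hfew
    · rw [Nat.le_zero, Finset.card_eq_zero, Finset.filter_eq_empty_iff]
      rintro a ha ⟨u, hu, huc⟩
      obtain ⟨q, hq, hq'⟩ := h.par x.1 hx a ha
      rw [hu, Option.some.injEq] at hq
      subst hq
      have h3 := huc.2
      rw [hq', Option.some.injEq] at h3
      exact h1 h3.symm
  · split_ifs with h1
    · refine Finset.card_le_one.2 fun a ha b hb => ?_
      obtain ⟨-, u, hu, huc⟩ := mem_filter.1 ha
      obtain ⟨-, u', hu', huc'⟩ := mem_filter.1 hb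
      rw [hu, Option.some.injEq] at hu'
      subst hu'
      have h3 := huc.1
      rw [huc'.1, Option.some.injEq] at h3
      exact h3.symm
    · rw [Nat.le_zero, Finset.card_eq_zero, Finset.filter_eq_empty_iff]
      rintro a - ⟨u, hu, huc⟩
      obtain ⟨q, hq, hq'⟩ := h.par x'.1 hx' p' hp'P
      rw [hu, Option.some.injEq] at hq
      subst hq
      have h3 := huc.2
      rw [hq', Option.some.injEq] at h3
      exact h1 h3

theorem p1_sum (h : RData ρ K0 F g C Z P Sel) (hρ : 0 < ρ) (K2 : ℕ)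
    (x : {x : Fin k × Fin k // Conf F g P C x.1 x.2}) :
    ∑ x' : {x : Fin k × Fin k // Conf F g P C x.1 x.2},
      ((if x.1.1 = x'.1.1 then 1 else 0) + (if x'.1.2 = x.1.1 then K2 else 0) +
        (if x'.1.1 = x.1.2 then 1 else 0)) ≤ 2 * K0 * (2 + K2) := by
  rw [Finset.sum_add_distrib, Finset.sum_add_distrib]
  have hi := x.2.1
  have hj := x.2.2.1
  have e1 : ∑ x' : {x : Fin k × Fin k // Conf F g P C x.1 x.2},
      (if x.1.1 = x'.1.1 then 1 else 0) ≤ 2 * K0 := by
    rw [← Finset.card_filter]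
    refine le_trans ?_ (blk_card h hρ x.1.1 hi)
    refine Finset.card_le_card_of_injOn (fun x' => x'.1.2) ?_ ?_
    · intro x' hx'
      have h1 := (mem_filter.1 (mem_coe.1 hx')).2
      refine mem_coe.2 (mem_filter.2 ⟨mem_univ _, ?_⟩)
      rw [h1]
      exact x'.2.2.2.2.2.1
    · intro x' hx' x'' hx'' he
      have h1 := (mem_filter.1 (mem_coe.1 hx')).2
      have h2 := (mem_filter.1 (mem_coe.1 hx'')).2
      exact Subtype.ext (Prod.ext (h1.symm.trans h2) he)
  have e2 : ∑ x' : {x : Fin k × Fin k // Conf F g P C x.1 x.2},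
      (if x'.1.2 = x.1.1 then K2 else 0) ≤ 2 * K0 * K2 := by
    rw [← Finset.sum_filter, Finset.sum_const, smul_eq_mul]
    refine Nat.mul_le_mul_right _ (le_trans ?_ (blk_card h hρ x.1.1 hi))
    refine Finset.card_le_card_of_injOn (fun x' => x'.1.1) ?_ ?_
    · intro x' hx'
      have h1 := (mem_filter.1 (mem_coe.1 hx')).2
      refine mem_coe.2 (mem_filter.2 ⟨mem_univ _, ?_⟩)
      rw [← h1]
      exact x'.2.2.2.2.2.2
    · intro x' hx' x'' hx'' he
      have h1 := (mem_filter.1 (mem_coe.1 hx')).2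
      have h2 := (mem_filter.1 (mem_coe.1 hx'')).2
      exact Subtype.ext (Prod.ext he (h1.trans h2.symm))
  have e3 : ∑ x' : {x : Fin k × Fin k // Conf F g P C x.1 x.2},
      (if x'.1.1 = x.1.2 then 1 else 0) ≤ 2 * K0 := by
    rw [← Finset.card_filter]
    refine le_trans ?_ (blk_card h hρ x.1.2 hj)
    refine Finset.card_le_card_of_injOn (fun x' => x'.1.2) ?_ ?_
    · intro x' hx'
      have h1 := (mem_filter.1 (mem_coe.1 hx')).2
      refine mem_coe.2 (mem_filter.2 ⟨mem_univ _, ?_⟩)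
      rw [← h1]
      exact x'.2.2.2.2.2.1
    · intro x' hx' x'' hx'' he
      have h1 := (mem_filter.1 (mem_coe.1 hx')).2
      have h2 := (mem_filter.1 (mem_coe.1 hx'')).2
      exact Subtype.ext (Prod.ext (h1.trans h2.symm) he)
  calc _ ≤ 2 * K0 + 2 * K0 * K2 + 2 * K0 := Nat.add_le_add (Nat.add_le_add e1 e2) e3
    _ = 2 * K0 * (2 + K2) := by ring

end

theorem phase1 (ρ : ℝ) (hρ : 0 < ρ) (K0 : ℕ) : ∃ K2 k0 : ℕ, ∀ k : ℕ, k0 ≤ k →
    ∀ (V : Type) [Fintype V] [Nonempty V] (F : RF V) (g : V → Option (Fin k))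
      (C Z : Finset (Fin k))
      (P : Fin k → Finset V) (Sel : Finset V), RData ρ K0 F g C Z P Sel →
      ∃ π : Fin k → Fin k → V, Phase1 K2 F g C P Sel π := by
  obtain ⟨K2, hK2⟩ := exists_nat_ge (4 / ρ)
  obtain ⟨k0, hk0⟩ := exists_nat_gt (2 * (2 * K0 * (3 + K2)) / ρ)
  refine ⟨K2, k0, fun k hk V _ _ F g C Z P Sel h => ?_⟩
  have hkr : (2 * (2 * K0 * (3 + K2)) : ℝ) < ρ * k := by
    have h1 : (2 * (2 * K0 * (3 + K2)) / ρ : ℝ) < k := hk0.trans_le (by exact_mod_cast hk)
    rw [div_lt_iff₀ hρ] at h1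
    linarith
  have hK2' : 4 ≤ ρ * (K2 + 1) := by
    rw [div_le_iff₀ hρ] at hK2
    linarith
  -- the number of options
  have hopt : ∀ x : {x : Fin k × Fin k // Conf F g P C x.1 x.2},
      2 * K0 * (2 + K2) < (p1Opt K2 F g C P Sel x.1.1 x.1.2).card := by
    intro x
    have hi := x.2.1
    have hj := x.2.2.1
    have h1 := p1_card_opt h hρ K2 x.1.1 x.1.2 hj
    have h2 := p1_card_heavy Sel x.1.2 h.selc (fun w hw w' hw' u u' hu hu' hgu hgu' he => by
      obtain ⟨a, ha⟩ := h.selc w hw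
      exact h.sel2 w hw w' hw' u u' a x.1.2 hu hu' (Or.inl ⟨ha, hgu⟩)
        (Or.inl ⟨he ▸ ha, hgu'⟩)) (P x.1.1) K2
    have h3 := p1_card_heavy (F := F) (P x.1.2) x.1.2 (fun w hw => by
      obtain ⟨z, -, hz⟩ := h.col x.1.2 hj w hw
      exact ⟨z, hz⟩) (fun w hw w' hw' u u' hu hu' hgu hgu' he =>
        h.inj x.1.2 hj w hw w' hw' he) (P x.1.1) K2
    have h4 := h.big x.1.1 hi
    set a := ((P x.1.1).filter fun p =>
        ¬ (Sel.filter fun w => ∃ u, F.par w = some u ∧ UC F g p x.1.2 u).card ≤ K2).card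
    set b := ((P x.1.1).filter fun p =>
        ¬ ((P x.1.2).filter fun w => ∃ u, F.par w = some u ∧ UC F g p x.1.2 u).card ≤ K2).card
    have h1r : ((P x.1.1).card : ℝ) ≤ (p1Opt K2 F g C P Sel x.1.1 x.1.2).card + 2 * K0 + a + b := by
      exact_mod_cast h1
    have h2r : ((K2 : ℝ) + 1) * a ≤ k := by exact_mod_cast h2
    have h3r : ((K2 : ℝ) + 1) * b ≤ k := by exact_mod_cast h3
    have h2s : 4 * (a : ℝ) ≤ ρ * k := by
      calc 4 * (a : ℝ) ≤ ρ * (K2 + 1) * a := by gcongr
        _ = ρ * ((K2 + 1) * a) := by ring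
        _ ≤ ρ * k := by gcongr
    have h3s : 4 * (b : ℝ) ≤ ρ * k := by
      calc 4 * (b : ℝ) ≤ ρ * (K2 + 1) * b := by gcongr
        _ = ρ * ((K2 + 1) * b) := by ring
        _ ≤ ρ * k := by gcongr
    have : (2 * K0 * (2 + K2) : ℝ) < (p1Opt K2 F g C P Sel x.1.1 x.1.2).card := by
      nlinarith
    exact_mod_cast this
  obtain ⟨π, hπ, hR⟩ := greedy_choice
    (fun x : {x : Fin k × Fin k // Conf F g P C x.1 x.2} => p1Opt K2 F g C P Sel x.1.1 x.1.2)
    (fun x p x' p' => p1Rel F g x.1 p x'.1 p')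
    (fun x p x' p' hh => p1Rel_symm _ _ _ _ hh)
    (fun x x' => (if x.1.1 = x'.1.1 then 1 else 0) + (if x'.1.2 = x.1.1 then K2 else 0) +
        (if x'.1.1 = x.1.2 then 1 else 0))
    (fun x x' p' _ hp' => p1_count h K2 x.1 x'.1 x.2.1 x'.2.1 p' hp')
    (fun x => lt_of_le_of_lt ((Finset.sum_le_sum_of_subset (fun y _ => Finset.mem_univ y)).trans
      (p1_sum h hρ K2 x)) (hopt x))
  let v0 : V := Classical.arbitrary V
  refine ⟨fun i j => if hc : Conf F g P C i j then π ⟨(i, j), hc⟩ else v0, ?_⟩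
  have hval : ∀ i j (hc : Conf F g P C i j),
      (if hc : Conf F g P C i j then π ⟨(i, j), hc⟩ else v0) = π ⟨(i, j), hc⟩ := by
    intro i j hc
    rw [dif_pos hc]
  refine ⟨?_, ?_, ?_, ?_, ?_, ?_⟩
  · intro i j hc
    simp only [hval i j hc]
    exact (mem_filter.1 (hπ ⟨(i, j), hc⟩)).1
  · intro i j j' hc hc' he
    simp only [hval i j hc, hval i j' hc'] at he
    by_contra hne
    exact hR ⟨(i, j), hc⟩ ⟨(i, j'), hc'⟩ (fun hh => hne (congrArg (fun y => y.1.2) hh))
      (Or.inl ⟨rfl, he⟩)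
  · intro i j hc
    simp only [hval i j hc]
    exact (mem_filter.1 (hπ ⟨(i, j), hc⟩)).2.1
  · intro i j hc
    simp only [hval i j hc]
    exact (mem_filter.1 (hπ ⟨(i, j), hc⟩)).2.2.1
  · intro i j hc
    simp only [hval i j hc]
    exact (mem_filter.1 (hπ ⟨(i, j), hc⟩)).2.2.2
  · intro i j i' j' hc hc' u hu huc
    simp only [hval i j hc, hval i' j' hc'] at hu huc
    by_cases hne : (⟨(i, j), hc⟩ : {x : Fin k × Fin k // Conf F g P C x.1 x.2}) = ⟨(i', j'), hc'⟩
    · rw [← hne] at huc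
      have h1 := F.lt _ _ hu
      have h2 := F.lt _ _ huc.1
      omega
    · exact hR _ _ hne (Or.inr (Or.inl ⟨u, hu, huc⟩))

end Pool.Agent.PSY
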