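import Pool.Agent.PSY.Choice
import Pool.Agent.PSY.Blk

open Finset

set_option autoImplicit false

namespace Pool.Agent.PSY

open scoped Classical

/-- The vertices that lose their colour: the children of a vertex chosen in the first phase with
the colour that this vertex gets. -/
private def InUA {V : Type} [Fintype V] {k : ℕ} (F : RF V) (g : V → Option (Fin k))
    (C : Finset (Fin k)) (P : Fin k → Finset V) (π : Fin k → Fin k → V) (u : V) : Prop :=
  ∃ i j, Conf F g P C i j ∧ UC F g (π i j) j u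

/-- The pair `{a, b}` has to be realised by a server of `a`. -/
private def Task {V : Type} [Fintype V] {k : ℕ} (F : RF V) (g : V → Option (Fin k))
    (C : Finset (Fin k)) (P : Fin k → Finset V) (Sel : Finset V) (π : Fin k → Fin k → V)
    (a b : Fin k) : Prop :=
  b ∈ C ∧ b ≠ a ∧ ¬ Blk F g P a b ∧ (¬ Seen F g a b ∨ ∃ i w u, Conf F g P C i a ∧
    UC F g (π i a) a u ∧ w ∈ Sel ∧ F.par w = some u ∧ g w = some b)

/-- The servers of `a` that can be used for the task `(a, b)`. -/
private noncomputable def Opt {V : Type} [Fintype V] {k : ℕ} (F : RF V) (g : V → Option (Fin k))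
    (C : Finset (Fin k)) (P : Fin k → Finset V) (π : Fin k → Fin k → V)
    (a b : Fin k) : Finset V :=
  (P a).filter fun p => (¬ ∃ u, F.par u = some p ∧ g u = some b) ∧
    (∀ j, Conf F g P C a j → p ≠ π a j) ∧ ∀ q, F.par p = some q → ¬ InUA F g C P π q

private theorem task_card {V : Type} [Fintype V] {k : ℕ} {ρ σ : ℝ} {K0 K2 : ℕ} {F : RF V}
    {g : V → Option (Fin k)} {C Z : Finset (Fin k)} {P : Fin k → Finset V} {Sel : Finset V}
    {π : Fin k → Fin k → V} (h : RData ρ K0 F g C Z P Sel) (hρ : 0 < ρ)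
    (hm : ∀ i ∈ C, ((C.filter fun j => j ≠ i ∧ ¬ Seen F g i j).card : ℝ) ≤ σ * (k : ℝ))
    (h1 : Phase1 K2 F g C P Sel π) (a : Fin k) (ha : a ∈ C) :
    ((univ.filter fun b => Task F g C P Sel π a b).card : ℝ) ≤ σ * k + 2 * K0 * K2 := by
  set B : Finset (Fin k) := (univ.filter fun i => Blk F g P a i).biUnion fun i =>
    if Conf F g P C i a then
      ((Sel.filter fun w => ∃ u, F.par w = some u ∧ UC F g (π i a) a u).image
        fun w => (g w).getD a) else ∅ with hB
  have hBc : B.card ≤ 2 * K0 * K2 := by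
    refine (card_biUnion_le_card_mul _ _ K2 ?_).trans
      (Nat.mul_le_mul_right _ (blk_card h hρ a ha))
    intro i _
    by_cases hc : Conf F g P C i a
    · rw [if_pos hc]
      exact card_image_le.trans (h1.few i a hc)
    · rw [if_neg hc]
      simp
  have hsub : (univ.filter fun b => Task F g C P Sel π a b) ⊆
      (C.filter fun j => j ≠ a ∧ ¬ Seen F g a j) ∪ B := by
    intro b hb
    rw [mem_filter] at hb
    obtain ⟨-, hbC, hba, -, h2 | ⟨i, w, u, hc, hu, hw, hp, hg⟩⟩ := hb
    · exact mem_union_left _ (mem_filter.2 ⟨hbC, hba, h2⟩)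
    · refine mem_union_right _ ?_
      rw [hB, mem_biUnion]
      refine ⟨i, mem_filter.2 ⟨mem_univ _, hc.2.2.2.2.2⟩, ?_⟩
      rw [if_pos hc, mem_image]
      exact ⟨w, mem_filter.2 ⟨hw, u, hp, hu⟩, by rw [hg]; rfl⟩
  have h2 : ((univ.filter fun b => Task F g C P Sel π a b).card : ℝ) ≤
      ((C.filter fun j => j ≠ a ∧ ¬ Seen F g a j).card : ℝ) + (B.card : ℝ) := by
    exact_mod_cast (card_le_card hsub).trans (card_union_le _ _)
  have h3 : (B.card : ℝ) ≤ 2 * K0 * K2 := by exact_mod_cast hBc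
  linarith [hm a ha]

private theorem opt_card {V : Type} [Fintype V] {k : ℕ} {ρ : ℝ} {K0 K2 : ℕ} {F : RF V}
    {g : V → Option (Fin k)} {C Z : Finset (Fin k)} {P : Fin k → Finset V} {Sel : Finset V}
    {π : Fin k → Fin k → V} (h : RData ρ K0 F g C Z P Sel) (hρ : 0 < ρ)
    (h1 : Phase1 K2 F g C P Sel π) (a b : Fin k) (ha : a ∈ C) (hab : ¬ Blk F g P a b) :
    ρ * k / 2 ≤ ((Opt F g C P π a b).card : ℝ) + 2 * K0 + 2 * K0 * K2 := by
  set B1 := (P a).filter fun p => ∃ u, F.par u = some p ∧ g u = some b with hB1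
  set B2 : Finset V := (univ.filter fun j => Blk F g P a j).image fun j => π a j with hB2
  set B3 : Finset V := (univ.filter fun i => Blk F g P a i).biUnion fun i =>
    if Conf F g P C i a then
      ((P a).filter fun w => ∃ u, F.par w = some u ∧ UC F g (π i a) a u) else ∅ with hB3
  have hc1 : 2 * B1.card < (P a).card := by
    by_contra h2
    apply hab
    unfold Blk
    rw [not_lt] at h2
    convert h2
  have hc2 : B2.card ≤ 2 * K0 := card_image_le.trans (blk_card h hρ a ha)
  have hc3 : B3.card ≤ 2 * K0 * K2 := by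
    refine (card_biUnion_le_card_mul _ _ K2 ?_).trans
      (Nat.mul_le_mul_right _ (blk_card h hρ a ha))
    intro i _
    by_cases hc : Conf F g P C i a
    · rw [if_pos hc]
      exact h1.few' i a hc
    · rw [if_neg hc]
      simp
  have hsub : P a ⊆ Opt F g C P π a b ∪ (B1 ∪ (B2 ∪ B3)) := by
    intro p hp
    by_cases h2 : ∃ u, F.par u = some p ∧ g u = some b
    · exact mem_union_right _ (mem_union_left _ (mem_filter.2 ⟨hp, h2⟩))
    by_cases h3 : ∀ j, Conf F g P C a j → p ≠ π a j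
    · by_cases h4 : ∀ q, F.par p = some q → ¬ InUA F g C P π q
      · exact mem_union_left _ (mem_filter.2 ⟨hp, h2, h3, h4⟩)
      · push Not at h4
        obtain ⟨q, hq, i, j, hc, hu⟩ := h4
        obtain ⟨q', hq', hg⟩ := h.par a ha p hp
        have hqq : q = q' := by
          rw [hq] at hq'
          exact Option.some.inj hq'
        have hja : j = a := by
          have h5 := hu.2
          rw [hqq, hg] at h5
          exact (Option.some.inj h5).symm
        subst hja
        refine mem_union_right _ (mem_union_right _ (mem_union_right _ ?_))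
        rw [hB3, mem_biUnion]
        refine ⟨i, mem_filter.2 ⟨mem_univ _, hc.2.2.2.2.2⟩, ?_⟩
        rw [if_pos hc]
        exact mem_filter.2 ⟨hp, q, hq, hu⟩
    · push Not at h3
      obtain ⟨j, hc, hpj⟩ := h3
      refine mem_union_right _ (mem_union_right _ (mem_union_left _ ?_))
      rw [hB2, mem_image]
      exact ⟨j, mem_filter.2 ⟨mem_univ _, hc.2.2.2.2.1⟩, hpj.symm⟩
  have h2 := card_le_card hsub
  have h3 := card_union_le (Opt F g C P π a b) (B1 ∪ (B2 ∪ B3))
  have h4 := card_union_le B1 (B2 ∪ B3)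
  have h5 := card_union_le B2 B3
  have h6 : (P a).card ≤ 2 * ((Opt F g C P π a b).card + 2 * K0 + 2 * K0 * K2) := by omega
  have h7 : ((P a).card : ℝ) ≤ 2 * (((Opt F g C P π a b).card : ℝ) + 2 * K0 + 2 * K0 * K2) := by
    exact_mod_cast h6
  linarith [h.big a ha]

theorem phase2 (ρ : ℝ) (hρ : 0 < ρ) (K0 K2 : ℕ) : ∃ σ : ℝ, 0 < σ ∧ ∃ k0 : ℕ, ∀ k : ℕ, k0 ≤ k →
    ∀ (V : Type) [Fintype V] (F : RF V) (g : V → Option (Fin k)) (C Z : Finset (Fin k))
      (P : Fin k → Finset V) (Sel : Finset V) (π : Fin k → Fin k → V),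
      RData ρ K0 F g C Z P Sel →
      (∀ i ∈ C, ((C.filter fun j => j ≠ i ∧ ¬ Seen F g i j).card : ℝ) ≤ σ * (k : ℝ)) →
      Phase1 K2 F g C P Sel π →
      ∃ g' : V → Option (Fin k), Proper F g' ∧ (∀ v a, g' v = some a → a ∈ C) ∧
        ∀ i ∈ C, ∀ j ∈ C, i ≠ j → Seen F g' i j := by
  obtain ⟨k0, hk0⟩ := exists_nat_ge (4 * (2 * K0 + 4 * K0 * K2) / ρ)
  refine ⟨ρ / 4, by positivity, k0, ?_⟩
  intro k hk V _ F g C Z P Sel π h hm h1
  -- the choice of the servers
  have hbig : (2 * K0 + 4 * K0 * K2 : ℝ) ≤ ρ * k / 4 := by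
    have h2 : (4 * (2 * K0 + 4 * K0 * K2) / ρ : ℝ) ≤ k := hk0.trans (by exact_mod_cast hk)
    rw [div_le_iff₀ hρ] at h2
    linarith
  have hch : ∀ a : Fin k, ∃ ω : Fin k → V, a ∈ C →
      (∀ b, Task F g C P Sel π a b → ω b ∈ Opt F g C P π a b) ∧
      ∀ b b', Task F g C P Sel π a b → Task F g C P Sel π a b' → ω b = ω b' → b = b' := by
    intro a
    by_cases ha : a ∈ C
    · have hVne : Nonempty V := ⟨π a a⟩
      obtain ⟨ω, hω1, hω2⟩ := inj_choice (univ.filter fun b => Task F g C P Sel π a b)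
        (fun b => Opt F g C P π a b) (by
          intro b hb
          rw [mem_filter] at hb
          have h2 := task_card h hρ hm h1 a ha
          have h3 := opt_card h hρ h1 a b ha hb.2.2.2.1
          have h4 : ((univ.filter fun b => Task F g C P Sel π a b).card : ℝ) ≤
              ((Opt F g C P π a b).card : ℝ) := by linarith
          exact_mod_cast h4)
      refine ⟨ω, fun _ => ⟨fun b hb => hω1 b (mem_filter.2 ⟨mem_univ _, hb⟩), ?_⟩⟩
      intro b b' hb hb' he
      exact hω2 b (mem_filter.2 ⟨mem_univ _, hb⟩) b' (mem_filter.2 ⟨mem_univ _, hb'⟩) he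
    · obtain ⟨ω⟩ : Nonempty (Fin k → V) := ⟨π a⟩
      exact ⟨ω, fun hh => absurd hh ha⟩
  choose ω hω using hch
  -- servers
  have hS1 : ∀ i j, Conf F g P C i j → (∃ z ∈ Z, g (π i j) = some z) ∧
      ∃ q, F.par (π i j) = some q ∧ g q = some i := fun i j hc =>
    ⟨h.col i hc.1 _ (h1.mem i j hc), h.par i hc.1 _ (h1.mem i j hc)⟩
  have hOm : ∀ a ∈ C, ∀ b, Task F g C P Sel π a b → ω a b ∈ P a ∧
      (¬ ∃ u, F.par u = some (ω a b) ∧ g u = some b) ∧
      (∀ j, Conf F g P C a j → ω a b ≠ π a j) ∧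
      ∀ q, F.par (ω a b) = some q → ¬ InUA F g C P π q := by
    intro a ha b hb
    have h2 := (hω a ha).1 b hb
    rw [Opt, mem_filter] at h2
    exact h2
  have hS2 : ∀ a ∈ C, ∀ b, Task F g C P Sel π a b → (∃ z ∈ Z, g (ω a b) = some z) ∧
      ∃ q, F.par (ω a b) = some q ∧ g q = some a := fun a ha b hb =>
    ⟨h.col a ha _ (hOm a ha b hb).1, h.par a ha _ (hOm a ha b hb).1⟩
  have hZC : ∀ v z c, z ∈ Z → c ∈ C → g v = some z → g v ≠ some c := by
    intro v z c hz hc h2 h3
    rw [h2] at h3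
    have : z = c := Option.some.inj h3
    subst this
    exact disjoint_left.1 h.disj hc hz
  -- the new colouring
  set g' : V → Option (Fin k) := fun v =>
    if hx : ∃ j, ∃ i, Conf F g P C i j ∧ π i j = v then some hx.choose
    else if hx : ∃ b, ∃ a, a ∈ C ∧ Task F g C P Sel π a b ∧ ω a b = v then some hx.choose
    else if InUA F g C P π v then none
    else (g v).filter fun c => c ∈ C with hg'
  have hπ : ∀ i j, Conf F g P C i j → g' (π i j) = some j := by
    intro i j hc
    have hx : ∃ j', ∃ i', Conf F g P C i' j' ∧ π i' j' = π i j := ⟨j, i, hc, rfl⟩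
    have h2 : g' (π i j) = some hx.choose := dif_pos hx
    rw [h2]
    obtain ⟨i', hc', he⟩ := hx.choose_spec
    obtain ⟨-, q, hq, hgq⟩ := hS1 _ _ hc
    obtain ⟨-, q', hq', hgq'⟩ := hS1 _ _ hc'
    rw [he, hq] at hq'
    have hqq : q = q' := Option.some.inj hq'
    rw [← hqq, hgq] at hgq'
    have hii : i = i' := Option.some.inj hgq'
    subst hii
    rw [h1.inj _ _ _ hc' hc he]
  have hωc : ∀ a ∈ C, ∀ b, Task F g C P Sel π a b → g' (ω a b) = some b := by
    intro a ha b hb
    have hn : ¬ ∃ j', ∃ i', Conf F g P C i' j' ∧ π i' j' = ω a b := by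
      rintro ⟨j', i', hc', he⟩
      obtain ⟨-, q, hq, hgq⟩ := hS2 a ha b hb
      obtain ⟨-, q', hq', hgq'⟩ := hS1 _ _ hc'
      rw [he, hq] at hq'
      have hqq : q = q' := Option.some.inj hq'
      rw [← hqq, hgq] at hgq'
      have hii : a = i' := Option.some.inj hgq'
      subst hii
      exact (hOm a ha b hb).2.2.1 j' hc' he.symm
    have hx : ∃ b', ∃ a', a' ∈ C ∧ Task F g C P Sel π a' b' ∧ ω a' b' = ω a b :=
      ⟨b, a, ha, hb, rfl⟩
    have h2 : g' (ω a b) = some hx.choose := by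
      change (if hx : ∃ j, ∃ i, Conf F g P C i j ∧ π i j = ω a b then some hx.choose
        else if hx : ∃ b', ∃ a', a' ∈ C ∧ Task F g C P Sel π a' b' ∧ ω a' b' = ω a b then
          some hx.choose
        else if InUA F g C P π (ω a b) then none
        else (g (ω a b)).filter fun c => c ∈ C) = _
      rw [dif_neg hn, dif_pos hx]
    rw [h2]
    obtain ⟨a', ha', hb', he⟩ := hx.choose_spec
    obtain ⟨-, q, hq, hgq⟩ := hS2 a ha b hb
    obtain ⟨-, q', hq', hgq'⟩ := hS2 a' ha' _ hb'
    rw [he, hq] at hq'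
    have hqq : q = q' := Option.some.inj hq'
    rw [← hqq, hgq] at hgq'
    have hii : a = a' := Option.some.inj hgq'
    subst hii
    rw [(hω a ha).2 _ _ hb' hb he]
  have hcases : ∀ v x, g' v = some x →
      (∃ i, Conf F g P C i x ∧ π i x = v) ∨
      (∃ a, a ∈ C ∧ Task F g C P Sel π a x ∧ ω a x = v) ∨
      (¬ InUA F g C P π v ∧ g v = some x ∧ x ∈ C) := by
    intro v x hv
    by_cases hx : ∃ j, ∃ i, Conf F g P C i j ∧ π i j = v
    · obtain ⟨j, i, hc, rfl⟩ := hx
      rw [hπ i j hc] at hv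
      have := Option.some.inj hv
      subst this
      exact Or.inl ⟨i, hc, rfl⟩
    by_cases hy : ∃ b, ∃ a, a ∈ C ∧ Task F g C P Sel π a b ∧ ω a b = v
    · obtain ⟨b, a, ha, hb, rfl⟩ := hy
      rw [hωc a ha b hb] at hv
      have := Option.some.inj hv
      subst this
      exact Or.inr (Or.inl ⟨a, ha, hb, rfl⟩)
    right; right
    have h2 : g' v = if InUA F g C P π v then none else (g v).filter fun c => c ∈ C := by
      change (if hx : ∃ j, ∃ i, Conf F g P C i j ∧ π i j = v then some hx.choose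
        else if hx : ∃ b', ∃ a', a' ∈ C ∧ Task F g C P Sel π a' b' ∧ ω a' b' = v then
          some hx.choose
        else if InUA F g C P π v then none
        else (g v).filter fun c => c ∈ C) = _
      rw [dif_neg hx, dif_neg hy]
    rw [h2] at hv
    by_cases hu : InUA F g C P π v
    · rw [if_pos hu] at hv
      exact absurd hv (by simp)
    · rw [if_neg hu, Option.filter_eq_some_iff] at hv
      exact ⟨hu, hv.1, by simpa using hv.2⟩
  have hkeep : ∀ v x, g v = some x → x ∈ C → ¬ InUA F g C P π v → g' v = some x := by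
    intro v x hv hx hu
    have hn : ¬ ∃ j, ∃ i, Conf F g P C i j ∧ π i j = v := by
      rintro ⟨j, i, hc, rfl⟩
      obtain ⟨⟨z, hz, hgz⟩, -⟩ := hS1 i j hc
      exact hZC _ z x hz hx hgz hv
    have hn' : ¬ ∃ b, ∃ a, a ∈ C ∧ Task F g C P Sel π a b ∧ ω a b = v := by
      rintro ⟨b, a, ha, hb, rfl⟩
      obtain ⟨⟨z, hz, hgz⟩, -⟩ := hS2 a ha b hb
      exact hZC _ z x hz hx hgz hv
    change (if hx : ∃ j, ∃ i, Conf F g P C i j ∧ π i j = v then some hx.choose
      else if hx : ∃ b', ∃ a', a' ∈ C ∧ Task F g C P Sel π a' b' ∧ ω a' b' = v then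
        some hx.choose
      else if InUA F g C P π v then none
      else (g v).filter fun c => c ∈ C) = _
    rw [dif_neg hn, dif_neg hn', if_neg hu, Option.filter_eq_some_iff]
    exact ⟨hv, by simpa using hx⟩
  refine ⟨g', ?_, ?_, ?_⟩
  · -- proper
    intro v u x hp hv hu
    rcases hcases u x hu with ⟨i, hc, hiu⟩ | ⟨a, ha, ht, hau⟩ | ⟨hnu, hgu, hxC⟩
    · -- `u` is a server of the first kind
      obtain ⟨⟨z, hz, hgz⟩, -⟩ := hS1 i x hc
      rw [hiu] at hgz
      rcases hcases v x hv with ⟨i', hc', hiv⟩ | ⟨a', ha', ht', hav⟩ | ⟨hnv, hgv, hxC⟩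
      · obtain ⟨-, q, hq, hgq⟩ := hS1 i' x hc'
        rw [hiv, hp] at hq
        have hqu : u = q := Option.some.inj hq
        rw [← hqu] at hgq
        exact hZC u z i' hz hc'.1 hgz hgq
      · obtain ⟨-, q, hq, hgq⟩ := hS2 a' ha' x ht'
        rw [hav, hp] at hq
        have hqu : u = q := Option.some.inj hq
        rw [← hqu] at hgq
        exact hZC u z a' hz ha' hgz hgq
      · exact hnv ⟨i, x, hc, by rw [hiu]; exact hp, hgv⟩
    · -- `u` is a server of the second kind
      obtain ⟨⟨z, hz, hgz⟩, -⟩ := hS2 a ha x ht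
      rw [hau] at hgz
      rcases hcases v x hv with ⟨i', hc', hiv⟩ | ⟨a', ha', ht', hav⟩ | ⟨hnv, hgv, hxC⟩
      · obtain ⟨-, q, hq, hgq⟩ := hS1 i' x hc'
        rw [hiv, hp] at hq
        have hqu : u = q := Option.some.inj hq
        rw [← hqu] at hgq
        exact hZC u z i' hz hc'.1 hgz hgq
      · obtain ⟨-, q, hq, hgq⟩ := hS2 a' ha' x ht'
        rw [hav, hp] at hq
        have hqu : u = q := Option.some.inj hq
        rw [← hqu] at hgq
        exact hZC u z a' hz ha' hgz hgq
      · exact (hOm a ha x ht).2.1 ⟨v, by rw [hau]; exact hp, hgv⟩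
    · rcases hcases v x hv with ⟨i', hc', hiv⟩ | ⟨a', ha', ht', hav⟩ | ⟨hnv, hgv, -⟩
      · obtain ⟨-, q, hq, hgq⟩ := hS1 i' x hc'
        rw [hiv, hp] at hq
        have hqu : u = q := Option.some.inj hq
        rw [← hqu, hgu] at hgq
        exact hc'.2.2.1.ne (Option.some.inj hgq).symm
      · obtain ⟨-, q, hq, hgq⟩ := hS2 a' ha' x ht'
        rw [hav, hp] at hq
        have hqu : u = q := Option.some.inj hq
        rw [← hqu, hgu] at hgq
        exact ht'.2.1 (Option.some.inj hgq)
      · exact h.proper v u x hp hgv hgu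
  · -- colours
    intro v x hv
    rcases hcases v x hv with ⟨i', hc', -⟩ | ⟨a', ha', ht', -⟩ | ⟨-, -, hx⟩
    · exact hc'.2.1
    · exact ht'.1
    · exact hx
  · -- complete
    have hgood : ∀ a ∈ C, ∀ b, Task F g C P Sel π a b → Seen F g' a b := by
      intro a ha b hb
      obtain ⟨-, q, hq, hgq⟩ := hS2 a ha b hb
      exact ⟨ω a b, q, hq, Or.inr ⟨hωc a ha b hb,
        hkeep q a hgq ha ((hOm a ha b hb).2.2.2 q hq)⟩⟩
    have hconf : ∀ i j, Conf F g P C i j → Seen F g' i j := by
      intro i j hc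
      obtain ⟨-, q, hq, hgq⟩ := hS1 i j hc
      refine ⟨π i j, q, hq, Or.inr ⟨hπ i j hc, hkeep q i hgq hc.1 ?_⟩⟩
      rintro ⟨i', j', hc', hu⟩
      exact h1.sep i j i' j' hc hc' q hq hu
    intro i hi j hj hij
    by_cases hs : Seen F g i j
    · obtain ⟨w, hw, u, hp, hwu⟩ := h.sel1 i hi j hj hij hs
      -- the general step
      have key : ∀ a b, a ∈ C → b ∈ C → b ≠ a → g w = some b → g u = some a →
          Seen F g' a b := by
        intro a b ha hb hba hgw hgu
        have hw' : ¬ InUA F g C P π w := by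
          rintro ⟨i', j', hc', hu'⟩
          have h2 := hu'.1
          rw [hp] at h2
          have h3 : u = π i' j' := Option.some.inj h2
          obtain ⟨⟨z, hz, hgz⟩, -⟩ := hS1 i' j' hc'
          rw [← h3] at hgz
          exact hZC u z a hz ha hgz hgu
        by_cases hu' : InUA F g C P π u
        · obtain ⟨i', j', hc', hu''⟩ := hu'
          have hja : j' = a := by
            have h5 := hu''.2
            rw [hgu] at h5
            exact (Option.some.inj h5).symm
          subst hja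
          refine hgood j' ha b ⟨hb, hba, ?_, Or.inr ⟨i', w, u, hc', hu'', hw, hp, hgw⟩⟩
          exact h1.ok i' j' hc' u w b hu'' hw hp hgw hb
        · exact ⟨w, u, hp, Or.inr ⟨hkeep w b hgw hb hw', hkeep u a hgu ha hu'⟩⟩
      rcases hwu with ⟨h2, h3⟩ | ⟨h2, h3⟩
      · exact (key j i hj hi hij h2 h3).symm
      · exact key i j hi hj hij.symm h2 h3
    · by_cases hb1 : Blk F g P i j
      · by_cases hb2 : Blk F g P j i
        · rcases lt_or_gt_of_ne hij with hlt | hlt
          · exact hconf i j ⟨hi, hj, hlt, hs, hb1, hb2⟩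
          · exact (hconf j i ⟨hj, hi, hlt, fun hh => hs hh.symm, hb2, hb1⟩).symm
        · exact (hgood j hj i ⟨hi, hij, hb2, Or.inl fun hh => hs hh.symm⟩).symm
      · exact hgood i hi j ⟨hj, hij.symm, hb1, Or.inl hs⟩

end Pool.Agent.PSY
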