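import Pool.Agent.PSY.Selection
import Pool.Agent.PSY.Phase1
import Pool.Agent.PSY.Phase2

open Finset

set_option autoImplicit false

namespace Pool.Agent.PSY

open scoped Classical

/-- The chosen lower end of an edge with the colours `i` and `j`. -/
private noncomputable def rep {V : Type} {k : ℕ} (F : RF V) (g : V → Option (Fin k))
    (i j : Fin k) : Option V :=
  if h : Seen F g (min i j) (max i j) then some h.choose else none

private lemma rep_symm {V : Type} {k : ℕ} (F : RF V) (g : V → Option (Fin k)) (i j : Fin k) :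
    rep F g i j = rep F g j i := by
  rw [rep, rep, min_comm, max_comm]

private lemma rep_ex {V : Type} {k : ℕ} {F : RF V} {g : V → Option (Fin k)} {i j : Fin k}
    (h : Seen F g i j) : ∃ w, rep F g i j = some w := by
  have h' : Seen F g (min i j) (max i j) := by
    rcases le_total i j with hij | hij
    · rw [min_eq_left hij, max_eq_right hij]; exact h
    · rw [min_eq_right hij, max_eq_left hij]; exact h.symm
  exact ⟨h'.choose, by rw [rep, dif_pos h']⟩

private lemma rep_spec {V : Type} {k : ℕ} {F : RF V} {g : V → Option (Fin k)} {i j : Fin k}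
    {w : V} (h : rep F g i j = some w) :
    ∃ u, F.par w = some u ∧ ((g w = some i ∧ g u = some j) ∨ (g w = some j ∧ g u = some i)) := by
  rw [rep] at h
  split_ifs at h with hs
  have hw : hs.choose = w := Option.some.inj h
  obtain ⟨u, hu, hc⟩ := hs.choose_spec
  rw [hw] at hu hc
  refine ⟨u, hu, ?_⟩
  rcases le_total i j with hij | hij
  · rwa [min_eq_left hij, max_eq_right hij] at hc
  · rw [min_eq_right hij, max_eq_left hij] at hc
    exact hc.symm

private lemma rep_eq {V : Type} {k : ℕ} {F : RF V} {g : V → Option (Fin k)} {i j a b : Fin k}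
    {w u : V} (h : rep F g i j = some w) (hu : F.par w = some u)
    (hc : (g w = some a ∧ g u = some b) ∨ (g w = some b ∧ g u = some a)) :
    (i = a ∧ j = b) ∨ (i = b ∧ j = a) := by
  obtain ⟨u', hu', hc'⟩ := rep_spec h
  have huu : u' = u := Option.some.inj (hu'.symm.trans hu)
  rw [huu] at hc'
  rcases hc' with ⟨h1, h2⟩ | ⟨h1, h2⟩ <;> rcases hc with ⟨h3, h4⟩ | ⟨h3, h4⟩ <;>
    rw [h1] at h3 <;> rw [h2] at h4 <;>
    · have e1 := Option.some.inj h3
      have e2 := Option.some.inj h4
      subst e1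
      subst e2
      simp

private lemma sum_ch {V : Type} [Fintype V] (F : RF V) : ∑ u, ch F u ≤ Fintype.card V := by
  have h := Finset.sum_card_bipartiteAbove_eq_sum_card_bipartiteBelow (s := (univ : Finset V))
    (t := (univ : Finset V)) (fun u v => F.par v = some u)
  have h1 : ∑ u, ch F u = ∑ u, (bipartiteAbove (fun u v => F.par v = some u) univ u).card := rfl
  rw [h1, h]
  calc _ ≤ ∑ _v : V, 1 := by
        refine Finset.sum_le_sum fun v _ => ?_
        rw [Finset.card_le_one]
        intro a ha b hb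
        simp only [bipartiteBelow, mem_filter, mem_univ, true_and] at ha hb
        exact Option.some.inj (ha.symm.trans hb)
    _ = Fintype.card V := by simp

private lemma big_count {V : Type} [Fintype V] (F : RF V) (K0 : ℕ) :
    (univ.filter fun w => K0 < ch F w).card * K0 ≤ Fintype.card V := by
  refine le_trans ?_ (sum_ch F)
  calc _ = ∑ _w ∈ univ.filter fun w => K0 < ch F w, K0 := by simp
    _ ≤ ∑ w ∈ univ.filter fun w => K0 < ch F w, ch F w := by
        refine Finset.sum_le_sum fun w hw => ?_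
        rw [mem_filter] at hw
        exact hw.2.le
    _ ≤ _ := Finset.sum_le_sum_of_subset (filter_subset _ _)

/-- `z` is the colour of the lower end of the chosen edge of the pair `i`, `z`. -/
private def Arc {V : Type} [Fintype V] {k : ℕ} (F : RF V) (g : V → Option (Fin k)) (K0 : ℕ)
    (i z : Fin k) : Prop :=
  i ≠ z ∧ ∃ w, rep F g i z = some w ∧ g w = some z ∧ ch F w ≤ K0

private lemma noarc_count {V : Type} [Fintype V] {k : ℕ} (F : RF V) (g : V → Option (Fin k))
    (K0 : ℕ) : (univ.filter fun p : Fin k × Fin k => p.1 < p.2 ∧ ¬ Arc F g K0 p.1 p.2 ∧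
      ¬ Arc F g K0 p.2 p.1).card ≤
      (univ.filter fun p : Fin k × Fin k => p.1 < p.2 ∧ ¬ Seen F g p.1 p.2).card +
      (univ.filter fun w => K0 < ch F w).card := by
  have h1 : (univ.filter fun p : Fin k × Fin k => p.1 < p.2 ∧ ¬ Arc F g K0 p.1 p.2 ∧
      ¬ Arc F g K0 p.2 p.1) ⊆
      (univ.filter fun p : Fin k × Fin k => p.1 < p.2 ∧ ¬ Seen F g p.1 p.2) ∪
      (univ.filter fun p : Fin k × Fin k => p.1 < p.2 ∧ ∃ w, rep F g p.1 p.2 = some w ∧
        K0 < ch F w) := by
    intro p hp
    simp only [mem_filter, mem_univ, true_and, mem_union] at hp ⊢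
    obtain ⟨hlt, h1, h2⟩ := hp
    by_cases hs : Seen F g p.1 p.2
    · right
      refine ⟨hlt, ?_⟩
      obtain ⟨w, hw⟩ := rep_ex hs
      refine ⟨w, hw, ?_⟩
      by_contra hcon
      push Not at hcon
      obtain ⟨u, hu, hc⟩ := rep_spec hw
      rcases hc with hc | hc
      · exact h2 ⟨hlt.ne', w, by rw [rep_symm]; exact hw, hc.1, hcon⟩
      · exact h1 ⟨hlt.ne, w, hw, hc.1, hcon⟩
    · left
      exact ⟨hlt, hs⟩
  refine (card_le_card h1).trans ((card_union_le _ _).trans (Nat.add_le_add_left ?_ _))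
  have hex : ∀ p ∈ (univ.filter fun p : Fin k × Fin k => p.1 < p.2 ∧
      ∃ w, rep F g p.1 p.2 = some w ∧ K0 < ch F w), ∃ w, rep F g p.1 p.2 = some w ∧
        K0 < ch F w := by
    intro p hp
    rw [mem_filter] at hp
    exact hp.2.2
  rcases isEmpty_or_nonempty V with hV | hV
  · have h0 : (univ.filter fun p : Fin k × Fin k => p.1 < p.2 ∧
        ∃ w, rep F g p.1 p.2 = some w ∧ K0 < ch F w) = ∅ := by
      rw [Finset.filter_eq_empty_iff]
      rintro p - ⟨-, w, -⟩
      exact hV.elim w
    rw [h0]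
    exact Nat.zero_le _
  choose! f hf using hex
  refine card_le_card_of_injOn f ?_ ?_
  · intro p hp
    simp only [coe_filter, mem_univ, true_and, Set.mem_ofPred_eq]
    exact (hf p hp).2
  · intro p hp q hq hpq
    have hp' := (hf p hp).1
    have hq' := (hf q hq).1
    rw [← hpq] at hq'
    obtain ⟨u, hu, hc⟩ := rep_spec hq'
    have h2 := rep_eq hp' hu hc
    simp only [coe_filter, mem_univ, true_and, Set.mem_ofPred_eq] at hp hq
    rcases h2 with ⟨h3, h4⟩ | ⟨h3, h4⟩
    · exact Prod.ext h3 h4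
    · exfalso
      have h5 := hp.1
      have h6 := hq.1
      rw [h3, h4] at h5
      exact lt_asymm h5 h6

private lemma miss_sum {V : Type} {k : ℕ} (F : RF V) (g : V → Option (Fin k)) :
    ∑ i : Fin k, (univ.filter fun j => j ≠ i ∧ ¬ Seen F g i j).card ≤
      2 * (univ.filter fun p : Fin k × Fin k => p.1 < p.2 ∧ ¬ Seen F g p.1 p.2).card := by
  have h1 : ∑ i : Fin k, (univ.filter fun j => j ≠ i ∧ ¬ Seen F g i j).card =
      (univ.filter fun p : Fin k × Fin k => p.2 ≠ p.1 ∧ ¬ Seen F g p.1 p.2).card := by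
    rw [Finset.card_filter, Fintype.sum_prod_type]
    refine Finset.sum_congr rfl fun i _ => ?_
    rw [Finset.card_filter]
  rw [h1, two_mul]
  have h2 : (univ.filter fun p : Fin k × Fin k => p.2 ≠ p.1 ∧ ¬ Seen F g p.1 p.2) ⊆
      (univ.filter fun p : Fin k × Fin k => p.1 < p.2 ∧ ¬ Seen F g p.1 p.2) ∪
      (univ.filter fun p : Fin k × Fin k => p.1 < p.2 ∧ ¬ Seen F g p.1 p.2).image Prod.swap := by
    intro p hp
    simp only [mem_filter, mem_univ, true_and, mem_union, mem_image] at hp ⊢
    rcases lt_trichotomy p.1 p.2 with h | h | h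
    · exact Or.inl ⟨h, hp.2⟩
    · exact absurd h.symm hp.1
    · exact Or.inr ⟨p.swap, ⟨h, fun hs => hp.2 hs.symm⟩, Prod.swap_swap p⟩
  exact (card_le_card h2).trans ((card_union_le _ _).trans (Nat.add_le_add_left card_image_le _))

theorem repair (ε : ℝ) (hε : 0 < ε) : ∃ δ : ℝ, 0 < δ ∧ ∃ k0 : ℕ, ∀ k : ℕ, k0 ≤ k →
    ∀ (V : Type) [Fintype V] (F : RF V) (g : V → Option (Fin k)),
      Fintype.card V ≤ k ^ 2 → Proper F g →
      ((univ.filter fun p : Fin k × Fin k => p.1 < p.2 ∧ ¬ Seen F g p.1 p.2).card : ℝ) ≤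
        δ * (k : ℝ) ^ 2 →
      ∃ (C : Finset (Fin k)) (g' : V → Option (Fin k)), (1 - ε) * (k : ℝ) ≤ (C.card : ℝ) ∧
        Proper F g' ∧ (∀ v a, g' v = some a → a ∈ C) ∧
        ∀ i ∈ C, ∀ j ∈ C, i ≠ j → Seen F g' i j := by
  obtain ⟨ρ, β, hρ, hβ, k1, hsel⟩ := selection (ε / 2) (by positivity)
  obtain ⟨K0, hK0⟩ := exists_nat_ge (2 / β)
  have hK0p : 0 < (K0 : ℝ) := lt_of_lt_of_le (by positivity) hK0
  obtain ⟨K2, k2, hph1⟩ := phase1 ρ hρ K0
  obtain ⟨σ, hσ, k3, hph2⟩ := phase2 ρ hρ K0 K2
  refine ⟨min (β / 2) (ε * σ / 8), by positivity, max (max k1 k2) (max k3 1), ?_⟩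
  intro k hk V _ F g hV hprop hmiss
  have hk1 : k1 ≤ k := (le_max_left _ _).trans ((le_max_left _ _).trans hk)
  have hk2 : k2 ≤ k := (le_max_right _ _).trans ((le_max_left _ _).trans hk)
  have hk3 : k3 ≤ k := (le_max_left _ _).trans ((le_max_right _ _).trans hk)
  have hk4 : 1 ≤ k := (le_max_right _ _).trans ((le_max_right _ _).trans hk)
  have hkR : 0 < (k : ℝ) := by exact_mod_cast hk4
  have hmiss1 : ((univ.filter fun p : Fin k × Fin k => p.1 < p.2 ∧ ¬ Seen F g p.1 p.2).card : ℝ) ≤
      β / 2 * (k : ℝ) ^ 2 :=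
    hmiss.trans (mul_le_mul_of_nonneg_right (min_le_left _ _) (by positivity))
  have hmiss2 : ((univ.filter fun p : Fin k × Fin k => p.1 < p.2 ∧ ¬ Seen F g p.1 p.2).card : ℝ) ≤
      ε * σ / 8 * (k : ℝ) ^ 2 :=
    hmiss.trans (mul_le_mul_of_nonneg_right (min_le_right _ _) (by positivity))
  have hbig : ((univ.filter fun w => K0 < ch F w).card : ℝ) ≤ β / 2 * (k : ℝ) ^ 2 := by
    have h1 : ((univ.filter fun w => K0 < ch F w).card : ℝ) * K0 ≤ (k : ℝ) ^ 2 := by
      have h2 := (big_count F K0).trans hV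
      exact_mod_cast h2
    have h3 : ((univ.filter fun w => K0 < ch F w).card : ℝ) * (2 / β) ≤ (k : ℝ) ^ 2 :=
      (mul_le_mul_of_nonneg_left hK0 (by positivity)).trans h1
    have h4 := mul_le_mul_of_nonneg_left h3 (by positivity : 0 ≤ β / 2)
    calc _ = β / 2 * (((univ.filter fun w => K0 < ch F w).card : ℝ) * (2 / β)) := by
          field_simp
      _ ≤ _ := h4
  obtain ⟨C1, Z, hdis, hC1, hout⟩ := hsel k hk1 (Arc F g K0) (by
    have h1 : ((univ.filter fun p : Fin k × Fin k => p.1 < p.2 ∧ ¬ Arc F g K0 p.1 p.2 ∧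
        ¬ Arc F g K0 p.2 p.1).card : ℝ) ≤
        ((univ.filter fun p : Fin k × Fin k => p.1 < p.2 ∧ ¬ Seen F g p.1 p.2).card : ℝ) +
        ((univ.filter fun w => K0 < ch F w).card : ℝ) := by
      exact_mod_cast noarc_count F g K0
    linarith)
  let bad : Finset (Fin k) := univ.filter fun i =>
    ¬ (((univ.filter fun j => j ≠ i ∧ ¬ Seen F g i j).card : ℝ) ≤ σ * (k : ℝ))
  let C : Finset (Fin k) := C1.filter fun i =>
    ((univ.filter fun j => j ≠ i ∧ ¬ Seen F g i j).card : ℝ) ≤ σ * (k : ℝ)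
  have hbad : (bad.card : ℝ) ≤ ε / 4 * k := by
    have h1 : (bad.card : ℝ) * (σ * k) ≤ ε * σ / 4 * (k : ℝ) ^ 2 := by
      calc (bad.card : ℝ) * (σ * k) = ∑ _i ∈ bad, σ * (k : ℝ) := by
            rw [Finset.sum_const, nsmul_eq_mul]
        _ ≤ ∑ i ∈ bad, ((univ.filter fun j => j ≠ i ∧ ¬ Seen F g i j).card : ℝ) := by
            refine Finset.sum_le_sum fun i hi => ?_
            simp only [bad, mem_filter, mem_univ, true_and, not_le] at hi
            exact hi.le
        _ ≤ ∑ i : Fin k, ((univ.filter fun j => j ≠ i ∧ ¬ Seen F g i j).card : ℝ) :=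
            Finset.sum_le_sum_of_subset_of_nonneg (subset_univ _) fun _ _ _ => by positivity
        _ ≤ 2 * ((univ.filter fun p : Fin k × Fin k =>
              p.1 < p.2 ∧ ¬ Seen F g p.1 p.2).card : ℝ) := by
            exact_mod_cast miss_sum F g
        _ ≤ _ := by linarith
    have h2 : (bad.card : ℝ) * (σ * k) ≤ (ε / 4 * k) * (σ * k) := by
      refine h1.trans (le_of_eq ?_)
      ring
    exact le_of_mul_le_mul_right h2 (by positivity)
  have hC : (1 - ε) * (k : ℝ) ≤ (C.card : ℝ) := by
    have h1 : C1 ⊆ C ∪ bad := by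
      intro i hi
      simp only [C, bad, mem_union, mem_filter, mem_univ, true_and]
      by_cases h : ((univ.filter fun j => j ≠ i ∧ ¬ Seen F g i j).card : ℝ) ≤ σ * (k : ℝ)
      · exact Or.inl ⟨hi, h⟩
      · exact Or.inr h
    have h2 : (C1.card : ℝ) ≤ C.card + bad.card := by
      exact_mod_cast (card_le_card h1).trans (card_union_le _ _)
    nlinarith
  let P : Fin k → Finset V := fun i => univ.filter fun w =>
    ∃ z ∈ Z, i ≠ z ∧ rep F g i z = some w ∧ g w = some z ∧ ch F w ≤ K0
  let Sel : Finset V := univ.filter fun w => ∃ i j, rep F g i j = some w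
  have hmemP : ∀ i p, p ∈ P i ↔
      ∃ z ∈ Z, i ≠ z ∧ rep F g i z = some p ∧ g p = some z ∧ ch F p ≤ K0 := by
    intro i p
    simp only [P, mem_filter, mem_univ, true_and]
  have hmemS : ∀ w, w ∈ Sel ↔ ∃ i j, rep F g i j = some w := by
    intro w
    simp only [Sel, mem_filter, mem_univ, true_and]
  have hRD : RData ρ K0 F g C Z P Sel :=
    { proper := hprop
      disj := hdis.mono_left (filter_subset _ _)
      par := by
        intro i _ p hp
        obtain ⟨z, hz, hiz, hr, hgz, hch⟩ := (hmemP i p).1 hp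
        obtain ⟨u, hu, hc⟩ := rep_spec hr
        refine ⟨u, hu, ?_⟩
        rcases hc with hc | hc
        · exfalso
          exact hiz (Option.some.inj (hc.1.symm.trans hgz))
        · exact hc.2
      col := by
        intro i _ p hp
        obtain ⟨z, hz, hiz, hr, hgz, hch⟩ := (hmemP i p).1 hp
        exact ⟨z, hz, hgz⟩
      chs := by
        intro i _ p hp
        obtain ⟨z, hz, hiz, hr, hgz, hch⟩ := (hmemP i p).1 hp
        exact hch
      inj := by
        intro i _ p hp p' hp' hpp
        obtain ⟨z, hz, hiz, hr, hgz, hch⟩ := (hmemP i p).1 hp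
        obtain ⟨z', hz', hiz', hr', hgz', hch'⟩ := (hmemP i p').1 hp'
        have hzz : z = z' := by
          rw [hgz, hgz'] at hpp
          exact Option.some.inj hpp
        rw [← hzz, hr] at hr'
        exact Option.some.inj hr'
      big := by
        intro i hi
        have hi1 : i ∈ C1 := (mem_filter.1 hi).1
        refine (hout i hi1).trans ?_
        have h1 : (Z.filter fun z => Arc F g K0 i z).image some ⊆ (P i).image g := by
          intro o ho
          obtain ⟨z, hz, rfl⟩ := mem_image.1 ho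
          rw [mem_filter] at hz
          obtain ⟨hzZ, hiz, w, hr, hgw, hch⟩ := hz
          exact mem_image.2 ⟨w, (hmemP i w).2 ⟨z, hzZ, hiz, hr, hgw, hch⟩, hgw⟩
        have h2 : ((Z.filter fun z => Arc F g K0 i z).image some).card =
            (Z.filter fun z => Arc F g K0 i z).card :=
          card_image_of_injective _ (Option.some_injective _)
        have h3 := (card_le_card h1).trans card_image_le
        rw [h2] at h3
        exact_mod_cast h3
      sel1 := by
        intro i _ j _ _ hs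
        obtain ⟨w, hw⟩ := rep_ex hs
        obtain ⟨u, hu, hc⟩ := rep_spec hw
        exact ⟨w, (hmemS w).2 ⟨i, j, hw⟩, u, hu, hc⟩
      sel2 := by
        intro w hw w' hw' u u' a b hu hu' hc hc'
        obtain ⟨i, j, hr⟩ := (hmemS w).1 hw
        obtain ⟨i', j', hr'⟩ := (hmemS w').1 hw'
        have h1 : rep F g a b = some w := by
          rcases rep_eq hr hu hc with ⟨h3, h4⟩ | ⟨h3, h4⟩
          · rw [← h3, ← h4]; exact hr
          · rw [← h3, ← h4, rep_symm]; exact hr
        have h2 : rep F g a b = some w' := by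
          rcases rep_eq hr' hu' hc' with ⟨h3, h4⟩ | ⟨h3, h4⟩
          · rw [← h3, ← h4]; exact hr'
          · rw [← h3, ← h4, rep_symm]; exact hr'
        rw [h1] at h2
        exact Option.some.inj h2
      selc := by
        intro w hw
        obtain ⟨i, j, hr⟩ := (hmemS w).1 hw
        obtain ⟨u, hu, hc⟩ := rep_spec hr
        rcases hc with hc | hc
        · exact ⟨i, hc.1⟩
        · exact ⟨j, hc.1⟩ }
  rcases isEmpty_or_nonempty V with hV | hV
  · refine ⟨C, g, hC, hRD.proper, fun v => (hV.false v).elim, ?_⟩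
    intro i hi
    exfalso
    have h1 := hRD.big i hi
    have h2 : P i = ∅ := Finset.eq_empty_of_isEmpty _
    rw [h2, card_empty] at h1
    have hk0 : (0 : ℝ) < k := by exact_mod_cast i.pos
    have h3 : 0 < ρ * k := mul_pos hρ hk0
    simp only [Nat.cast_zero] at h1
    linarith
  obtain ⟨π, hπ⟩ := hph1 k hk2 V F g C Z P Sel hRD
  obtain ⟨g', h1, h2, h3⟩ := hph2 k hk3 V F g C Z P Sel π hRD (by
    intro i hi
    have hi2 := (mem_filter.1 hi).2
    refine le_trans ?_ hi2
    have h4 : (C.filter fun j => j ≠ i ∧ ¬ Seen F g i j).card ≤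
        (univ.filter fun j => j ≠ i ∧ ¬ Seen F g i j).card :=
      card_le_card (filter_subset_filter _ (subset_univ _))
    exact_mod_cast h4) hπ
  exact ⟨C, g', hC, h1, h2, h3⟩

end Pool.Agent.PSY
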