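import Pool.Agent.PSY.Defs

open Finset

set_option autoImplicit false

namespace Pool.Agent.PSY

open scoped Classical

/-- the parent inside `U` -/
noncomputable def parIn {V : Type} (F : RF V) (U : Finset V) (v : U) : Option U :=
  match F.par v with
  | none => none
  | some u => if h : u ∈ U then some ⟨u, h⟩ else none

theorem parIn_iff {V : Type} (F : RF V) (U : Finset V) (v u : U) :
    parIn F U v = some u ↔ F.par v = some (u : V) := by
  unfold parIn
  cases hp : F.par (v : V) with
  | none => simp
  | some w =>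
    simp only
    by_cases h : w ∈ U
    · rw [dif_pos h]
      constructor
      · intro h1
        rw [← Option.some.inj h1]
      · intro h1
        have h2 : w = (u : V) := Option.some.inj h1
        subst h2
        rfl
    · rw [dif_neg h]
      constructor
      · intro h1
        cases h1
      · intro h1
        have h2 : w = (u : V) := Option.some.inj h1
        exact absurd (h2 ▸ u.2) h

theorem restrict {V : Type} [Fintype V] (F : RF V) {k : ℕ} (f : V → Fin k)
    (hf : ∀ i j, i ≠ j → Seen F (fun v => some (f v)) i j) :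
    ∃ (U : Finset V) (F' : RF U), (∀ v u : U, F'.par v = some u ↔ F.par v = some (u : V)) ∧
      (∀ c, (univ.filter fun v : U => f v = c).card ≤ k) ∧ Fintype.card U ≤ k ^ 2 ∧
      ∀ i j, i ≠ j → Seen F' (fun v => some (f v)) i j := by
  have h1 : ∀ i j : Fin k, i < j → ∃ a b : V, f a = i ∧ f b = j ∧
      (F.par a = some b ∨ F.par b = some a) := by
    intro i j hij
    obtain ⟨v, u, hp, h | h⟩ := hf i j hij.ne
    · exact ⟨v, u, Option.some.inj h.1, Option.some.inj h.2, Or.inl hp⟩
    · exact ⟨u, v, Option.some.inj h.2, Option.some.inj h.1, Or.inr hp⟩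
  choose a b ha hb hab using h1
  let U : Finset V := univ.filter fun v => ∃ (i j : Fin k) (h : i < j), v = a i j h ∨ v = b i j h
  have hUa : ∀ i j h, a i j h ∈ U := fun i j h =>
    mem_filter.2 ⟨mem_univ _, i, j, h, Or.inl rfl⟩
  have hUb : ∀ i j h, b i j h ∈ U := fun i j h =>
    mem_filter.2 ⟨mem_univ _, i, j, h, Or.inr rfl⟩
  let F' : RF U :=
    { par := parIn F U
      rk := fun v => F.rk v
      lt := fun v u h => F.lt _ _ ((parIn_iff F U v u).1 h) }
  have hF' : ∀ v u : U, F'.par v = some u ↔ F.par v = some (u : V) := parIn_iff F U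
  have hcol : ∀ c, (univ.filter fun v : U => f v = c).card ≤ k := by
    intro c
    have h2 : ∀ v : U, f v = c → ∃ j : Fin k,
        (∃ h : c < j, (v : V) = a c j h) ∨ (∃ h : j < c, (v : V) = b j c h) := by
      intro v hv
      obtain ⟨i, j, h, h3 | h3⟩ := (mem_filter.1 v.2).2
      · have h4 : i = c := by rw [← ha i j h, ← h3, hv]
        subst h4
        exact ⟨j, Or.inl ⟨h, h3⟩⟩
      · have h4 : j = c := by rw [← hb i j h, ← h3, hv]
        subst h4
        exact ⟨i, Or.inr ⟨h, h3⟩⟩
    haveI : Nonempty (Fin k) := ⟨c⟩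
    choose! q hq using h2
    have h3 : (univ.filter fun v : U => f v = c).card ≤ (univ : Finset (Fin k)).card := by
      apply card_le_card_of_injOn q (fun _ _ => mem_univ _)
      intro v hv v' hv' hqq
      have e1 := hq v (mem_filter.1 hv).2
      have e2 := hq v' (mem_filter.1 hv').2
      rw [← hqq] at e2
      apply Subtype.ext
      rcases e1 with ⟨h, e1⟩ | ⟨h, e1⟩ <;> rcases e2 with ⟨h', e2⟩ | ⟨h', e2⟩
      · rw [e1, e2]
      · exact absurd h' (not_lt.2 h.le)
      · exact absurd h' (not_lt.2 h.le)
      · rw [e1, e2]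
    rwa [card_univ, Fintype.card_fin] at h3
  refine ⟨U, F', hF', hcol, ?_, ?_⟩
  · have h4 : Fintype.card U = ∑ c : Fin k, (univ.filter fun v : U => f v = c).card := by
      rw [← card_univ]
      exact card_eq_sum_card_fiberwise (fun _ _ => mem_univ _)
    rw [h4]
    calc ∑ c : Fin k, (univ.filter fun v : U => f v = c).card ≤ ∑ _c : Fin k, k :=
          sum_le_sum fun c _ => hcol c
      _ = k ^ 2 := by rw [sum_const, card_univ, Fintype.card_fin, smul_eq_mul, sq]
  · have key : ∀ i j : Fin k, i < j → Seen F' (fun v => some (f v)) i j := by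
      intro i j h
      rcases hab i j h with h5 | h5
      · refine ⟨⟨a i j h, hUa i j h⟩, ⟨b i j h, hUb i j h⟩, (hF' _ _).2 h5, Or.inl ⟨?_, ?_⟩⟩
        · show some (f (a i j h)) = some i
          rw [ha]
        · show some (f (b i j h)) = some j
          rw [hb]
      · refine ⟨⟨b i j h, hUb i j h⟩, ⟨a i j h, hUa i j h⟩, (hF' _ _).2 h5, Or.inr ⟨?_, ?_⟩⟩
        · show some (f (b i j h)) = some j
          rw [hb]
        · show some (f (a i j h)) = some i
          rw [ha]
    intro i j hij
    rcases lt_or_gt_of_ne hij with h | h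
    · exact key i j h
    · exact (key j i h).symm

end Pool.Agent.PSY
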