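import Pool.Agent.PSY.Defs

open Finset

set_option autoImplicit false

namespace Pool.Agent.PSY

open scoped Classical

theorem exists_RF {V : Type} (G : SimpleGraph V) (hG : G.IsAcyclic) :
    ∃ F : RF V, ∀ u v, G.Adj u v ↔ F.par u = some v ∨ F.par v = some u := by
  have hex : ∀ v : V, ∃ p : G.Walk (G.connectedComponentMk v).nonempty_supp.some v, p.IsPath := by
    intro v
    have h1 : (G.connectedComponentMk v).nonempty_supp.some ∈ (G.connectedComponentMk v).supp :=
      (G.connectedComponentMk v).nonempty_supp.some_mem
    have h2 : G.Reachable (G.connectedComponentMk v).nonempty_supp.some v :=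
      SimpleGraph.ConnectedComponent.exact h1
    exact ⟨h2.some.toPath, h2.some.toPath.2⟩
  choose p hp using hex
  have key : ∀ (r r' : V) (_ : r = r') (v w : V) (p : G.Walk r v) (q : G.Walk r' w), p.IsPath →
      q.IsPath → G.Adj v w → (¬ p.Nil ∧ p.penultimate = w) ∨ (¬ q.Nil ∧ q.penultimate = v) := by
    rintro r _ rfl v w p q hp hq hvw
    by_cases hw : w ∈ p.support
    · left
      have h1 := (hG.eq_penultimate_of_adj_end hp hvw hw).symm
      refine ⟨fun hn => ?_, h1⟩
      cases p with
      | nil => exact hvw.ne h1
      | cons h q => simp at hn
    · right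
      have h3 := hG.mem_support_of_ne_mem_support_of_adj_of_isPath hq hp hvw.symm hw
      have h1 := (hG.eq_penultimate_of_adj_end hq hvw.symm h3).symm
      refine ⟨fun hn => ?_, h1⟩
      cases q with
      | nil => exact hvw.ne h1.symm
      | cons h q => simp at hn
  have uniq : ∀ (r r' : V) (_ : r = r') (v w : V) (p : G.Walk r v) (q : G.Walk r' w), p.IsPath →
      q.IsPath → ¬ p.Nil → p.penultimate = w → q.length < p.length := by
    rintro r _ rfl v w p q hp hq hn rfl
    have h1 := hG.path_unique ⟨q, hq⟩ ⟨p.dropLast, hp.dropLast⟩
    have h2 : q = p.dropLast := congrArg Subtype.val h1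
    have h3 : (p.dropLast.concat (SimpleGraph.Walk.adj_penultimate hn)).length = p.length := by
      rw [SimpleGraph.Walk.concat_dropLast]
    rw [SimpleGraph.Walk.length_concat] at h3
    rw [h2]
    omega
  have hroot : ∀ u v : V, G.Adj u v → (G.connectedComponentMk u).nonempty_supp.some =
      (G.connectedComponentMk v).nonempty_supp.some := by
    intro u v huv
    have h1 : G.connectedComponentMk u = G.connectedComponentMk v :=
      SimpleGraph.ConnectedComponent.sound huv.reachable
    rw [h1]
  refine ⟨⟨fun v => if (p v).Nil then none else some (p v).penultimate, fun v => (p v).length,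
    ?_⟩, ?_⟩
  · intro v u hvu
    by_cases hn : (p v).Nil
    · rw [if_pos hn] at hvu
      exact absurd hvu (by simp)
    · rw [if_neg hn] at hvu
      have hpu : (p v).penultimate = u := Option.some.inj hvu
      have hadj : G.Adj u v := by
        rw [← hpu]
        exact SimpleGraph.Walk.adj_penultimate hn
      exact uniq _ _ (hroot v u hadj.symm) v u (p v) (p u) (hp v) (hp u) hn hpu
  · intro u v
    constructor
    · intro huv
      rcases key _ _ (hroot u v huv) u v (p u) (p v) (hp u) (hp v) huv with ⟨h1, h2⟩ | ⟨h1, h2⟩
      · left
        show (if (p u).Nil then none else some (p u).penultimate) = some v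
        rw [if_neg h1, h2]
      · right
        show (if (p v).Nil then none else some (p v).penultimate) = some u
        rw [if_neg h1, h2]
    · have back : ∀ u v, (if (p u).Nil then none else some (p u).penultimate) = some v →
          G.Adj v u := by
        intro u v h
        by_cases hn : (p u).Nil
        · rw [if_pos hn] at h
          exact absurd h (by simp)
        · rw [if_neg hn] at h
          have hpu : (p u).penultimate = v := Option.some.inj h
          rw [← hpu]
          exact SimpleGraph.Walk.adj_penultimate hn
      rintro (h | h)
      · exact (back u v h).symm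
      · exact back v u h

end Pool.Agent.PSY
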