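import Pool.Agent.PSY.AlmostProper
import Pool.Agent.PSY.Repair
import Pool.Agent.PSY.Root
import Pool.Agent.PSY.Restrict
import Pool.Agent.PSA.LeafHall

open Finset

set_option autoImplicit false

namespace Pool.Agent.PSY

open scoped Classical

theorem asymptotic (ε : ℝ) (hε : 0 < ε) : ∃ k0 : ℕ, ∀ k : ℕ, k0 ≤ k →
    ∀ (V : Type) [Fintype V] (G : SimpleGraph V), G.IsAcyclic →
      Pool.Agent.PSA.HasPC G k →
      ∃ m : ℕ, (1 - ε) * (k : ℝ) ≤ (m : ℝ) ∧ Pool.Agent.PSA.HasCC G m := by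
  obtain ⟨δ, hδ, k1, hk1⟩ := repair ε hε
  obtain ⟨k2, hk2⟩ := almost_proper δ hδ
  refine ⟨max (max k1 k2) 1, ?_⟩
  intro k hk V _ G hG hPC
  have hk1' : k1 ≤ k := (le_max_left k1 k2).trans ((le_max_left _ _).trans hk)
  have hk2' : k2 ≤ k := (le_max_right k1 k2).trans ((le_max_left _ _).trans hk)
  have hk0 : 1 ≤ k := (le_max_right _ _).trans hk
  obtain ⟨c, hsurj, hpc⟩ := hPC
  obtain ⟨F, hF⟩ := exists_RF G hG
  have hseen : ∀ i j, i ≠ j → Seen F (fun v => some (c v)) i j := by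
    intro i j hij
    obtain ⟨u, v, hu, hv, huv⟩ := hpc i j hij
    rcases (hF u v).1 huv with h | h
    · exact ⟨u, v, h, Or.inl ⟨congrArg some hu, congrArg some hv⟩⟩
    · exact ⟨v, u, h, Or.inr ⟨congrArg some hv, congrArg some hu⟩⟩
  obtain ⟨U, F', hpar, hcl, hcU, hseen'⟩ := restrict F c hseen
  obtain ⟨g, hgp, hgl⟩ := hk2 k hk2' U F' (fun v => c v) hcl
  obtain ⟨C, g', hC, hp', hcol, hfull⟩ := hk1 k hk1' U F' g hcU hgp (by
    refine le_trans ?_ hgl
    have := card_le_card (show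
      (univ.filter fun p : Fin k × Fin k => p.1 < p.2 ∧ ¬ Seen F' g p.1 p.2) ⊆
      (univ.filter fun p : Fin k × Fin k => p.1 < p.2 ∧ Seen F' (fun v => some (c v)) p.1 p.2 ∧
        ¬ Seen F' g p.1 p.2) from by
          intro p hp
          rw [mem_filter] at hp ⊢
          exact ⟨hp.1, hp.2.1, hseen' p.1 p.2 hp.2.1.ne, hp.2.2⟩)
    exact_mod_cast this)
  have hVne : Nonempty V := by
    obtain ⟨v, _⟩ := hsurj ⟨0, hk0⟩
    exact ⟨v⟩
  rcases Nat.lt_or_ge C.card 2 with hC2 | hC2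
  · obtain ⟨m, hm, hcc⟩ := Pool.Agent.PSA.exists_hasCC G hVne
    refine ⟨m, hC.trans ?_, hcc⟩
    have : C.card ≤ m := by omega
    exact_mod_cast this
  · -- enumerate the colours
    set e := C.equivFin with he
    set idx : Fin k → ℕ := fun a => if h : a ∈ C then (e ⟨a, h⟩ : ℕ) else 0 with hidx
    have idx_lt : ∀ a ∈ C, idx a < C.card := by
      intro a ha
      simp only [hidx, dif_pos ha]
      exact (e ⟨a, ha⟩).isLt
    have idx_inj : ∀ a ∈ C, ∀ b ∈ C, idx a = idx b → a = b := by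
      intro a ha b hb hab
      simp only [hidx, dif_pos ha, dif_pos hb] at hab
      have h1 := e.injective (Fin.ext hab)
      exact congrArg Subtype.val h1
    have idx_surj : ∀ i, i < C.card → ∃ a ∈ C, idx a = i := by
      intro i hi
      refine ⟨(e.symm ⟨i, hi⟩ : Fin k), (e.symm ⟨i, hi⟩).2, ?_⟩
      simp only [hidx, dif_pos (e.symm ⟨i, hi⟩).2]
      simp
    set col : V → Option ℕ := fun v => if h : v ∈ U then (g' ⟨v, h⟩).map idx else none with hcoldef
    have col_some : ∀ v i, col v = some i → ∃ (h : v ∈ U) (a : Fin k), a ∈ C ∧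
        g' ⟨v, h⟩ = some a ∧ idx a = i := by
      intro v i hvi
      by_cases h : v ∈ U
      · simp only [hcoldef, dif_pos h] at hvi
        rw [Option.map_eq_some_iff] at hvi
        obtain ⟨a, ha, hai⟩ := hvi
        exact ⟨h, a, hcol _ a ha, ha, hai⟩
      · simp only [hcoldef, dif_neg h] at hvi
        exact absurd hvi (by simp)
    have col_mk : ∀ (v : U) (a : Fin k), g' v = some a → col v = some (idx a) := by
      intro v a hva
      have : g' ⟨(v : V), v.2⟩ = some a := hva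
      simp only [hcoldef, dif_pos v.2, this, Option.map_some]
    have adj_of : ∀ v u : U, F'.par v = some u → G.Adj v u := fun v u h =>
      (hF v u).2 (Or.inl ((hpar v u).1 h))
    have hfull' : ∀ a ∈ C, ∀ b ∈ C, a ≠ b → ∃ u v : V, col u = some (idx a) ∧
        col v = some (idx b) ∧ G.Adj u v := by
      intro a ha b hb hab
      obtain ⟨v, u, hvu, h | h⟩ := hfull a ha b hb hab
      · exact ⟨v, u, col_mk v a h.1, col_mk u b h.2, adj_of v u hvu⟩
      · exact ⟨u, v, col_mk u a h.2, col_mk v b h.1, (adj_of v u hvu).symm⟩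
    have hP : Pool.Agent.PSA.PCol G C.card col := by
      refine ⟨?_, ?_, ?_, ?_⟩
      · intro v i hvi
        obtain ⟨_, a, ha, _, rfl⟩ := col_some v i hvi
        exact idx_lt a ha
      · intro u v i huv hu hv
        obtain ⟨hu1, a, ha, hua, hai⟩ := col_some u i hu
        obtain ⟨hv1, b, hb, hvb, hbi⟩ := col_some v i hv
        have hab : a = b := idx_inj a ha b hb (hai.trans hbi.symm)
        subst hab
        rcases (hF u v).1 huv with h | h
        · exact hp' ⟨u, hu1⟩ ⟨v, hv1⟩ a ((hpar ⟨u, hu1⟩ ⟨v, hv1⟩).2 h) hua hvb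
        · exact hp' ⟨v, hv1⟩ ⟨u, hu1⟩ a ((hpar ⟨v, hv1⟩ ⟨u, hu1⟩).2 h) hvb hua
      · intro i j hij hj
        obtain ⟨a, ha, rfl⟩ := idx_surj i (hij.trans hj)
        obtain ⟨b, hb, rfl⟩ := idx_surj j hj
        have hab : a ≠ b := by
          rintro rfl
          exact lt_irrefl _ hij
        exact hfull' a ha b hb hab
      · intro i hi
        obtain ⟨a, ha, rfl⟩ := idx_surj i hi
        obtain ⟨b, hb, hab⟩ := exists_mem_ne (show 1 < C.card by omega) a
        obtain ⟨u, _, hu, _⟩ := hfull' a ha b hb (Ne.symm hab)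
        exact ⟨u, hu⟩
    obtain ⟨m, hm, hcc⟩ := hP.extend
    exact ⟨m, hC.trans (by exact_mod_cast hm), hcc⟩

end Pool.Agent.PSY
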