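import Pool.Agent.PSY.Defs

open Finset

set_option autoImplicit false

namespace Pool.Agent.PSY

open scoped Classical

/-- Pairs inside a set of vertices of small outdegree. -/
lemma small_out {k : ℕ} (A : Fin k → Fin k → Prop) (S : Finset (Fin k)) :
    S.card * S.card ≤ S.card + 2 * (∑ i ∈ S, (univ.filter fun z => A i z).card) +
      2 * (univ.filter fun p : Fin k × Fin k => p.1 < p.2 ∧ ¬ A p.1 p.2 ∧ ¬ A p.2 p.1).card := by
  set Q : Finset (Fin k × Fin k) := (S ×ˢ univ).filter fun p => A p.1 p.2 with hQ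
  set M : Finset (Fin k × Fin k) :=
    univ.filter fun p : Fin k × Fin k => p.1 < p.2 ∧ ¬ A p.1 p.2 ∧ ¬ A p.2 p.1 with hM
  have hQc : Q.card = ∑ i ∈ S, (univ.filter fun z => A i z).card := by
    rw [hQ, Finset.card_filter, Finset.sum_product]
    exact Finset.sum_congr rfl fun i _ => (Finset.card_filter _ _).symm
  have hsub : S ×ˢ S ⊆ (S.image fun i => (i, i)) ∪ (Q ∪ Q.image Prod.swap) ∪
      (M ∪ M.image Prod.swap) := by
    rintro ⟨i, j⟩ hp
    rw [Finset.mem_product] at hp
    obtain ⟨hi, hj⟩ := hp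
    simp only at hi hj
    by_cases hij : i = j
    · subst hij
      refine Finset.mem_union_left _ (Finset.mem_union_left _ ?_)
      exact Finset.mem_image.2 ⟨i, hi, rfl⟩
    · by_cases h1 : A i j
      · refine Finset.mem_union_left _ (Finset.mem_union_right _ (Finset.mem_union_left _ ?_))
        exact Finset.mem_filter.2 ⟨Finset.mem_product.2 ⟨hi, Finset.mem_univ _⟩, h1⟩
      · by_cases h2 : A j i
        · refine Finset.mem_union_left _ (Finset.mem_union_right _ (Finset.mem_union_right _ ?_))
          refine Finset.mem_image.2 ⟨(j, i), ?_, rfl⟩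
          exact Finset.mem_filter.2 ⟨Finset.mem_product.2 ⟨hj, Finset.mem_univ _⟩, h2⟩
        · refine Finset.mem_union_right _ ?_
          rcases lt_or_gt_of_ne hij with h | h
          · refine Finset.mem_union_left _ ?_
            exact Finset.mem_filter.2 ⟨Finset.mem_univ _, h, h1, h2⟩
          · refine Finset.mem_union_right _ (Finset.mem_image.2 ⟨(j, i), ?_, rfl⟩)
            exact Finset.mem_filter.2 ⟨Finset.mem_univ _, h, h2, h1⟩
  have h1 := Finset.card_le_card hsub
  have h2 := Finset.card_union_le ((S.image fun i => (i, i)) ∪ (Q ∪ Q.image Prod.swap))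
    (M ∪ M.image Prod.swap)
  have h3 := Finset.card_union_le (S.image fun i => (i, i)) (Q ∪ Q.image Prod.swap)
  have h4 := Finset.card_union_le Q (Q.image Prod.swap)
  have h5 := Finset.card_union_le M (M.image Prod.swap)
  have h6 : (S.image fun i => (i, i)).card ≤ S.card := Finset.card_image_le
  have h7 : (Q.image Prod.swap).card ≤ Q.card := Finset.card_image_le
  have h8 : (M.image Prod.swap).card ≤ M.card := Finset.card_image_le
  rw [Finset.card_product] at h1
  rw [← hQc]
  omega

/-- The vertices outside `S` with fewer than `m` out-neighbours in `Z`. -/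
noncomputable def unsat {k : ℕ} (A : Fin k → Fin k → Prop) (S : Finset (Fin k)) (m : ℕ)
    (Z : Finset (Fin k)) : Finset (Fin k) :=
  univ.filter fun i => i ∉ S ∧ (Z.filter fun z => A i z).card < m

/-- The potential. -/
noncomputable def pot {k : ℕ} (A : Fin k → Fin k → Prop) (m : ℕ) (Z : Finset (Fin k)) : ℕ :=
  ∑ i, min (Z.filter fun z => A i z).card m

lemma pot_le {k : ℕ} (A : Fin k → Fin k → Prop) (m : ℕ) (Z : Finset (Fin k)) :
    pot A m Z ≤ k * m := by
  unfold pot
  refine (Finset.sum_le_sum fun i _ => min_le_right _ _).trans ?_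
  rw [Finset.sum_const, Finset.card_univ, Fintype.card_fin, smul_eq_mul]

lemma pot_insert {k : ℕ} (A : Fin k → Fin k → Prop) (S : Finset (Fin k)) (m : ℕ)
    (Z : Finset (Fin k)) (z : Fin k) (hz : z ∉ Z) :
    pot A m Z + ((unsat A S m Z).filter fun i => A i z).card ≤ pot A m (insert z Z) := by
  unfold pot
  rw [Finset.card_filter, ← Finset.sum_filter_add_sum_filter_not univ (· ∈ unsat A S m Z),
    ← Finset.sum_filter_add_sum_filter_not univ (· ∈ unsat A S m Z)
      (fun i => min ((insert z Z).filter fun z => A i z).card m)]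
  have e1 : (univ.filter fun i => i ∈ unsat A S m Z) = unsat A S m Z := by
    ext i; simp
  rw [e1]
  have h1 : ∑ i ∈ unsat A S m Z, min (Z.filter fun z => A i z).card m +
      ∑ i ∈ unsat A S m Z, (if A i z then 1 else 0) ≤
      ∑ i ∈ unsat A S m Z, min ((insert z Z).filter fun z => A i z).card m := by
    rw [← Finset.sum_add_distrib]
    refine Finset.sum_le_sum fun i hi => ?_
    have hi2 := (Finset.mem_filter.1 hi).2.2
    rw [Finset.filter_insert]
    split_ifs with h
    · rw [Finset.card_insert_of_notMem (fun h' => hz (Finset.mem_filter.1 h').1)]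
      omega
    · omega
  have h2 : ∑ i ∈ univ.filter (fun i => ¬ i ∈ unsat A S m Z),
        min (Z.filter fun z => A i z).card m ≤
      ∑ i ∈ univ.filter (fun i => ¬ i ∈ unsat A S m Z),
        min ((insert z Z).filter fun z => A i z).card m := by
    refine Finset.sum_le_sum fun i _ => ?_
    have h3 := Finset.card_le_card (Finset.filter_subset_filter (fun z => A i z)
      (Finset.subset_insert z Z))
    omega
  omega

/-- Averaging. -/
lemma exists_good {k : ℕ} (A : Fin k → Fin k → Prop) (U Z : Finset (Fin k)) (a : ℝ) (ha : 0 < a)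
    (hU : 0 < U.card) (h : ∀ i ∈ U, a ≤ (((univ \ Z).filter fun z => A i z).card : ℝ)) :
    ∃ z, z ∉ Z ∧ (U.card : ℝ) * a ≤ (k : ℝ) * ((U.filter fun i => A i z).card : ℝ) := by
  by_contra hcon
  push Not at hcon
  have hk : 0 < k := by
    obtain ⟨i, -⟩ := Finset.card_pos.1 hU
    exact lt_of_le_of_lt (Nat.zero_le _) i.2
  have hkR : (0 : ℝ) < k := Nat.cast_pos.2 hk
  have hUR : (0 : ℝ) < U.card := Nat.cast_pos.2 hU
  have e1 : ∑ z ∈ univ \ Z, (U.filter fun i => A i z).card =
      ∑ i ∈ U, ((univ \ Z).filter fun z => A i z).card := by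
    simp only [Finset.card_filter]
    exact Finset.sum_comm
  have e2 : (U.card : ℝ) * a ≤ ∑ i ∈ U, (((univ \ Z).filter fun z => A i z).card : ℝ) := by
    have := Finset.card_nsmul_le_sum U
      (fun i => (((univ \ Z).filter fun z => A i z).card : ℝ)) a h
    rwa [nsmul_eq_mul] at this
  have e3 : (∑ i ∈ U, (((univ \ Z).filter fun z => A i z).card : ℝ)) =
      ∑ z ∈ univ \ Z, ((U.filter fun i => A i z).card : ℝ) := by
    rw [← Nat.cast_sum, ← Nat.cast_sum, e1]
  rw [e3] at e2
  rcases (univ \ Z).eq_empty_or_nonempty with h0 | h0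
  · rw [h0, Finset.sum_empty] at e2
    have : 0 < (U.card : ℝ) * a := mul_pos hUR ha
    linarith
  · have e4 : (k : ℝ) * ∑ z ∈ univ \ Z, ((U.filter fun i => A i z).card : ℝ) <
        ∑ _z ∈ univ \ Z, (U.card : ℝ) * a := by
      rw [Finset.mul_sum]
      exact Finset.sum_lt_sum_of_nonempty h0 fun z hz =>
        hcon z (Finset.mem_sdiff.1 hz).2
    rw [Finset.sum_const, nsmul_eq_mul] at e4
    have e5 : (((univ \ Z).card : ℕ) : ℝ) ≤ k := by
      have := Finset.card_le_univ (univ \ Z)
      rw [Fintype.card_fin] at this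
      exact_mod_cast this
    have e6 : (((univ \ Z).card : ℕ) : ℝ) * ((U.card : ℝ) * a) ≤ k * ((U.card : ℝ) * a) :=
      mul_le_mul_of_nonneg_right e5 (mul_pos hUR ha).le
    have e7 := mul_le_mul_of_nonneg_left e2 hkR.le
    linarith

/-- The greedy choice. -/
lemma greedy {k : ℕ} (A : Fin k → Fin k → Prop) (S : Finset (Fin k)) (m : ℕ) (lam u : ℝ)
    (hlam : 0 < lam) (hu : 0 < u) (hk : 0 < k)
    (hS : ∀ i, i ∉ S → lam * k ≤ ((univ.filter fun z => A i z).card : ℝ)) (r : ℕ)
    (hr : (r : ℝ) ≤ lam * k / 2) :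
    ∃ Z : Finset (Fin k), Z.card ≤ r ∧ (((unsat A S m Z).card : ℝ) ≤ u ∨
      (r : ℝ) * (u * lam / 2) ≤ (pot A m Z : ℝ)) := by
  have hkR : (0 : ℝ) < k := Nat.cast_pos.2 hk
  induction r with
  | zero => exact ⟨∅, by simp, Or.inr (by simp)⟩
  | succ r ih =>
    push_cast at hr
    obtain ⟨Z, hZ, hor⟩ := ih (by linarith)
    rcases hor with h | h
    · exact ⟨Z, hZ.trans (Nat.le_succ r), Or.inl h⟩
    · by_cases hsat : ((unsat A S m Z).card : ℝ) ≤ u
      · exact ⟨Z, hZ.trans (Nat.le_succ r), Or.inl hsat⟩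
      · rw [not_le] at hsat
        have hZR : (Z.card : ℝ) ≤ r := by exact_mod_cast hZ
        have ha : 0 < lam * k / 2 := by positivity
        obtain ⟨z, hz, hz2⟩ := exists_good A (unsat A S m Z) Z (lam * k / 2) ha
          (by
            have : (0 : ℝ) < (unsat A S m Z).card := lt_trans hu hsat
            exact_mod_cast this)
          (by
            intro i hi
            have hi2 := (Finset.mem_filter.1 hi).2.1
            have h1 := hS i hi2
            have h2 : (univ.filter fun z => A i z).card ≤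
                ((univ \ Z).filter fun z => A i z).card + Z.card := by
              have h3 : (univ.filter fun z => A i z) ⊆
                  ((univ \ Z).filter fun z => A i z) ∪ Z := by
                intro z hz
                by_cases hzZ : z ∈ Z
                · exact Finset.mem_union_right _ hzZ
                · refine Finset.mem_union_left _ (Finset.mem_filter.2 ⟨?_,
                    (Finset.mem_filter.1 hz).2⟩)
                  exact Finset.mem_sdiff.2 ⟨Finset.mem_univ _, hzZ⟩
              exact (Finset.card_le_card h3).trans (Finset.card_union_le _ _)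
            have h2R : ((univ.filter fun z => A i z).card : ℝ) ≤
                (((univ \ Z).filter fun z => A i z).card : ℝ) + Z.card := by
              exact_mod_cast h2
            linarith)
        refine ⟨insert z Z, ?_, Or.inr ?_⟩
        · rw [Finset.card_insert_of_notMem hz]
          omega
        · have h4 := pot_insert A S m Z z hz
          have h4R : (pot A m Z : ℝ) + (((unsat A S m Z).filter fun i => A i z).card : ℝ) ≤
              (pot A m (insert z Z) : ℝ) := by
            exact_mod_cast h4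
          have h5 : u * (lam * k / 2) ≤
              (k : ℝ) * (((unsat A S m Z).filter fun i => A i z).card : ℝ) :=
            (mul_le_mul_of_nonneg_right hsat.le ha.le).trans hz2
          have h6 : u * lam / 2 ≤ (((unsat A S m Z).filter fun i => A i z).card : ℝ) := by
            have h7 : (k : ℝ) * (u * lam / 2) ≤
                (k : ℝ) * (((unsat A S m Z).filter fun i => A i z).card : ℝ) := by
              linarith
            exact le_of_mul_le_mul_left h7 hkR
          push_cast
          linarith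

theorem selection (ε : ℝ) (hε : 0 < ε) : ∃ ρ β : ℝ, 0 < ρ ∧ 0 < β ∧ ∃ k0 : ℕ, ∀ k : ℕ, k0 ≤ k →
    ∀ A : Fin k → Fin k → Prop,
    ((univ.filter fun p : Fin k × Fin k => p.1 < p.2 ∧ ¬ A p.1 p.2 ∧ ¬ A p.2 p.1).card : ℝ) ≤
      β * (k : ℝ) ^ 2 →
    ∃ C Z : Finset (Fin k), Disjoint C Z ∧ (1 - ε) * (k : ℝ) ≤ (C.card : ℝ) ∧
      ∀ i ∈ C, ρ * (k : ℝ) ≤ ((Z.filter fun z => A i z).card : ℝ) := by
  set lam : ℝ := ε / 16 with hlam
  have hlam0 : 0 < lam := by positivity
  set ρ : ℝ := lam ^ 2 * ε / 256 with hρ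
  have hρ0 : 0 < ρ := by positivity
  refine ⟨ρ, ε ^ 2 / 256, hρ0, by positivity, ⌈64 / ε⌉₊ + ⌈1 / ρ⌉₊ + 1, ?_⟩
  intro k hk A hA
  have hk1 : 64 ≤ ε * k := by
    have h1 : 64 / ε ≤ (k : ℝ) := (Nat.le_ceil _).trans (by exact_mod_cast (by omega))
    rw [div_le_iff₀ hε] at h1
    linarith
  have hk2 : 1 ≤ ρ * k := by
    have h1 : 1 / ρ ≤ (k : ℝ) := (Nat.le_ceil _).trans (by exact_mod_cast (by omega))
    rw [div_le_iff₀ hρ0] at h1
    linarith
  have hkpos : 0 < k := by omega
  have hkR : (0 : ℝ) < k := Nat.cast_pos.2 hkpos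
  set m : ℕ := ⌈ρ * k⌉₊ with hm
  have hm1 : ρ * k ≤ m := Nat.le_ceil _
  have hm2 : (m : ℝ) < ρ * k + 1 := Nat.ceil_lt_add_one (by positivity)
  set S : Finset (Fin k) :=
    univ.filter fun i => ((univ.filter fun z => A i z).card : ℝ) < lam * k with hS
  -- the size of `S`
  have hScard : (S.card : ℝ) ≤ ε / 4 * k := by
    by_contra hcon
    rw [not_le] at hcon
    have h1 := small_out A S
    have h1R : (S.card : ℝ) * S.card ≤ S.card +
        2 * (∑ i ∈ S, ((univ.filter fun z => A i z).card : ℝ)) +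
        2 * ((univ.filter fun p : Fin k × Fin k => p.1 < p.2 ∧ ¬ A p.1 p.2 ∧
          ¬ A p.2 p.1).card : ℝ) := by
      exact_mod_cast h1
    have h2 : (∑ i ∈ S, ((univ.filter fun z => A i z).card : ℝ)) ≤ S.card * (lam * k) := by
      have := Finset.sum_le_card_nsmul S (fun i => ((univ.filter fun z => A i z).card : ℝ))
        (lam * k) (fun i hi => (Finset.mem_filter.1 hi).2.le)
      rwa [nsmul_eq_mul] at this
    have hSpos : (0 : ℝ) < S.card := lt_trans (by positivity) hcon
    have h3 : (S.card : ℝ) * S.card ≤ S.card + 2 * (S.card * (lam * k)) +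
        2 * (ε ^ 2 / 256 * k ^ 2) := by linarith
    have h4 : ε ^ 2 / 256 * (k : ℝ) ^ 2 ≤ S.card * (ε / 64 * k) := by
      have h5 : ε / 4 * k * (ε / 64 * k) ≤ S.card * (ε / 64 * k) :=
        mul_le_mul_of_nonneg_right hcon.le (by positivity)
      have h6 : ε / 4 * k * (ε / 64 * k) = ε ^ 2 / 256 * (k : ℝ) ^ 2 := by ring
      linarith
    have h7 : (S.card : ℝ) * S.card ≤ S.card * (1 + 2 * (lam * k) + 2 * (ε / 64 * k)) := by
      have h8 : S.card * (1 + 2 * (lam * k) + 2 * (ε / 64 * k)) = S.card +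
        2 * (S.card * (lam * k)) + 2 * (S.card * (ε / 64 * k)) := by ring
      rw [h8]
      linarith
    have h9 := le_of_mul_le_mul_left h7 hSpos
    rw [hlam] at h9
    linarith
  -- the greedy choice
  set R : ℕ := ⌊lam * k / 2⌋₊ with hR
  have hR1 : (R : ℝ) ≤ lam * k / 2 := Nat.floor_le (by positivity)
  have hR2 : lam * k / 2 < R + 1 := Nat.lt_floor_add_one _
  have hu : 0 < ε / 4 * k := by positivity
  obtain ⟨Z, hZ, hor⟩ := greedy A S m lam (ε / 4 * k) hlam0 hu hkpos (by
    intro i hi
    by_contra hcon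
    rw [not_le] at hcon
    exact hi (Finset.mem_filter.2 ⟨Finset.mem_univ _, hcon⟩)) R hR1
  have hUn : ((unsat A S m Z).card : ℝ) ≤ ε / 4 * k := by
    rcases hor with h | h
    · exact h
    · exfalso
      have h1 : (pot A m Z : ℝ) ≤ k * m := by exact_mod_cast pot_le A m Z
      have h2 : lam * k / 4 ≤ R := by
        rw [hlam] at hR2 ⊢
        linarith
      have h3 : lam * k / 4 * (ε / 4 * k * lam / 2) ≤ R * (ε / 4 * k * lam / 2) :=
        mul_le_mul_of_nonneg_right h2 (by positivity)
      have h4 : lam * k / 4 * (ε / 4 * k * lam / 2) = 8 * (k * (ρ * k)) := by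
        rw [hρ]; ring
      have h5 : (k : ℝ) * m < k * (ρ * k + 1) := mul_lt_mul_of_pos_left hm2 hkR
      have h6 : (k : ℝ) * 1 ≤ k * (ρ * k) := mul_le_mul_of_nonneg_left hk2 hkR.le
      have h7 : (k : ℝ) * (ρ * k + 1) = k * (ρ * k) + k * 1 := by ring
      have h8 : 0 < (k : ℝ) * (ρ * k) := by positivity
      linarith
  refine ⟨univ \ (S ∪ Z ∪ unsat A S m Z), Z, ?_, ?_, ?_⟩
  · rw [Finset.disjoint_left]
    intro i hi hiZ
    exact (Finset.mem_sdiff.1 hi).2 (Finset.mem_union_left _ (Finset.mem_union_right _ hiZ))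
  · have h1 : k ≤ (univ \ (S ∪ Z ∪ unsat A S m Z)).card + (S.card + Z.card +
        (unsat A S m Z).card) := by
      have h2 := Finset.card_union_le (S ∪ Z) (unsat A S m Z)
      have h3 := Finset.card_union_le S Z
      have h4 := Finset.le_card_sdiff (S ∪ Z ∪ unsat A S m Z) (univ : Finset (Fin k))
      rw [Finset.card_univ, Fintype.card_fin] at h4
      omega
    have h1R : (k : ℝ) ≤ ((univ \ (S ∪ Z ∪ unsat A S m Z)).card : ℝ) + (S.card + Z.card +
        (unsat A S m Z).card) := by
      exact_mod_cast h1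
    have hZR : (Z.card : ℝ) ≤ R := by exact_mod_cast hZ
    have h5 : lam * k / 2 = ε * k / 32 := by rw [hlam]; ring
    nlinarith [mul_pos hε hkR]
  · intro i hi
    have hi2 := (Finset.mem_sdiff.1 hi).2
    have h1 : i ∉ S := fun h => hi2 (Finset.mem_union_left _ (Finset.mem_union_left _ h))
    have h2 : i ∉ unsat A S m Z := fun h => hi2 (Finset.mem_union_right _ h)
    have h3 : m ≤ (Z.filter fun z => A i z).card := by
      by_contra hcon
      exact h2 (Finset.mem_filter.2 ⟨Finset.mem_univ _, h1, not_le.1 hcon⟩)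
    have h4 : (m : ℝ) ≤ ((Z.filter fun z => A i z).card : ℝ) := by exact_mod_cast h3
    linarith

end Pool.Agent.PSY
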